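import Mathlib

set_option autoImplicit false

namespace Pool.Agent.Helper350.Tree

/-- left multiplication of a word by a letter -/
def lm (t : Fin 3) : List (Fin 3) → List (Fin 3)
  | [] => [t]
  | s :: l => if t = s then l else t :: s :: l

/-- reduced words -/
def Red (l : List (Fin 3)) : Prop := l.IsChain (· ≠ ·)

theorem Red.nil : Red [] := List.isChain_nil

theorem Red.single (t : Fin 3) : Red [t] := List.isChain_singleton t

theorem Red.tail {t : Fin 3} {l : List (Fin 3)} (h : Red (t :: l)) : Red l :=
  (List.isChain_cons.1 h).2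

theorem Red.lm {l : List (Fin 3)} (h : Red l) (t : Fin 3) : Red (lm t l) := by
  cases l with
  | nil => exact Red.single t
  | cons s l =>
    simp only [Tree.lm]
    split_ifs with hts
    · exact h.tail
    · exact List.isChain_cons_cons.2 ⟨hts, h⟩

theorem lm_cons {t : Fin 3} {l : List (Fin 3)} (h : Red (t :: l)) : lm t l = t :: l := by
  cases l with
  | nil => rfl
  | cons s l =>
    have := (List.isChain_cons_cons.1 h).1
    simp [lm, this]

theorem lm_lm {l : List (Fin 3)} (h : Red l) (t : Fin 3) : lm t (lm t l) = l := by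
  cases l with
  | nil => simp [lm]
  | cons s l =>
    by_cases hts : t = s
    · subst hts
      have : lm t (t :: l) = l := by simp [lm]
      rw [this, lm_cons h]
    · have : lm t (s :: l) = t :: s :: l := by simp [lm, hts]
      rw [this]
      simp [lm]

/-- product of a word with a reduced word -/
def rmul (u v : List (Fin 3)) : List (Fin 3) := u.foldr lm v

theorem rmul_nil_left (v : List (Fin 3)) : rmul [] v = v := rfl

theorem rmul_cons (t : Fin 3) (u v : List (Fin 3)) : rmul (t :: u) v = lm t (rmul u v) := rfl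

theorem rmul_append (u u' v : List (Fin 3)) : rmul (u ++ u') v = rmul u (rmul u' v) := by
  simp [rmul, List.foldr_append]

theorem Red.rmul (u : List (Fin 3)) {v : List (Fin 3)} (h : Red v) : Red (rmul u v) := by
  induction u with
  | nil => exact h
  | cons t u ih => exact Red.lm ih t

theorem rmul_eq_append {u v : List (Fin 3)} (h : Red (u ++ v)) : Tree.rmul u v = u ++ v := by
  induction u with
  | nil => rfl
  | cons t u ih =>
    rw [rmul_cons, ih (Red.tail h)]
    exact lm_cons h

theorem rmul_lm (t : Fin 3) {u v : List (Fin 3)} (hv : Red v) :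
    Tree.rmul (lm t u) v = lm t (Tree.rmul u v) := by
  cases u with
  | nil => rfl
  | cons s u =>
    by_cases hts : t = s
    · subst hts
      have : lm t (t :: u) = u := by simp [lm]
      rw [this, rmul_cons, lm_lm (Red.rmul u hv)]
    · have : lm t (s :: u) = t :: s :: u := by simp [lm, hts]
      rw [this, rmul_cons]

theorem rmul_assoc (u v : List (Fin 3)) {w : List (Fin 3)} (hw : Red w) :
    Tree.rmul (Tree.rmul u v) w = Tree.rmul u (Tree.rmul v w) := by
  induction u with
  | nil => rfl
  | cons t u ih => rw [rmul_cons, rmul_lm t hw, ih, rmul_cons]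

theorem rmul_reverse {c v : List (Fin 3)} (h : Red (c ++ v)) :
    Tree.rmul c.reverse (c ++ v) = v := by
  induction c with
  | nil => rfl
  | cons t c ih =>
    rw [List.reverse_cons, rmul_append]
    have h1 : Tree.rmul [t] (t :: c ++ v) = c ++ v := by
      simp [Tree.rmul, lm]
    rw [h1]
    exact ih (Red.tail h)

theorem Red.reverse {l : List (Fin 3)} (h : Red l) : Red l.reverse := by
  unfold Red at *
  rw [List.isChain_reverse]
  exact h.imp (fun _ _ h => h.symm)

/-- the free product of three groups of order two -/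
structure W where
  lst : List (Fin 3)
  red : Red lst

namespace W

theorem ext' {u v : W} (h : u.lst = v.lst) : u = v := by
  cases u; cases v; cases h; rfl

instance : Group W where
  mul u v := ⟨Tree.rmul u.1 v.1, Red.rmul _ v.2⟩
  one := ⟨[], Red.nil⟩
  inv u := ⟨u.1.reverse, u.2.reverse⟩
  mul_assoc u v w := ext' (rmul_assoc u.1 v.1 w.2)
  one_mul u := ext' rfl
  mul_one u := ext' (by
    have h : Red (u.1 ++ []) := by rw [List.append_nil]; exact u.2
    have := rmul_eq_append h
    rw [List.append_nil] at this
    exact this)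
  inv_mul_cancel u := ext' (by
    have h : Red (u.1 ++ []) := by rw [List.append_nil]; exact u.2
    have := rmul_reverse h
    rw [List.append_nil] at this
    exact this)

theorem lst_mul (u v : W) : (u * v).lst = Tree.rmul u.lst v.lst := rfl
theorem lst_one : (1 : W).lst = [] := rfl
theorem lst_inv (u : W) : (u⁻¹).lst = u.lst.reverse := rfl

/-- generators -/
def gen (i : Fin 3) : W := ⟨[i], Red.single i⟩

theorem lst_gen (i : Fin 3) : (gen i).lst = [i] := rfl

theorem gen_mul_gen (i : Fin 3) : gen i * gen i = 1 := ext' (by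
  rw [lst_mul, lst_gen, lst_one]; simp [Tree.rmul, lm])

theorem gen_inv (i : Fin 3) : (gen i)⁻¹ = gen i := ext' (by
  rw [lst_inv, lst_gen]; rfl)

end W

/-- weight of a word -/
def wt (ω : Fin 3 → ℝ) (l : List (Fin 3)) : ℝ := (l.map ω).sum

section wt

variable (ω : Fin 3 → ℝ)

theorem wt_nil : wt ω [] = 0 := rfl
theorem wt_cons (t : Fin 3) (l : List (Fin 3)) : wt ω (t :: l) = ω t + wt ω l := by simp [wt]
theorem wt_append (l l' : List (Fin 3)) : wt ω (l ++ l') = wt ω l + wt ω l' := by simp [wt]
theorem wt_reverse (l : List (Fin 3)) : wt ω l.reverse = wt ω l := by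
  simp [wt, List.sum_reverse]

variable {ω} (hω : ∀ i, 0 ≤ ω i)
include hω

theorem wt_nonneg (l : List (Fin 3)) : 0 ≤ wt ω l := by
  induction l with
  | nil => exact le_rfl
  | cons t l ih => rw [wt_cons]; have := hω t; linarith

theorem wt_lm (t : Fin 3) (l : List (Fin 3)) : wt ω (lm t l) ≤ ω t + wt ω l := by
  cases l with
  | nil => simp [lm, wt]
  | cons s l =>
    simp only [lm]
    split_ifs with h
    · rw [wt_cons]
      have := hω t
      have := hω s
      linarith
    · rw [wt_cons]

theorem wt_rmul (u v : List (Fin 3)) : wt ω (rmul u v) ≤ wt ω u + wt ω v := by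
  induction u with
  | nil => simp [rmul, wt_nil]
  | cons t u ih =>
    rw [rmul_cons, wt_cons]
    have := wt_lm hω t (rmul u v)
    linarith

end wt

/-- longest common initial segment -/
def lcp {α : Type*} [DecidableEq α] : List α → List α → List α
  | (x :: u), (y :: v) => if x = y then x :: lcp u v else []
  | _, _ => []

section lcp

variable {α : Type*} [DecidableEq α]

theorem lcp_nil_left (v : List α) : lcp [] v = [] := by cases v <;> rfl
theorem lcp_nil_right (v : List α) : lcp v [] = [] := by cases v <;> rfl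
theorem lcp_cons_same (x : α) (u v : List α) : lcp (x :: u) (x :: v) = x :: lcp u v := by
  simp [lcp]
theorem lcp_cons_ne {x y : α} (h : x ≠ y) (u v : List α) : lcp (x :: u) (y :: v) = [] := by
  simp [lcp, h]

theorem lcp_comm (u v : List α) : lcp u v = lcp v u := by
  induction u generalizing v with
  | nil => rw [lcp_nil_left, lcp_nil_right]
  | cons x u ih =>
    cases v with
    | nil => rw [lcp_nil_left, lcp_nil_right]
    | cons y v =>
      by_cases h : x = y
      · subst h; rw [lcp_cons_same, lcp_cons_same, ih]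
      · rw [lcp_cons_ne h, lcp_cons_ne (Ne.symm h)]

theorem lcp_self (u : List α) : lcp u u = u := by
  induction u with
  | nil => rfl
  | cons x u ih => rw [lcp_cons_same, ih]

theorem lcp_append (c u v : List α) : lcp (c ++ u) (c ++ v) = c ++ lcp u v := by
  induction c with
  | nil => rfl
  | cons x c ih => rw [List.cons_append, List.cons_append, lcp_cons_same, ih, List.cons_append]

/-- splitting at the longest common initial segment -/
theorem lcp_split (u v : List α) : ∃ c u' v', u = c ++ u' ∧ v = c ++ v' ∧ lcp u v = c ∧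
    (∀ x ∈ u'.head?, ∀ y ∈ v'.head?, x ≠ y) := by
  induction u generalizing v with
  | nil => exact ⟨[], [], v, rfl, rfl, lcp_nil_left v, by simp⟩
  | cons x u ih =>
    cases v with
    | nil => exact ⟨[], x :: u, [], rfl, rfl, lcp_nil_right _, by simp⟩
    | cons y v =>
      by_cases h : x = y
      · subst h
        obtain ⟨c, u', v', h1, h2, h3, h4⟩ := ih v
        exact ⟨x :: c, u', v', by rw [h1]; rfl, by rw [h2]; rfl,
          by rw [lcp_cons_same, h3], h4⟩
      · exact ⟨[], x :: u, y :: v, rfl, rfl, lcp_cons_ne h _ _, by simpa using h⟩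

end lcp

theorem wt_lcp_min {ω : Fin 3 → ℝ} (hω : ∀ i, 0 ≤ ω i) (x y z : List (Fin 3)) :
    min (wt ω (lcp x y)) (wt ω (lcp y z)) ≤ wt ω (lcp x z) := by
  induction y generalizing x z with
  | nil =>
    rw [lcp_nil_right, lcp_nil_left, wt_nil, min_self]
    exact wt_nonneg hω _
  | cons b y ih =>
    cases x with
    | nil =>
      rw [lcp_nil_left, lcp_nil_left, wt_nil]
      exact min_le_left _ _
    | cons a x =>
      cases z with
      | nil =>
        rw [lcp_nil_right (a :: x), lcp_nil_right, wt_nil]
        exact min_le_right _ _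
      | cons c z =>
        by_cases hab : a = b
        · by_cases hbc : b = c
          · subst hab; subst hbc
            rw [lcp_cons_same, lcp_cons_same, lcp_cons_same, wt_cons, wt_cons, wt_cons,
              min_add_add_left]
            have := ih x z
            linarith
          · rw [lcp_cons_ne hbc]
            exact (min_le_right _ _).trans (wt_nonneg hω _)
        · rw [lcp_cons_ne hab]
          exact (min_le_left _ _).trans (wt_nonneg hω _)

/-- the weighted length on the group -/
def len (ω : Fin 3 → ℝ) (u : W) : ℝ := wt ω u.lst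

/-- the weighted distance -/
def D (ω : Fin 3 → ℝ) (u v : W) : ℝ := len ω (u⁻¹ * v)

theorem inv_mul_list (u v : W) : ∃ c u' v', u.lst = c ++ u' ∧ v.lst = c ++ v' ∧
    lcp u.lst v.lst = c ∧ (u⁻¹ * v).lst = u'.reverse ++ v' ∧
    (∀ x ∈ u'.head?, ∀ y ∈ v'.head?, x ≠ y) := by
  obtain ⟨c, u', v', h1, h2, h3, h4⟩ := lcp_split u.lst v.lst
  refine ⟨c, u', v', h1, h2, h3, ?_, h4⟩
  have hu := u.red
  have hv := v.red
  rw [h1] at hu
  rw [h2] at hv
  rw [W.lst_mul, W.lst_inv, h1, h2, List.reverse_append, rmul_append, rmul_reverse hv]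
  apply rmul_eq_append
  have hu' : Red u' := (List.isChain_append.1 hu).2.1
  have hv' : Red v' := (List.isChain_append.1 hv).2.1
  refine List.isChain_append.2 ⟨hu'.reverse, hv', ?_⟩
  intro x hx y hy
  rw [List.getLast?_reverse] at hx
  exact h4 x hx y hy

theorem D_eq (ω : Fin 3 → ℝ) (u v : W) :
    D ω u v = len ω u + len ω v - 2 * wt ω (lcp u.lst v.lst) := by
  obtain ⟨c, u', v', h1, h2, h3, h4, _⟩ := inv_mul_list u v
  unfold D len
  rw [h4, h3, h1, h2, wt_append, wt_append, wt_append, wt_reverse]
  ring

section D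

variable {ω : Fin 3 → ℝ}

theorem D_self (u : W) : D ω u u = 0 := by
  unfold D; rw [inv_mul_cancel]; rfl

theorem D_comm (u v : W) : D ω u v = D ω v u := by
  rw [D_eq, D_eq, lcp_comm]; ring

theorem D_left (g u v : W) : D ω (g * u) (g * v) = D ω u v := by
  unfold D; congr 1; group

theorem D_gen (u : W) (i : Fin 3) : D ω u (u * W.gen i) = ω i := by
  unfold D len
  have : u⁻¹ * (u * W.gen i) = W.gen i := by group
  rw [this, W.lst_gen]
  simp [wt]

theorem D_one (u : W) : D ω 1 u = len ω u := by
  unfold D; rw [inv_one, one_mul]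

variable (hω : ∀ i, 0 ≤ ω i)
include hω

theorem D_nonneg (u v : W) : 0 ≤ D ω u v := wt_nonneg hω _

theorem D_tri (u v w : W) : D ω u w ≤ D ω u v + D ω v w := by
  unfold D len
  have e : u⁻¹ * w = (u⁻¹ * v) * (v⁻¹ * w) := by group
  rw [e, W.lst_mul]
  exact wt_rmul hω _ _

/-- four point condition -/
theorem D_hyp (x y z w : W) :
    min ((D ω x w + D ω y w - D ω x y) / 2) ((D ω y w + D ω z w - D ω y z) / 2)
      ≤ (D ω x w + D ω z w - D ω x z) / 2 := by
  have key : ∀ x y : W, (D ω x w + D ω y w - D ω x y) / 2 =
      wt ω (lcp (w⁻¹ * x).lst (w⁻¹ * y).lst) := by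
    intro x y
    have h1 : D ω x y = D ω (w⁻¹ * x) (w⁻¹ * y) := (D_left _ _ _).symm
    have h2 : D ω x w = len ω (w⁻¹ * x) := by rw [D_comm]; rfl
    have h3 : D ω y w = len ω (w⁻¹ * y) := by rw [D_comm]; rfl
    rw [h1, h2, h3, D_eq]
    ring
  rw [key, key, key]
  exact wt_lcp_min hω _ _ _

end D

end Pool.Agent.Helper350.Tree
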