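import Mathlib
import Pool.Agent.Helper350.W3

set_option autoImplicit false

namespace Pool.Agent.Helper350.Tree

/-- arithmetic core of the rigidity argument -/
theorem arith (M k : ℕ → ℕ) (hk : Monotone k) (hM : ∀ n, 1 ≤ M n)
    (h3 : ∀ n, 3 * M (n + 1) ≤ 2 ^ (k (n + 1) - k n) * M n)
    (c : ℝ) (hc : ∀ n, (2 : ℝ) ^ k n ≤ c * 3 ^ n) : False := by
  have hc0 : 0 < c := by
    have h := hc 0
    have : (0 : ℝ) < 2 ^ k 0 := by positivity
    simp at h
    linarith
  -- iterated inequality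
  have hit : ∀ n i, 3 ^ i * M (n + i) ≤ 2 ^ (k (n + i) - k n) * M n := by
    intro n i
    induction i with
    | zero => simp
    | succ i ih =>
      have h1 := h3 (n + i)
      have h2 : k (n + i + 1) - k n = (k (n + i + 1) - k (n + i)) + (k (n + i) - k n) := by
        have := hk (show n + i ≤ n + i + 1 by omega)
        have := hk (show n ≤ n + i by omega)
        omega
      calc 3 ^ (i + 1) * M (n + (i + 1)) = 3 ^ i * (3 * M (n + i + 1)) := by
            rw [pow_succ, ← add_assoc]; ring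
        _ ≤ 3 ^ i * (2 ^ (k (n + i + 1) - k (n + i)) * M (n + i)) :=
            Nat.mul_le_mul_left _ h1
        _ = 2 ^ (k (n + i + 1) - k (n + i)) * (3 ^ i * M (n + i)) := by ring
        _ ≤ 2 ^ (k (n + i + 1) - k (n + i)) * (2 ^ (k (n + i) - k n) * M n) :=
            Nat.mul_le_mul_left _ ih
        _ = 2 ^ (k (n + (i + 1)) - k n) * M n := by
            rw [← add_assoc, h2, pow_add]; ring
  set x : ℕ → ℝ := fun n => M n * 3 ^ n / 2 ^ k n with hx
  have hxpos : ∀ n, 0 < x n := by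
    intro n
    have : (0 : ℝ) < M n := by exact_mod_cast hM n
    simp only [hx]
    positivity
  -- difference formula
  have hdiff : ∀ n i, x n - x (n + i) =
      3 ^ n / 2 ^ k (n + i) * ((2 : ℝ) ^ (k (n + i) - k n) * M n - 3 ^ i * M (n + i)) := by
    intro n i
    have h1 := hk (show n ≤ n + i by omega)
    have h2 : (2 : ℝ) ^ k (n + i) = 2 ^ (k (n + i) - k n) * 2 ^ k n := by
      rw [← pow_add]; congr 1; omega
    simp only [hx]
    rw [h2, pow_add]
    have a1 : (2 : ℝ) ^ k n ≠ 0 := by positivity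
    have a2 : (2 : ℝ) ^ (k (n + i) - k n) ≠ 0 := by positivity
    field_simp
  have hanti : ∀ n, x n ≤ x 0 := by
    intro n
    have h1 := hdiff 0 n
    have h2 := hit 0 n
    have h3 : (0 : ℝ) ≤ (2 : ℝ) ^ (k (0 + n) - k 0) * M 0 - 3 ^ n * M (0 + n) := by
      have : ((3 ^ n * M (0 + n) : ℕ) : ℝ) ≤ ((2 ^ (k (0 + n) - k 0) * M 0 : ℕ) : ℝ) := by
        exact_mod_cast h2
      push_cast at this
      linarith
    have h4 : (0 : ℝ) ≤ 3 ^ 0 / 2 ^ k (0 + n) := by positivity
    have h5 := mul_nonneg h4 h3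
    rw [← h1, zero_add] at h5
    linarith
  have hMle : ∀ n, (M n : ℝ) ≤ x 0 * c := by
    intro n
    have h1 : (M n : ℝ) = x n * (2 ^ k n / 3 ^ n) := by
      simp only [hx]; field_simp
    have h2 : (2 : ℝ) ^ k n / 3 ^ n ≤ c := by
      rw [div_le_iff₀ (by positivity)]; exact hc n
    rw [h1]
    exact mul_le_mul (hanti n) h2 (by positivity) (hxpos 0).le
  obtain ⟨i, hi⟩ : ∃ i : ℕ, x 0 * c < 3 ^ i := pow_unbounded_of_one_lt _ (by norm_num)
  have hstrict : ∀ n, 3 ^ i * M (n + i) + 1 ≤ 2 ^ (k (n + i) - k n) * M n := by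
    intro n
    apply Nat.succ_le_of_lt
    apply lt_of_le_of_ne (hit n i)
    intro heq
    have hd : 3 ^ i ∣ 2 ^ (k (n + i) - k n) * M n := ⟨_, heq.symm⟩
    have hcop : Nat.Coprime (3 ^ i) (2 ^ (k (n + i) - k n)) :=
      Nat.Coprime.pow _ _ (by norm_num)
    have hd2 : 3 ^ i ∣ M n := hcop.dvd_of_dvd_mul_left hd
    have hle : 3 ^ i ≤ M n := Nat.le_of_dvd (hM n) hd2
    have h1 : ((3 ^ i : ℕ) : ℝ) ≤ M n := by exact_mod_cast hle
    push_cast at h1
    have := hMle n
    linarith
  have hdec : ∀ n, x (n + i) ≤ x n - 1 / (c * 3 ^ i) := by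
    intro n
    have h1 := hdiff n i
    have h2 : (1 : ℝ) ≤ (2 : ℝ) ^ (k (n + i) - k n) * M n - 3 ^ i * M (n + i) := by
      have : ((3 ^ i * M (n + i) + 1 : ℕ) : ℝ) ≤ ((2 ^ (k (n + i) - k n) * M n : ℕ) : ℝ) := by
        exact_mod_cast hstrict n
      push_cast at this
      linarith
    have h3 : 1 / (c * 3 ^ i) ≤ (3 : ℝ) ^ n / 2 ^ k (n + i) := by
      rw [div_le_div_iff₀ (by positivity) (by positivity), one_mul]
      have := hc (n + i)
      rw [pow_add] at this
      linarith
    have h4 : 0 ≤ (3 : ℝ) ^ n / 2 ^ k (n + i) := by positivity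
    have h5 : (3 : ℝ) ^ n / 2 ^ k (n + i) * 1 ≤ 3 ^ n / 2 ^ k (n + i) *
        ((2 : ℝ) ^ (k (n + i) - k n) * M n - 3 ^ i * M (n + i)) :=
      mul_le_mul_of_nonneg_left h2 h4
    rw [← h1, mul_one] at h5
    linarith
  have hfin : ∀ m : ℕ, x (m * i) ≤ x 0 - m * (1 / (c * 3 ^ i)) := by
    intro m
    induction m with
    | zero => simp
    | succ m ih =>
      have h1 := hdec (m * i)
      have e : (m + 1) * i = m * i + i := by ring
      rw [e]
      push_cast
      linarith
  obtain ⟨m, hm⟩ := exists_nat_gt (x 0 / (1 / (c * 3 ^ i)))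
  have h1 := hfin m
  have h2 := hxpos (m * i)
  rw [div_lt_iff₀ (by positivity)] at hm
  linarith

/-- number of letters different from `0` -/
def cnt (l : List (Fin 3)) : ℕ := l.countP (· ≠ 0)

theorem cnt_nil : cnt [] = 0 := rfl
theorem cnt_append (l l' : List (Fin 3)) : cnt (l ++ l') = cnt l + cnt l' := by
  simp [cnt, List.countP_append]
theorem cnt_cons_zero (l : List (Fin 3)) : cnt (0 :: l) = cnt l := by
  simp [cnt]
theorem cnt_cons_ne {s : Fin 3} (h : s ≠ 0) (l : List (Fin 3)) : cnt (s :: l) = cnt l + 1 := by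
  simp [cnt, h]

/-- edge lengths of the four-regular tree -/
noncomputable def w0 : Fin 3 → ℝ := fun i => if i = 0 then 0 else Real.log 3

/-- edge lengths of the three-regular tree -/
noncomputable def w1 : Fin 3 → ℝ := fun i => if i = 0 then Real.log 2 else Real.log 2

theorem wt_w0 (l : List (Fin 3)) : wt w0 l = Real.log 3 * cnt l := by
  induction l with
  | nil => simp [wt, cnt]
  | cons a l ih =>
    rw [wt_cons, ih]
    by_cases h : a = 0
    · subst h
      rw [cnt_cons_zero]; simp [w0]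
    · rw [cnt_cons_ne h]; simp [w0, h]; ring

theorem wt_w1 (l : List (Fin 3)) : wt w1 l = Real.log 2 * l.length := by
  induction l with
  | nil => simp [wt]
  | cons a l ih =>
    rw [wt_cons, ih, List.length_cons]
    simp [w1]; ring

theorem D_w0 (u v : W) : D w0 u v =
    Real.log 3 * (cnt u.lst + cnt v.lst - 2 * cnt (lcp u.lst v.lst)) := by
  rw [D_eq, len, len, wt_w0, wt_w0, wt_w0]; ring

theorem D_w1 (u v : W) : D w1 u v =
    Real.log 2 * (u.lst.length + v.lst.length - 2 * (lcp u.lst v.lst).length) := by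
  rw [D_eq, len, len, wt_w1, wt_w1, wt_w1]; ring

/-- the three continuations of a word ending in a non-zero letter `s` -/
def ext3 (s : Fin 3) (i : Fin 3) : List (Fin 3) :=
  if i = 0 then [-s] else [0, i]

theorem cnt_lcp_ext3 {s : Fin 3} (hs : s ≠ 0) {i j : Fin 3} (hij : i ≠ j)
    (r r' : List (Fin 3)) : cnt (lcp (ext3 s i ++ r) (ext3 s j ++ r')) = 0 := by
  have hs' : -s ≠ 0 := neg_ne_zero.2 hs
  unfold ext3
  by_cases hi : i = 0
  · have hj : j ≠ 0 := fun h => hij (by rw [hi, h])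
    rw [if_pos hi, if_neg hj]
    simp [lcp, hs', cnt]
  · rw [if_neg hi]
    by_cases hj : j = 0
    · rw [if_pos hj]
      simp [lcp, hs'.symm, cnt]
    · rw [if_neg hj]
      simp [lcp, hij, cnt]


/-- nonempty reduced words not ending in `0` -/
def Good (v : List (Fin 3)) : Prop := Red v ∧ ∃ l s, v = l ++ [s] ∧ s ≠ 0

theorem good_ext {l : List (Fin 3)} {s : Fin 3} (h : Red (l ++ [s])) (hs : s ≠ 0)
    (i : Fin 3) : Good ((l ++ [s]) ++ ext3 s i) := by
  have hs' : -s ≠ 0 := neg_ne_zero.2 hs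
  have hss : s ≠ -s := (by decide : ∀ s : Fin 3, s ≠ 0 → s ≠ -s) s hs
  unfold ext3
  by_cases hi : i = 0
  · rw [if_pos hi]
    refine ⟨?_, l ++ [s], -s, rfl, hs'⟩
    refine List.isChain_append.2 ⟨h, List.isChain_singleton _, ?_⟩
    intro x hx y hy
    simp at hx hy
    subst hx; subst hy
    exact hss
  · rw [if_neg hi]
    refine ⟨?_, l ++ [s] ++ [0], i, by simp, hi⟩
    refine List.isChain_append.2 ⟨h, List.isChain_cons_cons.2 ⟨Ne.symm hi,
      List.isChain_singleton _⟩, ?_⟩
    intro x hx y hy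
    simp at hx hy
    subst hx; subst hy
    exact hs

theorem cnt_ext3 {s : Fin 3} (hs : s ≠ 0) (i : Fin 3) : cnt (ext3 s i) = 1 := by
  have hs' : -s ≠ 0 := neg_ne_zero.2 hs
  unfold ext3
  by_cases hi : i = 0
  · rw [if_pos hi, cnt_cons_ne hs', cnt_nil]
  · rw [if_neg hi, cnt_cons_zero, cnt_cons_ne hi, cnt_nil]

theorem exists_deep {v : List (Fin 3)} (hv : Good v) (N : ℕ) :
    ∃ v', Good v' ∧ v <+: v' ∧ N ≤ cnt v' := by
  induction N with
  | zero => exact ⟨v, hv, List.prefix_rfl, Nat.zero_le _⟩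
  | succ N ih =>
    obtain ⟨v', ⟨h1, l, s, rfl, hs⟩, h2, h3⟩ := ih
    refine ⟨(l ++ [s]) ++ ext3 s 0, good_ext h1 hs 0, h2.trans (List.prefix_append _ _), ?_⟩
    rw [cnt_append, cnt_ext3 hs]
    omega

/-- ends of the image of a cylinder, cut at level `k` -/
def AA (f : W → W) (E : ℝ) (k : ℕ) (v : List (Fin 3)) : Set (List (Fin 3)) :=
  {y | ∃ z : W, v <+: z.lst ∧ Real.log 2 * k + E ≤ Real.log 3 * cnt z.lst ∧
    y = (f z).lst.take k}

theorem AA_finite (f : W → W) (E : ℝ) (k : ℕ) (v : List (Fin 3)) : (AA f E k v).Finite := by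
  refine (List.finite_length_le (Fin 3) k).subset ?_
  rintro _ ⟨z, _, _, rfl⟩
  exact List.length_take_le _ _

theorem AA_nonempty (f : W → W) (E : ℝ) (k : ℕ) {v : List (Fin 3)} (hv : Good v) :
    (AA f E k v).Nonempty := by
  obtain ⟨N, hN⟩ := exists_nat_ge ((Real.log 2 * k + E) / Real.log 3)
  have hlog : 0 < Real.log 3 := Real.log_pos (by norm_num)
  rw [div_le_iff₀ hlog] at hN
  obtain ⟨v', h1, h2, h3⟩ := exists_deep hv N
  refine ⟨_, ⟨v', h1.1⟩, h2, ?_, rfl⟩
  have h4 : (N : ℝ) ≤ cnt v' := by exact_mod_cast h3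
  have h5 : (N : ℝ) * Real.log 3 ≤ cnt v' * Real.log 3 :=
    mul_le_mul_of_nonneg_right h4 hlog.le
  show Real.log 2 * k + E ≤ Real.log 3 * cnt v'
  linarith

theorem AA_mono (f : W → W) (E : ℝ) (k : ℕ) (v r : List (Fin 3)) :
    AA f E k (v ++ r) ⊆ AA f E k v := by
  rintro _ ⟨z, h1, h2, rfl⟩
  exact ⟨z, (List.prefix_append v r).trans h1, h2, rfl⟩

/-- a rough embedding between the two trees fixing the root -/
structure Rough (f : W → W) (C : ℝ) : Prop where
  hC : 0 ≤ C
  one : f 1 = 1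
  close : ∀ u v, |D w1 (f u) (f v) - D w0 u v| ≤ C

namespace Rough

variable {f : W → W} {C : ℝ} (hf : Rough f C)
include hf

theorem len_close (z : W) :
    |Real.log 2 * (f z).lst.length - Real.log 3 * cnt z.lst| ≤ C := by
  have h := hf.close 1 z
  rw [hf.one, D_w1, D_w0, W.lst_one, lcp_nil_left, lcp_nil_left] at h
  simpa [cnt_nil] using h

theorem lcp_close (z z' : W) :
    |Real.log 2 * (lcp (f z).lst (f z').lst).length - Real.log 3 * cnt (lcp z.lst z'.lst)|
      ≤ 3 * C / 2 := by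
  have h := abs_le.1 (hf.close z z')
  have h1 := abs_le.1 (hf.len_close z)
  have h2 := abs_le.1 (hf.len_close z')
  rw [D_w1, D_w0] at h
  rw [abs_le]
  constructor <;> linarith [h.1, h.2, h1.1, h1.2, h2.1, h2.2]

theorem le_length {k : ℕ} {z : W}
    (h : Real.log 2 * k + 3 * C / 2 ≤ Real.log 3 * cnt z.lst) : k ≤ (f z).lst.length := by
  have h1 := abs_le.1 (hf.len_close z)
  have hlog : 0 < Real.log 2 := Real.log_pos (by norm_num)
  have hC := hf.hC
  have h2 : Real.log 2 * k ≤ Real.log 2 * (f z).lst.length := by linarith [h1.1, h1.2]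
  have h3 := le_of_mul_le_mul_left h2 hlog
  exact_mod_cast h3

theorem card_succ {k : ℕ} (hk : 1 ≤ k) (v : List (Fin 3)) :
    (AA f (3 * C / 2) (k + 1) v).ncard ≤ 2 * (AA f (3 * C / 2) k v).ncard := by
  classical
  have hlog : 0 < Real.log 2 := Real.log_pos (by norm_num)
  have fin1 := AA_finite f (3 * C / 2) (k + 1) v
  have fin2 := AA_finite f (3 * C / 2) k v
  rw [Set.ncard_eq_toFinset_card _ fin1, Set.ncard_eq_toFinset_card _ fin2]
  apply Finset.card_le_mul_card_image_of_maps_to (f := List.take k)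
  · intro y hy
    rw [Set.Finite.mem_toFinset] at hy ⊢
    obtain ⟨z, h1, h2, rfl⟩ := hy
    refine ⟨z, h1, ?_, ?_⟩
    · push_cast at h2
      linarith
    · rw [List.take_take]
      congr 1
      omega
  · intro x hx0
    have hsub : (fin1.toFinset.filter fun a => List.take k a = x) ⊆
        ((Finset.univ : Finset (Fin 3)).filter fun t => some t ≠ x.getLast?).image
          (fun t => x ++ [t]) := by
      intro y hy
      rw [Finset.mem_filter, Set.Finite.mem_toFinset] at hy
      obtain ⟨⟨z, h1, h2, rfl⟩, h3⟩ := hy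
      have hl := hf.le_length h2
      set L := (f z).lst with hL
      have hred : Red L := (f z).red
      have h4 : L.take (k + 1) = L.take k ++ [L[k]'(by omega)] := by
        rw [List.take_add_one, List.getElem?_eq_getElem (by omega : k < L.length)]
        rfl
      rw [List.take_take, min_eq_left (Nat.le_succ k)] at h3
      rw [Finset.mem_image]
      refine ⟨L[k]'(by omega), ?_, ?_⟩
      · rw [Finset.mem_filter]
        refine ⟨Finset.mem_univ _, ?_⟩
        have h5 : Red (L.take (k + 1)) := by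
          have : Red (L.take (k + 1) ++ L.drop (k + 1)) := by
            rw [List.take_append_drop]; exact hred
          exact (List.isChain_append.1 this).1
        rw [h4, h3] at h5
        have h6 := (List.isChain_append.1 h5).2.2
        intro heq
        have := h6 (L[k]'(by omega)) (by rw [← heq]; rfl) (L[k]'(by omega)) (by simp)
        exact this rfl
      · rw [h4, h3]
    refine (Finset.card_le_card hsub).trans (Finset.card_image_le.trans ?_)
    -- at most two letters
    by_cases hx : x = []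
    · exfalso
      rw [Set.Finite.mem_toFinset] at hx0
      obtain ⟨z, h1, h2, h3⟩ := hx0
      have hl := hf.le_length h2
      rw [hx] at h3
      have h4 := congrArg List.length h3
      rw [List.length_take, List.length_nil] at h4
      omega
    · obtain ⟨a, ha⟩ : ∃ a, x.getLast? = some a :=
        ⟨x.getLast hx, List.getLast?_eq_some_getLast hx⟩
      rw [ha]
      have : ((Finset.univ : Finset (Fin 3)).filter fun t => some t ≠ some a) =
          Finset.univ.erase a := by
        ext t; simp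
      rw [this, Finset.card_erase_of_mem (Finset.mem_univ a)]
      simp

theorem card_add {k : ℕ} (hk : 1 ≤ k) (v : List (Fin 3)) (m : ℕ) :
    (AA f (3 * C / 2) (k + m) v).ncard ≤ 2 ^ m * (AA f (3 * C / 2) k v).ncard := by
  induction m with
  | zero => simp
  | succ m ih =>
    have h := hf.card_succ (k := k + m) (by omega) v
    calc (AA f (3 * C / 2) (k + (m + 1)) v).ncard ≤ 2 * (AA f (3 * C / 2) (k + m) v).ncard := h
      _ ≤ 2 * (2 ^ m * (AA f (3 * C / 2) k v).ncard) := Nat.mul_le_mul_left _ ih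
      _ = 2 ^ (m + 1) * (AA f (3 * C / 2) k v).ncard := by ring

theorem disj {k : ℕ} {v : List (Fin 3)} {s : Fin 3} (hs : s ≠ 0)
    (hk : Real.log 3 * cnt v + 3 * C / 2 < Real.log 2 * k) {i j : Fin 3} (hij : i ≠ j) :
    Disjoint (AA f (3 * C / 2) k (v ++ ext3 s i)) (AA f (3 * C / 2) k (v ++ ext3 s j)) := by
  rw [Set.disjoint_left]
  rintro _ ⟨z, ⟨r, hr⟩, h2, rfl⟩ ⟨z', ⟨r', hr'⟩, h2', h3⟩
  have hl := hf.le_length h2
  have hl' := hf.le_length h2'
  have hc := abs_le.1 (hf.lcp_close z z')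
  have hcnt : cnt (lcp z.lst z'.lst) = cnt v := by
    rw [← hr, ← hr', List.append_assoc, List.append_assoc, lcp_append, cnt_append,
      cnt_lcp_ext3 hs hij, add_zero]
  rw [hcnt] at hc
  have hlen : k ≤ (lcp (f z).lst (f z').lst).length := by
    have e1 : (f z).lst = (f z).lst.take k ++ (f z).lst.drop k := (List.take_append_drop _ _).symm
    have e2 : (f z').lst = (f z).lst.take k ++ (f z').lst.drop k := by
      rw [h3]; exact (List.take_append_drop _ _).symm
    rw [e1, e2, lcp_append, List.length_append, List.length_take, min_eq_left hl]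
    omega
  have hlog : 0 < Real.log 2 := Real.log_pos (by norm_num)
  have h4 : Real.log 2 * k ≤ Real.log 2 * (lcp (f z).lst (f z').lst).length :=
    mul_le_mul_of_nonneg_left (by exact_mod_cast hlen) hlog.le
  linarith [hc.1, hc.2]

theorem sum_le {k : ℕ} {v : List (Fin 3)} {s : Fin 3} (hs : s ≠ 0)
    (hk : Real.log 3 * cnt v + 3 * C / 2 < Real.log 2 * k) :
    (AA f (3 * C / 2) k (v ++ ext3 s 0)).ncard + (AA f (3 * C / 2) k (v ++ ext3 s 1)).ncard +
      (AA f (3 * C / 2) k (v ++ ext3 s 2)).ncard ≤ (AA f (3 * C / 2) k v).ncard := by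
  have f0 := AA_finite f (3 * C / 2) k (v ++ ext3 s 0)
  have f1 := AA_finite f (3 * C / 2) k (v ++ ext3 s 1)
  have f2 := AA_finite f (3 * C / 2) k (v ++ ext3 s 2)
  have d01 := hf.disj hs hk (i := 0) (j := 1) (by decide)
  have d02 := hf.disj hs hk (i := 0) (j := 2) (by decide)
  have d12 := hf.disj hs hk (i := 1) (j := 2) (by decide)
  rw [← Set.ncard_union_eq d01 f0 f1,
    ← Set.ncard_union_eq (Set.disjoint_union_left.2 ⟨d02, d12⟩) (f0.union f1) f2]
  apply Set.ncard_le_ncard _ (AA_finite f _ k v)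
  exact Set.union_subset (Set.union_subset (AA_mono f _ k v _) (AA_mono f _ k v _))
    (AA_mono f _ k v _)

theorem contra : False := by
  have hlog2 : 0 < Real.log 2 := Real.log_pos (by norm_num)
  have hlog3 : 0 < Real.log 3 := Real.log_pos (by norm_num)
  have hC := hf.hC
  set E := 3 * C / 2 with hE
  have hE0 : 0 ≤ E := by positivity
  set kk : ℕ → ℕ := fun n => ⌊(Real.log 3 * ((n : ℝ) + 1) + E) / Real.log 2⌋₊ + 1 with hkk
  set S : ℕ → Set ℕ := fun n => {m | ∃ v, Good v ∧ cnt v = n + 1 ∧ m = (AA f E (kk n) v).ncard}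
    with hS
  have hmono : Monotone kk := by
    intro a b hab
    simp only [hkk]
    apply Nat.succ_le_succ
    apply Nat.floor_le_floor
    have : (a : ℝ) ≤ b := by exact_mod_cast hab
    gcongr
  have hSne : ∀ n, (S n).Nonempty := by
    intro n
    induction n with
    | zero =>
      refine ⟨_, [1], ⟨List.isChain_singleton _, [], 1, rfl, by decide⟩, ?_, rfl⟩
      rw [cnt_cons_ne (by decide), cnt_nil]
    | succ n ih =>
      obtain ⟨_, v, ⟨h1, l, s, rfl, hs⟩, h2, _⟩ := ih
      refine ⟨_, (l ++ [s]) ++ ext3 s 0, good_ext h1 hs 0, ?_, rfl⟩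
      rw [cnt_append, cnt_ext3 hs, h2]
  set M : ℕ → ℕ := fun n => sInf (S n) with hMdef
  have hMmem : ∀ n, M n ∈ S n := fun n => Nat.sInf_mem (hSne n)
  have hMle : ∀ n v, Good v → cnt v = n + 1 → M n ≤ (AA f E (kk n) v).ncard :=
    fun n v h1 h2 => Nat.sInf_le ⟨v, h1, h2, rfl⟩
  have hkgt : ∀ n : ℕ, Real.log 3 * ((n : ℝ) + 1) + E < Real.log 2 * kk n := by
    intro n
    have h1 := Nat.lt_floor_add_one ((Real.log 3 * ((n : ℝ) + 1) + E) / Real.log 2)
    rw [div_lt_iff₀ hlog2] at h1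
    simp only [hkk]
    push_cast
    linarith
  refine arith M kk hmono ?_ ?_ (2 * Real.exp (Real.log 3 + E)) ?_
  · intro n
    obtain ⟨v, h1, h2, h3⟩ := hMmem n
    rw [h3, Nat.one_le_iff_ne_zero, Ne, Set.ncard_eq_zero (AA_finite f E _ v)]
    exact (AA_nonempty f E _ h1).ne_empty
  · intro n
    obtain ⟨v, hv, h2, h3⟩ := hMmem n
    obtain ⟨h1, l, s, rfl, hs⟩ := hv
    have hk1 : kk n ≤ kk (n + 1) := hmono (Nat.le_succ n)
    have hgt : Real.log 3 * cnt (l ++ [s]) + E < Real.log 2 * kk (n + 1) := by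
      rw [h2]
      have h4 := hkgt n
      have h5 : (kk n : ℝ) ≤ kk (n + 1) := by exact_mod_cast hk1
      have h6 := mul_le_mul_of_nonneg_left h5 hlog2.le
      push_cast
      linarith
    have h4 := hf.sum_le hs hgt
    have e : ∀ i, cnt ((l ++ [s]) ++ ext3 s i) = n + 1 + 1 := by
      intro i
      rw [cnt_append, cnt_ext3 hs, h2]
    have m0 := hMle (n + 1) _ (good_ext h1 hs 0) (e 0)
    have m1 := hMle (n + 1) _ (good_ext h1 hs 1) (e 1)
    have m2 := hMle (n + 1) _ (good_ext h1 hs 2) (e 2)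
    have h5 := hf.card_add (k := kk n) (by simp only [hkk]; omega) (l ++ [s])
      (kk (n + 1) - kk n)
    rw [Nat.add_sub_cancel' hk1] at h5
    rw [← hE] at h4 h5
    rw [h3]
    omega
  · intro n
    have h1 : (⌊(Real.log 3 * ((n : ℝ) + 1) + E) / Real.log 2⌋₊ : ℝ) ≤
        (Real.log 3 * ((n : ℝ) + 1) + E) / Real.log 2 := Nat.floor_le (by positivity)
    rw [le_div_iff₀ hlog2] at h1
    have h2 : (2 : ℝ) ^ kk n = 2 * Real.exp
        (⌊(Real.log 3 * ((n : ℝ) + 1) + E) / Real.log 2⌋₊ * Real.log 2) := by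
      simp only [hkk]
      rw [pow_succ, mul_comm, mul_comm (_ : ℝ) (Real.log 2), Real.exp_mul,
        Real.exp_log (by norm_num), Real.rpow_natCast]
    have h3 : (3 : ℝ) ^ n = Real.exp (Real.log 3 * n) := by
      rw [Real.exp_mul, Real.exp_log (by norm_num), Real.rpow_natCast]
    rw [h2, h3, mul_assoc, ← Real.exp_add]
    have h4 : Real.exp (⌊(Real.log 3 * ((n : ℝ) + 1) + E) / Real.log 2⌋₊ * Real.log 2) ≤
        Real.exp (Real.log 3 + E + Real.log 3 * n) := by
      apply Real.exp_le_exp.2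
      linarith
    linarith

end Rough

/-- no rough isometric embedding -/
theorem no_rough (f : W → W) (C : ℝ) (h : ∀ u v, |D w1 (f u) (f v) - D w0 u v| ≤ C) : False := by
  have hC : 0 ≤ C := (abs_nonneg _).trans (h 1 1)
  refine Rough.contra (f := fun u => (f 1)⁻¹ * f u) (C := C) ⟨hC, inv_mul_cancel _, ?_⟩
  intro u v
  show |D w1 ((f 1)⁻¹ * f u) ((f 1)⁻¹ * f v) - D w0 u v| ≤ C
  rw [D_left]
  exact h u v

end Pool.Agent.Helper350.Tree
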