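import Mathlib
import Pool.Agent.Helper350.NoRough

set_option autoImplicit false

namespace Pool.Agent.Helper350.Tree

/-- A complete prefix code on `ι` with word lengths in `{k, k+1}`. -/
structure IsCode {ι : Type*} (k : ℕ) (c : ι → List Bool) : Prop where
  lo : ∀ i, k ≤ (c i).length
  hi : ∀ i, (c i).length ≤ k + 1
  inj : ∀ i j, c i <+: c j → i = j
  comp : ∀ y : List Bool, k + 1 ≤ y.length → ∃ i, c i <+: y

theorem IsCode.equiv {ι κ : Type*} {k : ℕ} {c : ι → List Bool} (h : IsCode k c) (e : κ ≃ ι) :
    IsCode k (fun x => c (e x)) where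
  lo i := h.lo _
  hi i := h.hi _
  inj i j hij := e.injective (h.inj _ _ hij)
  comp y hy := by
    obtain ⟨i, hi⟩ := h.comp y hy
    exact ⟨e.symm i, by simpa using hi⟩

theorem IsCode.sum {ι κ : Type*} {k : ℕ} {c : ι → List Bool} {c' : κ → List Bool}
    (h : IsCode k c) (h' : IsCode k c') :
    IsCode (k + 1) (Sum.elim (fun i => false :: c i) (fun i => true :: c' i)) where
  lo i := by
    rcases i with i | i
    · simpa using h.lo i
    · simpa using h'.lo i
  hi i := by
    rcases i with i | i
    · simpa using h.hi i
    · simpa using h'.hi i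
  inj i j hij := by
    rcases i with i | i <;> rcases j with j | j
    · simp [List.cons_prefix_cons] at hij
      rw [h.inj _ _ hij]
    · simp [List.cons_prefix_cons] at hij
    · simp [List.cons_prefix_cons] at hij
    · simp [List.cons_prefix_cons] at hij
      rw [h'.inj _ _ hij]
  comp y hy := by
    cases y with
    | nil => simp at hy
    | cons b y =>
      rw [List.length_cons] at hy
      cases b
      · obtain ⟨i, hi⟩ := h.comp y (by omega)
        exact ⟨Sum.inl i, by simpa [List.cons_prefix_cons] using hi⟩
      · obtain ⟨i, hi⟩ := h'.comp y (by omega)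
        exact ⟨Sum.inr i, by simpa [List.cons_prefix_cons] using hi⟩

theorem exists_code (k : ℕ) : ∀ N, 2 ^ k ≤ N → N ≤ 2 ^ (k + 1) →
    ∃ c : Fin N → List Bool, IsCode k c := by
  induction k with
  | zero =>
    intro N h1 h2
    have hN : N = 1 ∨ N = 2 := by
      simp at h1 h2; omega
    have c1 : IsCode 0 (fun _ : Fin 1 => ([] : List Bool)) := by
      refine ⟨fun _ => Nat.zero_le _, fun _ => by simp, fun i j _ => Subsingleton.elim _ _,
        fun y _ => ⟨0, List.nil_prefix⟩⟩
    rcases hN with rfl | rfl
    · exact ⟨_, c1⟩
    · refine ⟨fun i => if i = 0 then [false] else [true], ?_, ?_, ?_, ?_⟩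
      · intro i; exact Nat.zero_le _
      · intro i; split_ifs <;> simp
      · intro i j hij
        fin_cases i <;> fin_cases j <;> simp_all [List.cons_prefix_cons]
      · intro y hy
        cases y with
        | nil => simp at hy
        | cons b y =>
          cases b
          · exact ⟨0, by simp [List.cons_prefix_cons]⟩
          · exact ⟨1, by simp [List.cons_prefix_cons]⟩
  | succ k ih =>
    intro N h1 h2
    obtain ⟨c, hc⟩ := ih (N / 2) (by rw [pow_succ] at h1; omega) (by rw [pow_succ] at h2; omega)
    obtain ⟨c', hc'⟩ := ih (N - N / 2) (by rw [pow_succ] at h1; omega)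
      (by rw [pow_succ] at h2; omega)
    have e : Fin N ≃ Fin (N / 2) ⊕ Fin (N - N / 2) :=
      (finCongr (by omega)).trans finSumFinEquiv.symm
    exact ⟨_, (hc.sum hc').equiv e⟩

/-- code on words of length `q` over a three letter alphabet -/
theorem exists_block_code (q k : ℕ) (h1 : 2 ^ k ≤ 3 ^ q) (h2 : 3 ^ q ≤ 2 ^ (k + 1)) :
    ∃ c : List (Fin 3) → List Bool,
      (∀ l, l.length = q → k ≤ (c l).length ∧ (c l).length ≤ k + 1) ∧
      (∀ l l', l.length = q → l'.length = q → c l <+: c l' → l = l') ∧
      (∀ y : List Bool, k + 1 ≤ y.length → ∃ l : List (Fin 3), l.length = q ∧ c l <+: y) := by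
  obtain ⟨c, hc⟩ := exists_code k (3 ^ q) h1 h2
  have e : List.Vector (Fin 3) q ≃ Fin (3 ^ q) :=
    Fintype.equivFinOfCardEq (by rw [card_vector, Fintype.card_fin])
  have hc' := hc.equiv e
  refine ⟨fun l => if h : l.length = q then c (e ⟨l, h⟩) else [], ?_, ?_, ?_⟩
  · intro l hl
    simp only [dif_pos hl]
    exact ⟨hc'.lo _, hc'.hi _⟩
  · intro l l' hl hl' hp
    simp only [dif_pos hl, dif_pos hl'] at hp
    exact congrArg Subtype.val (hc'.inj _ _ hp)
  · intro y hy
    obtain ⟨⟨l, hl⟩, hi⟩ := hc'.comp y hy
    exact ⟨l, hl, by simpa only [dif_pos hl] using hi⟩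

/-- tree distance between words -/
def dl {α : Type*} [DecidableEq α] (u v : List α) : ℤ :=
  u.length + v.length - 2 * (lcp u v).length

section dl

variable {α : Type*} [DecidableEq α]

theorem lcp_prefix_left (u v : List α) : lcp u v <+: u := by
  obtain ⟨c, u', v', h1, h2, h3, _⟩ := lcp_split u v
  rw [h3, h1]; exact List.prefix_append _ _

theorem lcp_prefix_right (u v : List α) : lcp u v <+: v := by
  obtain ⟨c, u', v', h1, h2, h3, _⟩ := lcp_split u v
  rw [h3, h2]; exact List.prefix_append _ _

theorem dl_append (c u v : List α) : dl (c ++ u) (c ++ v) = dl u v := by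
  unfold dl
  rw [lcp_append]
  simp only [List.length_append]
  push_cast
  ring

end dl

section G

variable (q : ℕ) (c : List (Fin 3) → List Bool)

/-- block coding -/
def G (l : List (Fin 3)) : List Bool :=
  if h : 1 ≤ q ∧ q ≤ l.length then c (l.take q) ++ G (l.drop q) else []
termination_by l.length
decreasing_by
  rw [List.length_drop]; omega

theorem G_short {l : List (Fin 3)} (h : l.length < q) : G q c l = [] := by
  rw [G, dif_neg]; omega

theorem G_block (hq : 1 ≤ q) {x l : List (Fin 3)} (h : x.length = q) :
    G q c (x ++ l) = c x ++ G q c l := by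
  rw [G, dif_pos ⟨hq, by rw [List.length_append]; omega⟩]
  have h1 : (x ++ l).take q = x := by
    rw [← h]; exact List.take_left
  have h2 : (x ++ l).drop q = l := by
    rw [← h]; exact List.drop_left
  rw [h1, h2]

/-- induction by blocks -/
theorem block_cases (hq : 1 ≤ q) (l : List (Fin 3)) : l.length < q ∨
    ∃ x l', l = x ++ l' ∧ x.length = q ∧ l'.length < l.length := by
  by_cases h : l.length < q
  · exact Or.inl h
  · refine Or.inr ⟨l.take q, l.drop q, (List.take_append_drop q l).symm, ?_, ?_⟩
    · rw [List.length_take]; omega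
    · rw [List.length_drop]; omega

variable {q c} {k : ℕ} (hq : 1 ≤ q)
  (h1 : ∀ l, l.length = q → k ≤ (c l).length ∧ (c l).length ≤ k + 1)
  (h2 : ∀ l l', l.length = q → l'.length = q → c l <+: c l' → l = l')
  (h3 : ∀ y : List Bool, k + 1 ≤ y.length → ∃ l : List (Fin 3), l.length = q ∧ c l <+: y)

include hq h1 in
theorem G_length (n : ℕ) : ∀ l : List (Fin 3), l.length ≤ n →
    (k : ℤ) * (l.length - q) ≤ q * (G q c l).length ∧
      (q : ℤ) * (G q c l).length ≤ (k + 1) * l.length := by
  induction n with
  | zero =>
    intro l hl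
    have : l = [] := List.eq_nil_of_length_eq_zero (Nat.le_zero.1 hl)
    subst this
    rw [G_short q c (by simp; omega)]
    simp
    positivity
  | succ n ih =>
    intro l hl
    rcases block_cases q hq l with h | ⟨x, l', rfl, hx, hlt⟩
    · rw [G_short q c h]
      simp only [List.length_nil, Nat.cast_zero, mul_zero]
      constructor
      · apply mul_nonpos_of_nonneg_of_nonpos
        · positivity
        · have : (l.length : ℤ) < q := by exact_mod_cast h
          linarith
      · positivity
    · rw [G_block q c hq hx]
      obtain ⟨a1, a2⟩ := ih l' (by omega)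
      obtain ⟨b1, b2⟩ := h1 x hx
      have b1' : (k : ℤ) ≤ (c x).length := by exact_mod_cast b1
      have b2' : ((c x).length : ℤ) ≤ k + 1 := by exact_mod_cast b2
      have hq' : (0 : ℤ) ≤ q := by positivity
      have m1 := mul_le_mul_of_nonneg_left b1' hq'
      have m2 := mul_le_mul_of_nonneg_left b2' hq'
      rw [List.length_append, List.length_append, hx]
      push_cast
      constructor <;> nlinarith

include hq h1 h2 in
theorem G_lcp_diff {l l' : List (Fin 3)}
    (h : ¬ ∃ x r r', l = x ++ r ∧ l' = x ++ r' ∧ x.length = q) :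
    (lcp (G q c l) (G q c l')).length ≤ k + 1 := by
  rcases block_cases q hq l with hs | ⟨x, r, rfl, hx, _⟩
  · rw [G_short q c hs, lcp_nil_left]; simp
  · rcases block_cases q hq l' with hs | ⟨x', r', rfl, hx', _⟩
    · rw [G_short q c hs, lcp_nil_right]; simp
    · rw [G_block q c hq hx, G_block q c hq hx']
      have hne : x ≠ x' := by
        rintro rfl
        exact h ⟨x, r, r', rfl, rfl, hx⟩
      set L := lcp (c x ++ G q c r) (c x' ++ G q c r') with hL
      by_contra hcon
      push Not at hcon
      have p1 : L <+: c x ++ G q c r := lcp_prefix_left _ _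
      have p2 : L <+: c x' ++ G q c r' := lcp_prefix_right _ _
      have q1 : c x <+: L :=
        List.prefix_of_prefix_length_le (List.prefix_append _ _) p1 (by
          have := (h1 x hx).2; omega)
      have q2 : c x' <+: L :=
        List.prefix_of_prefix_length_le (List.prefix_append _ _) p2 (by
          have := (h1 x' hx').2; omega)
      rcases List.prefix_or_prefix_of_prefix q1 q2 with h' | h'
      · exact hne (h2 _ _ hx hx' h')
      · exact hne (h2 _ _ hx' hx h').symm

include hq h1 h2 in
theorem G_dl (n : ℕ) : ∀ l l' : List (Fin 3), l.length ≤ n →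
    (k : ℤ) * dl l l' ≤ q * dl (G q c l) (G q c l') + 2 * q * (2 * k + 1) ∧
      (q : ℤ) * dl (G q c l) (G q c l') ≤ (k + 1) * dl l l' + 2 * q * (k + 1) := by
  induction n with
  | zero =>
    intro l l' hl
    have : l = [] := List.eq_nil_of_length_eq_zero (Nat.le_zero.1 hl)
    subst this
    have hz : G q c [] = [] := G_short q c (by simp; omega)
    obtain ⟨a1, a2⟩ := G_length hq h1 l'.length l' le_rfl
    unfold dl
    rw [hz, lcp_nil_left, lcp_nil_left]
    simp only [List.length_nil]
    push_cast
    have : (0 : ℤ) ≤ q := by positivity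
    have : (0 : ℤ) ≤ k := by positivity
    constructor <;> nlinarith
  | succ n ih =>
    intro l l' hl
    by_cases h : ∃ x r r', l = x ++ r ∧ l' = x ++ r' ∧ x.length = q
    · obtain ⟨x, r, r', rfl, rfl, hx⟩ := h
      rw [G_block q c hq hx, G_block q c hq hx, dl_append, dl_append]
      apply ih
      rw [List.length_append] at hl
      omega
    · have hd := G_lcp_diff hq h1 h2 h
      have hlq : (lcp l l').length ≤ q := by
        by_contra hcon
        push Not at hcon
        apply h
        have p1 := lcp_prefix_left l l'
        have p2 := lcp_prefix_right l l'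
        have p0 : (lcp l l').take q <+: lcp l l' := List.take_prefix _ _
        obtain ⟨r, hr⟩ := p0.trans p1
        obtain ⟨r', hr'⟩ := p0.trans p2
        exact ⟨(lcp l l').take q, r, r', hr.symm, hr'.symm, by
          rw [List.length_take]; omega⟩
      obtain ⟨a1, a2⟩ := G_length hq h1 l.length l le_rfl
      obtain ⟨b1, b2⟩ := G_length hq h1 l'.length l' le_rfl
      have hd' : ((lcp (G q c l) (G q c l')).length : ℤ) ≤ k + 1 := by exact_mod_cast hd
      have hlq' : ((lcp l l').length : ℤ) ≤ q := by exact_mod_cast hlq
      have hd0 : (0 : ℤ) ≤ (lcp (G q c l) (G q c l')).length := by positivity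
      have hlq0 : (0 : ℤ) ≤ (lcp l l').length := by positivity
      have hq' : (0 : ℤ) ≤ q := by positivity
      have hk' : (0 : ℤ) ≤ k := by positivity
      unfold dl
      generalize (G q c l).length = A at *
      generalize (G q c l').length = B at *
      generalize (lcp (G q c l) (G q c l')).length = X at *
      generalize (lcp l l').length = Y at *
      constructor
      · nlinarith [mul_nonneg hk' hlq0, mul_le_mul_of_nonneg_left hd' hq']
      · nlinarith [mul_nonneg hq' hd0, mul_le_mul_of_nonneg_left hlq' hk']

include hq h1 h3 in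
theorem G_surj (hk : 1 ≤ k) (n : ℕ) : ∀ y : List Bool, y.length ≤ n →
    ∃ l, dl (G q c l) y ≤ k + 1 := by
  have hz : G q c [] = [] := G_short q c (by simp; omega)
  induction n with
  | zero =>
    intro y hy
    have : y = [] := List.eq_nil_of_length_eq_zero (Nat.le_zero.1 hy)
    subst this
    refine ⟨[], ?_⟩
    rw [hz]
    simp [dl, lcp_nil_left]
    positivity
  | succ n ih =>
    intro y hy
    by_cases hk1 : k + 1 ≤ y.length
    · obtain ⟨x, hx, y', rfl⟩ := h3 y hk1
      have := (h1 x hx).1
      rw [List.length_append] at hy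
      obtain ⟨l, hl⟩ := ih y' (by omega)
      refine ⟨x ++ l, ?_⟩
      rw [G_block q c hq hx, dl_append]
      exact hl
    · refine ⟨[], ?_⟩
      rw [hz]
      have : (y.length : ℤ) ≤ k + 1 := by exact_mod_cast (by omega : y.length ≤ k + 1)
      simpa [dl, lcp_nil_left] using this

end G

/-- coding of a reduced word following a non-zero letter: one symbol per non-zero letter -/
def enc : List (Fin 3) → List (Fin 3)
  | [] => []
  | [s] => if s = 0 then [] else [0]
  | a :: s :: l => if a = 0 then s :: enc l else 0 :: enc (s :: l)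

/-- inverse of `enc` -/
def dec : Fin 3 → List (Fin 3) → List (Fin 3)
  | _, [] => []
  | p, x :: l => if x = 0 then (-p) :: dec (-p) l else 0 :: x :: dec x l

theorem enc_zero_cons (s : Fin 3) (l : List (Fin 3)) : enc (0 :: s :: l) = s :: enc l := by
  simp [enc]

theorem enc_cons {a : Fin 3} (ha : a ≠ 0) (l : List (Fin 3)) : enc (a :: l) = 0 :: enc l := by
  cases l with
  | nil => simp [enc, ha]
  | cons s l => rw [enc, if_neg ha]

theorem enc_zero : enc [0] = [] := by simp [enc]

theorem dec_red (l : List (Fin 3)) : ∀ p : Fin 3, p ≠ 0 → Red (p :: dec p l) := by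
  induction l with
  | nil => intro p _; exact List.isChain_singleton _
  | cons x l ih =>
    intro p hp
    rw [dec]
    have hp' : -p ≠ 0 := neg_ne_zero.2 hp
    have hpp : p ≠ -p := (by decide : ∀ s : Fin 3, s ≠ 0 → s ≠ -s) p hp
    split_ifs with hx
    · exact List.isChain_cons_cons.2 ⟨hpp, ih _ hp'⟩
    · exact List.isChain_cons_cons.2 ⟨hp, List.isChain_cons_cons.2 ⟨Ne.symm hx, ih _ hx⟩⟩

theorem enc_dec (l : List (Fin 3)) : ∀ p : Fin 3, p ≠ 0 → enc (dec p l) = l := by
  induction l with
  | nil => intro p _; rfl
  | cons x l ih =>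
    intro p hp
    rw [dec]
    have hp' : -p ≠ 0 := neg_ne_zero.2 hp
    split_ifs with hx
    · rw [enc_cons hp', ih _ hp', hx]
    · rw [enc_zero_cons, ih _ hx]

theorem cnt_enc (n : ℕ) : ∀ l : List (Fin 3), l.length ≤ n → Red l →
    (enc l).length = cnt l := by
  induction n with
  | zero =>
    intro l hl _
    have : l = [] := List.eq_nil_of_length_eq_zero (Nat.le_zero.1 hl)
    subst this; rfl
  | succ n ih =>
    intro l hl hr
    cases l with
    | nil => rfl
    | cons a l =>
      rw [List.length_cons] at hl
      by_cases ha : a = 0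
      · subst ha
        cases l with
        | nil => rfl
        | cons s l =>
          have hs : s ≠ 0 := (List.isChain_cons_cons.1 hr).1.symm
          rw [List.length_cons] at hl
          rw [enc_zero_cons, cnt_cons_zero, cnt_cons_ne hs, List.length_cons,
            ih l (by omega) hr.tail.tail]
      · rw [enc_cons ha, cnt_cons_ne ha, List.length_cons, ih l (by omega) hr.tail]

theorem fin3_eq {p a b : Fin 3} (hp : p ≠ 0) (ha : a ≠ 0) (hb : b ≠ 0) (hpa : p ≠ a)
    (hpb : p ≠ b) : a = b := by
  have h1 : (p : ℕ) ≠ 0 := fun h => hp (Fin.ext h)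
  have h2 : (a : ℕ) ≠ 0 := fun h => ha (Fin.ext h)
  have h3 : (b : ℕ) ≠ 0 := fun h => hb (Fin.ext h)
  have h4 : (p : ℕ) ≠ a := fun h => hpa (Fin.ext h)
  have h5 : (p : ℕ) ≠ b := fun h => hpb (Fin.ext h)
  apply Fin.ext
  omega

theorem cnt_lcp (n : ℕ) : ∀ (p : Fin 3) (u v : List (Fin 3)), u.length ≤ n → p ≠ 0 →
    Red (p :: u) → Red (p :: v) → cnt (lcp u v) = (lcp (enc u) (enc v)).length := by
  induction n with
  | zero =>
    intro p u v hl _ _ _
    have : u = [] := List.eq_nil_of_length_eq_zero (Nat.le_zero.1 hl)
    subst this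
    rw [lcp_nil_left]
    show 0 = (lcp [] (enc v)).length
    rw [lcp_nil_left]; rfl
  | succ n ih =>
    intro p u v hl hp hu hv
    cases u with
    | nil =>
      rw [lcp_nil_left]
      show 0 = (lcp [] (enc v)).length
      rw [lcp_nil_left]; rfl
    | cons a u =>
      cases v with
      | nil =>
        rw [lcp_nil_right]
        show 0 = (lcp (enc (a :: u)) []).length
        rw [lcp_nil_right]; rfl
      | cons b v =>
        rw [List.length_cons] at hl
        have hpa := (List.isChain_cons_cons.1 hu).1
        have hpb := (List.isChain_cons_cons.1 hv).1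
        by_cases ha : a = 0
        · subst ha
          by_cases hb : b = 0
          · subst hb
            rw [lcp_cons_same, cnt_cons_zero]
            cases u with
            | nil => rw [lcp_nil_left, enc_zero, lcp_nil_left]; rfl
            | cons s u =>
              cases v with
              | nil => rw [lcp_nil_right, enc_zero, lcp_nil_right]; rfl
              | cons t v =>
                have hs : s ≠ 0 := (List.isChain_cons_cons.1 hu.tail).1.symm
                rw [enc_zero_cons, enc_zero_cons]
                by_cases hst : s = t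
                · subst hst
                  rw [lcp_cons_same, lcp_cons_same, cnt_cons_ne hs, List.length_cons]
                  rw [List.length_cons] at hl
                  rw [ih s u v (by omega) hs hu.tail.tail hv.tail.tail]
                · rw [lcp_cons_ne hst, lcp_cons_ne hst]; rfl
          · rw [lcp_cons_ne (Ne.symm hb), enc_cons hb]
            cases u with
            | nil => rw [enc_zero, lcp_nil_left]; rfl
            | cons s u =>
              have hs : s ≠ 0 := (List.isChain_cons_cons.1 hu.tail).1.symm
              rw [enc_zero_cons, lcp_cons_ne hs]; rfl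
        · by_cases hb : b = 0
          · subst hb
            rw [lcp_cons_ne ha, enc_cons ha]
            cases v with
            | nil => rw [enc_zero, lcp_nil_right]; rfl
            | cons s v =>
              have hs : s ≠ 0 := (List.isChain_cons_cons.1 hv.tail).1.symm
              rw [enc_zero_cons, lcp_cons_ne (Ne.symm hs)]; rfl
          · have hab : a = b := fin3_eq hp ha hb hpa hpb
            subst hab
            rw [lcp_cons_same, enc_cons ha, enc_cons ha, lcp_cons_same, cnt_cons_ne ha,
              List.length_cons, ih a u v (by omega) ha hu.tail hv.tail]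

/-- realise a binary word as a reduced continuation -/
def dd : Fin 3 → List Bool → List (Fin 3)
  | _, [] => []
  | p, b :: l => (if b then p + 2 else p + 1) :: dd (if b then p + 2 else p + 1) l

theorem dd_red (l : List Bool) : ∀ p : Fin 3, Red (p :: dd p l) := by
  induction l with
  | nil => intro p; exact List.isChain_singleton _
  | cons b l ih =>
    intro p
    rw [dd]
    refine List.isChain_cons_cons.2 ⟨?_, ih _⟩
    cases b
    · exact (by decide : ∀ p : Fin 3, p ≠ p + 1) p
    · exact (by decide : ∀ p : Fin 3, p ≠ p + 2) p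

theorem dd_length (l : List Bool) : ∀ p : Fin 3, (dd p l).length = l.length := by
  induction l with
  | nil => intro p; rfl
  | cons b l ih => intro p; rw [dd, List.length_cons, ih, List.length_cons]

theorem dd_lcp (u : List Bool) : ∀ (v : List Bool) (p : Fin 3),
    (lcp (dd p u) (dd p v)).length = (lcp u v).length := by
  induction u with
  | nil => intro v p; rw [lcp_nil_left]; show (lcp [] (dd p v)).length = _; rw [lcp_nil_left]; rfl
  | cons a u ih =>
    intro v p
    cases v with
    | nil =>
      rw [lcp_nil_right]
      show (lcp (dd p (a :: u)) []).length = _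
      rw [lcp_nil_right]; rfl
    | cons b v =>
      rw [dd, dd]
      by_cases hab : a = b
      · subst hab
        rw [lcp_cons_same, lcp_cons_same, List.length_cons, List.length_cons, ih]
      · rw [lcp_cons_ne hab, lcp_cons_ne]
        · rfl
        · have h12 : p + 1 ≠ p + 2 := (by decide : ∀ p : Fin 3, p + 1 ≠ p + 2) p
          cases a <;> cases b <;> simp_all

theorem dd_surj (y : List (Fin 3)) : ∀ p : Fin 3, Red (p :: y) → ∃ a, dd p a = y := by
  induction y with
  | nil => intro p _; exact ⟨[], rfl⟩
  | cons s y ih =>
    intro p h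
    have hps := (List.isChain_cons_cons.1 h).1
    obtain ⟨a, ha⟩ := ih s h.tail
    by_cases hs : s = p + 1
    · exact ⟨false :: a, by rw [dd]; simp [← hs, ha]⟩
    · have hs2 : s = p + 2 :=
        (by decide : ∀ p s : Fin 3, p ≠ s → s ≠ p + 1 → s = p + 2) p s hps hs
      exact ⟨true :: a, by rw [dd]; simp [← hs2, ha]⟩

end Pool.Agent.Helper350.Tree
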