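import Mathlib
import Pool.Agent.Helper350.W3

set_option autoImplicit false

namespace Pool.Agent.Helper350.Tree

/-- parameters: the edges of the first colour have length `p`, the others length `q` -/
structure Par where
  p : ℝ
  q : ℝ
  hp : 0 ≤ p
  hq : 0 < q

/-- edge lengths -/
def Par.w (P : Par) (i : Fin 3) : ℝ := if i = 0 then P.p else P.q

theorem Par.w_nonneg (P : Par) (i : Fin 3) : 0 ≤ P.w i := by
  unfold Par.w
  split_ifs
  · exact P.hp
  · exact P.hq.le

theorem Par.w_le (P : Par) (i : Fin 3) : P.w i ≤ P.p + P.q := by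
  have := P.hp
  have := P.hq
  unfold Par.w
  split_ifs <;> linarith

variable {P : Par}

/-- distance function of the point at distance `t` from `u` on the edge `{u, u * gen i}` -/
def ed (P : Par) (u : W) (i : Fin 3) (t : ℝ) : W → ℝ := fun z =>
  min (D P.w u z + t) (D P.w (u * W.gen i) z + (P.w i - t))

/-- the geometric realisation -/
def Sp (P : Par) : Type :=
  {f : W → ℝ // ∃ (u : W) (i : Fin 3) (t : ℝ), 0 ≤ t ∧ t ≤ P.w i ∧ f = ed P u i t}

theorem mul_gen_gen (u : W) (i : Fin 3) : u * W.gen i * W.gen i = u := by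
  rw [mul_assoc, W.gen_mul_gen, mul_one]

theorem ed_swap (u : W) (i : Fin 3) (t : ℝ) :
    ed P u i t = ed P (u * W.gen i) i (P.w i - t) := by
  funext z
  unfold ed
  rw [mul_gen_gen, min_comm, sub_sub_cancel]

theorem ed_at (u : W) (i : Fin 3) {t : ℝ} (_h0 : 0 ≤ t) (h1 : t ≤ P.w i) :
    ed P u i t u = t := by
  unfold ed
  rw [D_self, D_comm, D_gen, zero_add, min_eq_left]
  linarith

theorem ed_lip (u : W) (i : Fin 3) (t : ℝ) (z z' : W) :
    |ed P u i t z - ed P u i t z'| ≤ D P.w z z' := by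
  have hw := P.w_nonneg
  have key : ∀ a : W, |D P.w a z - D P.w a z'| ≤ D P.w z z' := by
    intro a
    have h1 := D_tri hw a z z'
    have h2 := D_tri hw a z' z
    rw [D_comm z' z] at h2
    rw [abs_le]; constructor <;> linarith
  unfold ed
  refine (abs_min_sub_min_le_max _ _ _ _).trans (max_le ?_ ?_)
  · have := key u
    rwa [add_sub_add_right_eq_sub]
  · have := key (u * W.gen i)
    rwa [add_sub_add_right_eq_sub]

theorem ed_tight (u : W) (i : Fin 3) {t : ℝ} (h0 : 0 ≤ t) (h1 : t ≤ P.w i) (z z' : W) :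
    D P.w z z' ≤ ed P u i t z + ed P u i t z' := by
  have hw := P.w_nonneg
  have k1 := D_tri hw z u z'
  have k2 := D_tri hw z (u * W.gen i) z'
  have k3 := D_tri hw u (u * W.gen i) z'
  have k4 := D_tri hw u (u * W.gen i) z
  have k5 := D_gen (ω := P.w) u i
  rw [D_comm z u] at k1
  rw [D_comm z (u * W.gen i)] at k2
  have k6 := D_tri hw z u z'
  rw [D_comm z u] at k6
  have k7 := D_tri hw z (u * W.gen i) z'
  rw [D_comm z (u * W.gen i)] at k7
  unfold ed
  rcases min_choice (D P.w u z + t) (D P.w (u * W.gen i) z + (P.w i - t)) with h | h <;>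
  rcases min_choice (D P.w u z' + t) (D P.w (u * W.gen i) z' + (P.w i - t)) with h' | h' <;>
  rw [h, h'] <;> linarith

namespace Sp

instance : CoeFun (Sp P) (fun _ => W → ℝ) := ⟨fun x => x.1⟩

theorem lip (x : Sp P) (z z' : W) : |x z - x z'| ≤ D P.w z z' := by
  obtain ⟨u, i, t, _, _, h⟩ := x.2
  rw [h]; exact ed_lip u i t z z'

theorem tight (x : Sp P) (z z' : W) : D P.w z z' ≤ x z + x z' := by
  obtain ⟨u, i, t, h0, h1, h⟩ := x.2
  rw [h]; exact ed_tight u i h0 h1 z z'

theorem nonneg (x : Sp P) (z : W) : 0 ≤ x z := by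
  have := x.tight z z
  rw [D_self] at this
  linarith

theorem abs_sub_D (x : Sp P) (v z : W) : |x z - D P.w v z| ≤ x v := by
  have h1 := x.lip z v
  have h2 := x.tight v z
  rw [D_comm z v] at h1
  rw [abs_le] at h1 ⊢
  constructor <;> linarith [h1.1, h1.2]

theorem abs_sub_le (x y : Sp P) (z : W) : |x z - y z| ≤ x 1 + y 1 := by
  have h1 := x.abs_sub_D 1 z
  have h2 := y.abs_sub_D 1 z
  rw [abs_le] at h1 h2 ⊢
  constructor <;> linarith [h1.1, h1.2, h2.1, h2.2]

theorem bdd (x y : Sp P) : BddAbove (Set.range fun z => |x z - y z|) :=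
  ⟨x 1 + y 1, by rintro _ ⟨z, rfl⟩; exact x.abs_sub_le y z⟩

/-- sup distance -/
noncomputable def ds (x y : Sp P) : ℝ := ⨆ z, |x z - y z|

theorem le_ds (x y : Sp P) (z : W) : |x z - y z| ≤ ds x y := le_ciSup (bdd x y) z

theorem ds_le {x y : Sp P} {C : ℝ} (h : ∀ z, |x z - y z| ≤ C) : ds x y ≤ C := ciSup_le h

noncomputable instance : MetricSpace (Sp P) where
  dist := ds
  dist_self x := le_antisymm (ds_le fun z => by simp) (by
    have := le_ds x x 1
    simpa using this)
  dist_comm x y := by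
    unfold ds; congr 1; funext z; exact abs_sub_comm _ _
  dist_triangle x y z := ds_le fun w => by
    have h1 := le_ds x y w
    have h2 := le_ds y z w
    have := _root_.abs_sub_le (x.1 w) (y.1 w) (z.1 w)
    linarith
  eq_of_dist_eq_zero {x y} h := by
    apply Subtype.ext
    funext z
    have h1 := le_ds x y z
    change ds x y = 0 at h
    rw [h] at h1
    have h2 := abs_nonneg (x.1 z - y.1 z)
    have h3 : |x.1 z - y.1 z| = 0 := le_antisymm h1 h2
    rw [abs_eq_zero] at h3
    linarith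

theorem le_dist (x y : Sp P) (z : W) : |x z - y z| ≤ dist x y := le_ds x y z

theorem dist_le {x y : Sp P} {C : ℝ} (h : ∀ z, |x z - y z| ≤ C) : dist x y ≤ C := ds_le h

/-- point on an edge, the parameter being clamped to the edge -/
noncomputable def mk (u : W) (i : Fin 3) (t : ℝ) : Sp P :=
  ⟨ed P u i (max 0 (min t (P.w i))), u, i, _, le_max_left _ _,
    max_le (P.w_nonneg i) (min_le_right _ _), rfl⟩

theorem clamp {a t : ℝ} (h0 : 0 ≤ t) (h1 : t ≤ a) : max 0 (min t a) = t := by
  rw [min_eq_left h1, max_eq_right h0]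

theorem mk_coe (u : W) (i : Fin 3) {t : ℝ} (h0 : 0 ≤ t) (h1 : t ≤ P.w i) :
    (mk u i t : Sp P).1 = ed P u i t := by
  show ed P u i (max 0 (min t (P.w i))) = _
  rw [clamp h0 h1]

theorem exists_mk (x : Sp P) : ∃ (u : W) (i : Fin 3) (t : ℝ), 0 ≤ t ∧ t ≤ P.w i ∧
    x = mk u i t := by
  obtain ⟨u, i, t, h0, h1, h⟩ := x.2
  exact ⟨u, i, t, h0, h1, Subtype.ext (by rw [mk_coe u i h0 h1]; exact h)⟩

/-- vertices -/
noncomputable def pt (u : W) : Sp P := mk u 0 0

theorem mk_zero_coe (u : W) (i : Fin 3) : (mk u i 0 : Sp P).1 = fun z => D P.w u z := by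
  rw [mk_coe u i le_rfl (P.w_nonneg i)]
  funext z
  unfold ed
  rw [add_zero, sub_zero, min_eq_left]
  have := D_tri P.w_nonneg u (u * W.gen i) z
  rw [D_gen] at this
  linarith

theorem mk_zero (u : W) (i : Fin 3) : (mk u i 0 : Sp P) = pt u :=
  Subtype.ext (by rw [mk_zero_coe, pt, mk_zero_coe])

theorem pt_apply (u z : W) : (pt u : Sp P) z = D P.w u z := by
  rw [pt, mk_zero_coe]

theorem mk_swap (u : W) (i : Fin 3) {t : ℝ} (h0 : 0 ≤ t) (h1 : t ≤ P.w i) :
    (mk u i t : Sp P) = mk (u * W.gen i) i (P.w i - t) :=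
  Subtype.ext (by
    rw [mk_coe u i h0 h1, mk_coe _ i (by linarith) (by linarith)]
    exact ed_swap u i t)

theorem mk_w (u : W) (i : Fin 3) : (mk u i (P.w i) : Sp P) = pt (u * W.gen i) := by
  rw [mk_swap u i (P.w_nonneg i) le_rfl, sub_self, mk_zero]

theorem dist_pt (x : Sp P) (v : W) : dist x (pt v) = x v := by
  apply le_antisymm
  · refine dist_le fun z => ?_
    rw [pt_apply]
    exact x.abs_sub_D v z
  · have := le_dist x (pt v) v
    rw [pt_apply, D_self, sub_zero, abs_of_nonneg (x.nonneg v)] at this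
    exact this

theorem dist_pt_pt (u v : W) : dist (pt u : Sp P) (pt v) = D P.w u v := by
  rw [dist_pt, pt_apply]

theorem dist_mk_pt (u : W) (i : Fin 3) {t : ℝ} (h0 : 0 ≤ t) (h1 : t ≤ P.w i) :
    dist (mk u i t : Sp P) (pt u) = t := by
  rw [dist_pt, mk_coe u i h0 h1, ed_at u i h0 h1]

theorem dist_mk_mk (u : W) (i : Fin 3) {s t : ℝ} (h0 : 0 ≤ t) (h1 : t ≤ P.w i)
    (h0' : 0 ≤ s) (h1' : s ≤ P.w i) :
    dist (mk u i s : Sp P) (mk u i t) = |s - t| := by
  apply le_antisymm
  · refine dist_le fun z => ?_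
    rw [mk_coe u i h0 h1, mk_coe u i h0' h1']
    unfold ed
    refine (abs_min_sub_min_le_max _ _ _ _).trans (max_le ?_ ?_)
    · rw [add_sub_add_left_eq_sub]
    · rw [add_sub_add_left_eq_sub, sub_sub_sub_cancel_left, abs_sub_comm]
  · have := le_dist (mk u i s : Sp P) (mk u i t) u
    rwa [mk_coe u i h0 h1, mk_coe u i h0' h1', ed_at u i h0 h1, ed_at u i h0' h1'] at this

theorem dist_mk_mk_le (u : W) (i : Fin 3) (s t : ℝ) :
    dist (mk u i s : Sp P) (mk u i t) ≤ |s - t| := by
  have h1 : (mk u i s : Sp P) = mk u i (max 0 (min s (P.w i))) := Subtype.ext (by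
    rw [mk_coe u i (le_max_left _ _) (max_le (P.w_nonneg i) (min_le_right _ _))]; rfl)
  have h2 : (mk u i t : Sp P) = mk u i (max 0 (min t (P.w i))) := Subtype.ext (by
    rw [mk_coe u i (le_max_left _ _) (max_le (P.w_nonneg i) (min_le_right _ _))]; rfl)
  rw [h1, h2, dist_mk_mk u i (le_max_left _ _) (max_le (P.w_nonneg i) (min_le_right _ _))
    (le_max_left _ _) (max_le (P.w_nonneg i) (min_le_right _ _))]
  have h3 := abs_max_sub_max_le_max (0 : ℝ) (min s (P.w i)) 0 (min t (P.w i))
  have h4 := abs_min_sub_min_le_max s (P.w i) t (P.w i)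
  simp only [sub_self, abs_zero] at h3 h4
  rw [max_eq_left (abs_nonneg _)] at h4
  rw [max_eq_right (abs_nonneg (min s (P.w i) - min t (P.w i)))] at h3
  exact h3.trans h4

/-- existence of a geodesic -/
def Geo {X : Type*} [MetricSpace X] (x y : X) : Prop :=
  ∃ γ : ℝ → X, γ 0 = x ∧ γ (dist x y) = y ∧
    ∀ s ∈ Set.Icc (0:ℝ) (dist x y), ∀ t ∈ Set.Icc (0:ℝ) (dist x y), dist (γ s) (γ t) = |s - t|

theorem Geo.symm' {X : Type*} [MetricSpace X] {x y : X} (h : Geo x y) : Geo y x := by
  obtain ⟨γ, h1, h2, h3⟩ := h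
  refine ⟨fun r => γ (dist x y - r), by simpa using h2, ?_, ?_⟩
  · rw [dist_comm y x]
    show γ (dist x y - dist x y) = x
    rw [sub_self]; exact h1
  · intro s hs t ht
    rw [dist_comm y x] at hs ht
    rw [h3 _ ⟨by linarith [hs.2], by linarith [hs.1]⟩ _ ⟨by linarith [ht.2], by linarith [ht.1]⟩]
    rw [sub_sub_sub_cancel_left, abs_sub_comm]

theorem Geo.glue {X : Type*} [MetricSpace X] {x y z : X} (h : Geo x y) (h' : Geo y z)
    (hd : dist x z = dist x y + dist y z) : Geo x z := by
  obtain ⟨γ, h1, h2, h3⟩ := h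
  obtain ⟨γ', h1', h2', h3'⟩ := h'
  have ha : 0 ≤ dist x y := dist_nonneg
  have hb : 0 ≤ dist y z := dist_nonneg
  have key : ∀ s t, 0 ≤ s → s ≤ dist x y → dist x y < t → t ≤ dist x z →
      dist (γ s) (γ' (t - dist x y)) = |s - t| := by
    intro s t hs0 hs1 ht0 ht1
    have e1 := h3 s ⟨hs0, hs1⟩ (dist x y) ⟨ha, le_rfl⟩
    rw [h2] at e1
    have e2 := h3' (t - dist x y) ⟨by linarith, by linarith⟩ 0 ⟨le_rfl, hb⟩
    rw [h1'] at e2
    have e3 := h3 s ⟨hs0, hs1⟩ 0 ⟨le_rfl, ha⟩
    rw [h1] at e3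
    have e4 := h3' (t - dist x y) ⟨by linarith, by linarith⟩ (dist y z) ⟨hb, le_rfl⟩
    rw [h2'] at e4
    rw [abs_of_nonpos (by linarith)] at e1
    rw [sub_zero, abs_of_nonneg (by linarith)] at e2
    rw [sub_zero, abs_of_nonneg (by linarith)] at e3
    rw [abs_of_nonpos (by linarith)] at e4
    rw [abs_of_nonpos (by linarith)]
    have t1 := dist_triangle (γ s) y (γ' (t - dist x y))
    rw [dist_comm y] at t1
    have t2 := dist_triangle x (γ s) z
    have t3 := dist_triangle (γ s) (γ' (t - dist x y)) z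
    rw [dist_comm x (γ s)] at t2
    apply le_antisymm <;> linarith
  refine ⟨fun r => if r ≤ dist x y then γ r else γ' (r - dist x y), ?_, ?_, ?_⟩
  · simp only [if_pos ha]; exact h1
  · by_cases hz : dist x z ≤ dist x y
    · have : dist y z = 0 := by linarith
      have hyz : y = z := eq_of_dist_eq_zero this
      simp only [if_pos hz]
      rw [← hyz]; exact h2
    · simp only [if_neg hz]
      rw [hd, add_sub_cancel_left]; exact h2'
  · intro s hs t ht
    by_cases hs' : s ≤ dist x y
    · by_cases ht' : t ≤ dist x y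
      · simp only [if_pos hs', if_pos ht']
        exact h3 s ⟨hs.1, hs'⟩ t ⟨ht.1, ht'⟩
      · simp only [if_pos hs', if_neg ht']
        exact key s t hs.1 hs' (by linarith) ht.2
    · by_cases ht' : t ≤ dist x y
      · simp only [if_neg hs', if_pos ht']
        rw [dist_comm, key t s ht.1 ht' (by linarith) hs.2, abs_sub_comm]
      · simp only [if_neg hs', if_neg ht']
        rw [h3' _ ⟨by linarith, by linarith [hs.2]⟩ _ ⟨by linarith, by linarith [ht.2]⟩]
        congr 1; ring

theorem geo_edge_le (u : W) (i : Fin 3) {s t : ℝ} (h0 : 0 ≤ s) (hst : s ≤ t) (h1 : t ≤ P.w i) :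
    Geo (mk u i s : Sp P) (mk u i t) := by
  have hd : dist (mk u i s : Sp P) (mk u i t) = t - s := by
    rw [dist_mk_mk u i (by linarith) h1 h0 (by linarith), abs_of_nonpos (by linarith)]; ring
  refine ⟨fun r => mk u i (s + r), by simp, ?_, ?_⟩
  · rw [hd]
    show mk u i (s + (t - s)) = mk u i t
    rw [add_sub_cancel]
  rw [hd]
  intro a ha b hb
  rw [dist_mk_mk u i (by linarith [hb.1]) (by linarith [hb.2]) (by linarith [ha.1])
    (by linarith [ha.2])]
  congr 1; ring

theorem geo_edge (u : W) (i : Fin 3) {s t : ℝ} (h0 : 0 ≤ s) (h1 : s ≤ P.w i)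
    (h0' : 0 ≤ t) (h1' : t ≤ P.w i) : Geo (mk u i s : Sp P) (mk u i t) := by
  rcases le_total s t with h | h
  · exact geo_edge_le u i h0 h h1'
  · exact (geo_edge_le u i h0' h h1).symm'

theorem geo_pt (l : List (Fin 3)) (hl : Red l) : ∀ u : W,
    Geo (pt u : Sp P) (pt (u * ⟨l, hl⟩)) := by
  induction l with
  | nil =>
    intro u
    have : u * (⟨[], hl⟩ : W) = u := mul_one u
    rw [this]
    exact ⟨fun _ => pt u, rfl, rfl, fun s hs t ht => by
      rw [dist_self] at hs ht
      have e1 : s = 0 := le_antisymm hs.2 hs.1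
      have e2 : t = 0 := le_antisymm ht.2 ht.1
      rw [e1, e2]; simp⟩
  | cons a l ih =>
    intro u
    have e : (⟨a :: l, hl⟩ : W) = W.gen a * ⟨l, hl.tail⟩ := W.ext' (by
      rw [W.lst_mul, W.lst_gen]
      show a :: l = Tree.rmul [a] l
      rw [rmul_eq_append (u := [a]) hl]; rfl)
    rw [e, ← mul_assoc]
    have g1 : Geo (pt u : Sp P) (pt (u * W.gen a)) := by
      rw [← mk_zero u a, ← mk_w u a]
      exact geo_edge u a le_rfl (P.w_nonneg a) (P.w_nonneg a) le_rfl
    refine g1.glue (ih hl.tail (u * W.gen a)) ?_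
    rw [dist_pt_pt, dist_pt_pt, dist_pt_pt, D_gen]
    have d1 : D P.w u (u * W.gen a * ⟨l, hl.tail⟩) = wt P.w (a :: l) := by
      unfold D len
      rw [mul_assoc, ← e, ← mul_assoc, inv_mul_cancel, one_mul]
    have d2 : D P.w (u * W.gen a) (u * W.gen a * ⟨l, hl.tail⟩) = wt P.w l := by
      unfold D len
      rw [← mul_assoc, inv_mul_cancel, one_mul]
    rw [d1, d2, wt_cons]

theorem geo_pt' (u v : W) : Geo (pt u : Sp P) (pt v) := by
  have := geo_pt (P := P) (u⁻¹ * v).lst (u⁻¹ * v).red u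
  have e : u * (⟨(u⁻¹ * v).lst, (u⁻¹ * v).red⟩ : W) = v := by
    show u * (u⁻¹ * v) = v
    group
  rwa [e] at this

theorem far {u v : W} {i j : Fin 3} (h : Red ((i :: (u⁻¹ * v).lst) ++ [j])) :
    D P.w (u * W.gen i) (v * W.gen j) = P.w i + D P.w u v + P.w j := by
  unfold D len
  have e : (u * W.gen i)⁻¹ * (v * W.gen j) = W.gen i * ((u⁻¹ * v) * W.gen j) := by
    rw [mul_inv_rev, W.gen_inv]; group
  rw [e, W.lst_mul, W.lst_mul, W.lst_gen, W.lst_gen]
  rw [List.cons_append] at h
  rw [rmul_eq_append (Red.tail h),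
    rmul_eq_append (show Red ([i] ++ ((u⁻¹ * v).lst ++ [j])) from h)]
  rw [List.singleton_append, wt_cons, wt_append, wt_cons, wt_nil]
  ring

theorem geo_far {u v : W} {i j : Fin 3} (h : Red ((i :: (u⁻¹ * v).lst) ++ [j])) {s t : ℝ}
    (h0 : 0 ≤ s) (h1 : s ≤ P.w i) (h0' : 0 ≤ t) (h1' : t ≤ P.w j) :
    Geo (mk u i s : Sp P) (mk v j t) := by
  have hf := far (P := P) h
  have k1 := D_tri P.w_nonneg (u * W.gen i) u (v * W.gen j)
  rw [D_comm (u * W.gen i) u, D_gen] at k1
  have hd : dist (mk u i s : Sp P) (mk v j t) = s + D P.w u v + t := by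
    apply le_antisymm
    · have t1 := dist_triangle (mk u i s : Sp P) (pt u) (mk v j t)
      have t2 := dist_triangle (pt u : Sp P) (pt v) (mk v j t)
      rw [dist_mk_pt u i h0 h1] at t1
      rw [dist_pt_pt, dist_comm (pt v), dist_mk_pt v j h0' h1'] at t2
      linarith
    · have l1 := le_dist (mk u i s : Sp P) (mk v j t) (v * W.gen j)
      have e1 : (mk v j t : Sp P) (v * W.gen j) = P.w j - t := by
        rw [mk_swap v j h0' h1', mk_coe _ j (by linarith) (by linarith),
          ed_at _ j (by linarith) (by linarith)]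
      have e2 : s + D P.w u v + P.w j ≤ (mk u i s : Sp P) (v * W.gen j) := by
        rw [mk_coe u i h0 h1]
        unfold ed
        apply le_min <;> linarith
      rw [e1] at l1
      have := le_abs_self ((mk u i s : Sp P) (v * W.gen j) - (P.w j - t))
      linarith
  have d1 := dist_mk_pt (P := P) u i h0 h1
  have d2 := dist_mk_pt (P := P) v j h0' h1'
  have d3 := dist_pt_pt (P := P) u v
  have t1 := dist_triangle (mk u i s : Sp P) (pt u) (pt v)
  have t2 := dist_triangle (mk u i s : Sp P) (pt v) (mk v j t)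
  rw [dist_comm (pt v)] at t2
  have g1 : Geo (mk u i s : Sp P) (pt u) := by
    rw [← mk_zero u i]
    exact geo_edge u i h0 h1 le_rfl (P.w_nonneg i)
  have g2 : Geo (pt v : Sp P) (mk v j t) := by
    rw [← mk_zero v j]
    exact geo_edge v j le_rfl (P.w_nonneg j) h0' h1'
  refine (g1.glue (geo_pt' u v) ?_).glue g2 ?_
  · linarith
  · rw [dist_comm (pt v)]; linarith

theorem geo_aux (n : ℕ) : ∀ (u v : W) (i j : Fin 3) (s t : ℝ), (u⁻¹ * v).lst.length ≤ n →
    0 ≤ s → s ≤ P.w i → 0 ≤ t → t ≤ P.w j → Geo (mk u i s : Sp P) (mk v j t) := by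
  induction n with
  | zero =>
    intro u v i j s t hn h0 h1 h0' h1'
    have hn' : (u⁻¹ * v).lst = [] := List.eq_nil_of_length_eq_zero (Nat.le_zero.1 hn)
    have huv : u = v := by
      have : u⁻¹ * v = 1 := W.ext' hn'
      exact inv_mul_eq_one.1 this
    by_cases hij : i = j
    · subst hij; subst huv
      exact geo_edge u i h0 h1 h0' h1'
    · apply geo_far _ h0 h1 h0' h1'
      rw [hn']
      exact List.isChain_cons_cons.2 ⟨hij, List.isChain_singleton _⟩
  | succ n ih =>
    intro u v i j s t hn h0 h1 h0' h1'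
    by_cases hi : ∃ l, (u⁻¹ * v).lst = i :: l
    · obtain ⟨l, hl⟩ := hi
      rw [mk_swap u i h0 h1]
      apply ih _ _ _ _ _ _ _ (by linarith) (by linarith) h0' h1'
      have : (u * W.gen i)⁻¹ * v = W.gen i * (u⁻¹ * v) := by
        rw [mul_inv_rev, W.gen_inv, mul_assoc]
      rw [this, W.lst_mul, W.lst_gen, hl]
      have e : Tree.rmul [i] (i :: l) = l := by simp [Tree.rmul, lm]
      rw [e]
      rw [hl] at hn
      simpa using hn
    · by_cases hj : ∃ l, (u⁻¹ * v).lst = l ++ [j]
      · obtain ⟨l, hl⟩ := hj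
        rw [mk_swap v j h0' h1']
        apply ih _ _ _ _ _ _ _ h0 h1 (by linarith) (by linarith)
        have : u⁻¹ * (v * W.gen j) = (u⁻¹ * v) * W.gen j := by group
        rw [this, W.lst_mul, W.lst_gen, hl, rmul_append]
        have e : Tree.rmul [j] [j] = [] := by simp [Tree.rmul, lm]
        rw [e]
        have hr : Red (l ++ []) := by
          rw [List.append_nil]
          have := (u⁻¹ * v).red
          rw [hl] at this
          exact (List.isChain_append.1 this).1
        rw [rmul_eq_append hr, List.append_nil]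
        rw [hl] at hn
        simpa using hn
      · by_cases hn0 : (u⁻¹ * v).lst = []
        · have huv : u = v := by
            have : u⁻¹ * v = 1 := W.ext' hn0
            exact inv_mul_eq_one.1 this
          by_cases hij : i = j
          · subst hij; subst huv
            exact geo_edge u i h0 h1 h0' h1'
          · apply geo_far _ h0 h1 h0' h1'
            rw [hn0]
            exact List.isChain_cons_cons.2 ⟨hij, List.isChain_singleton _⟩
        · apply geo_far _ h0 h1 h0' h1'
          have hr := (u⁻¹ * v).red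
          obtain ⟨a, l, hal⟩ := List.exists_cons_of_ne_nil hn0
          have h2 : Red (i :: (u⁻¹ * v).lst) := by
            rw [hal] at hr ⊢
            refine List.isChain_cons_cons.2 ⟨?_, hr⟩
            rintro rfl
            exact hi ⟨l, hal⟩
          refine List.isChain_append.2 ⟨h2, List.isChain_singleton _, ?_⟩
          intro x hx y hy
          simp at hy
          subst hy
          rintro rfl
          apply hj
          rw [List.getLast?_cons, Option.mem_def, Option.some_inj] at hx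
          obtain ⟨l', b, hl'⟩ := (List.eq_nil_or_concat (u⁻¹ * v).lst).resolve_left hn0
          rw [List.concat_eq_append] at hl'
          refine ⟨l', ?_⟩
          rw [hl'] at hx ⊢
          simp at hx
          rw [hx]

theorem geodesic (x y : Sp P) : Geo x y := by
  obtain ⟨u, i, s, h0, h1, rfl⟩ := x.exists_mk
  obtain ⟨v, j, t, h0', h1', rfl⟩ := y.exists_mk
  exact geo_aux _ u v i j s t le_rfl h0 h1 h0' h1'

end Sp

end Pool.Agent.Helper350.Tree
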