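import Mathlib
import Pool.Agent.Helper350.Real

set_option autoImplicit false

namespace Pool.Agent.Helper350.Tree

namespace Sp

variable {P : Par}

theorem ed_smul (g u : W) (i : Fin 3) (t : ℝ) :
    (fun z => ed P u i t (g⁻¹ * z)) = ed P (g * u) i t := by
  funext z
  unfold ed
  have e1 : D P.w u (g⁻¹ * z) = D P.w (g * u) z := by
    rw [← D_left g u, mul_inv_cancel_left]
  have e2 : D P.w (u * W.gen i) (g⁻¹ * z) = D P.w (g * u * W.gen i) z := by
    rw [← D_left g (u * W.gen i), mul_inv_cancel_left, mul_assoc]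
  rw [e1, e2]

instance : MulAction W (Sp P) where
  smul g x := ⟨fun z => x.1 (g⁻¹ * z), by
    obtain ⟨u, i, t, h0, h1, h⟩ := x.2
    exact ⟨g * u, i, t, h0, h1, by rw [h]; exact ed_smul g u i t⟩⟩
  one_smul x := Subtype.ext (by
    funext z
    show x.1 (1⁻¹ * z) = x.1 z
    rw [inv_one, one_mul])
  mul_smul g h x := Subtype.ext (by
    funext z
    show x.1 ((g * h)⁻¹ * z) = x.1 (h⁻¹ * (g⁻¹ * z))
    rw [mul_inv_rev, mul_assoc])

theorem smul_apply (g : W) (x : Sp P) (z : W) : (g • x) z = x (g⁻¹ * z) := rfl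

theorem smul_mk (g u : W) (i : Fin 3) (t : ℝ) : g • (mk u i t : Sp P) = mk (g * u) i t :=
  Subtype.ext (ed_smul g u i _)

theorem smul_pt (g u : W) : g • (pt u : Sp P) = pt (g * u) := smul_mk g u 0 0

instance : IsIsometricSMul W (Sp P) where
  isometry_smul g := by
    apply Isometry.of_dist_eq
    intro x y
    apply le_antisymm
    · refine dist_le fun z => ?_
      exact le_dist x y (g⁻¹ * z)
    · refine dist_le fun z => ?_
      have := le_dist (g • x) (g • y) (g * z)
      rwa [smul_apply, smul_apply, inv_mul_cancel_left] at this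

theorem exists_pt_near (x : Sp P) : ∃ u : W, dist x (pt u) ≤ P.p + P.q := by
  obtain ⟨u, i, t, h0, h1, rfl⟩ := x.exists_mk
  refine ⟨u, ?_⟩
  rw [dist_mk_pt u i h0 h1]
  exact h1.trans (P.w_le i)

theorem length_le (l : List (Fin 3)) (hl : Red l) :
    P.q * ((l.length : ℝ) - 1) ≤ 2 * wt P.w l := by
  have hq := P.hq
  have hp := P.hp
  induction l using List.twoStepInduction with
  | nil => simp [wt]; exact hq.le
  | singleton a => simp [wt]; exact P.w_nonneg a
  | cons_cons a b l ih _ =>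
    have ih' := ih hl.tail.tail
    have hab := (List.isChain_cons_cons.1 hl).1
    have : P.q ≤ P.w a + P.w b := by
      unfold Par.w
      by_cases ha : a = 0
      · have hb : b ≠ 0 := fun h => hab (by rw [ha, h])
        rw [if_pos ha, if_neg hb]; linarith
      · rw [if_neg ha]
        have := P.w_nonneg b
        unfold Par.w at this
        linarith
    rw [wt_cons, wt_cons, List.length_cons, List.length_cons]
    push_cast
    linarith

theorem finite_len (R : ℝ) : {u : W | len P.w u ≤ R}.Finite := by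
  have hq := P.hq
  obtain ⟨N, hN⟩ := exists_nat_ge (2 * R / P.q + 1)
  have h1 : {l : List (Fin 3) | l.length ≤ N}.Finite := List.finite_length_le _ _
  refine Set.Finite.of_finite_image (f := W.lst) (h1.subset ?_) (fun u _ v _ h => W.ext' h)
  rintro _ ⟨u, hu, rfl⟩
  have h2 := length_le (P := P) u.lst u.red
  have h3 : wt P.w u.lst ≤ R := hu
  have h4 : (u.lst.length : ℝ) ≤ 2 * R / P.q + 1 := by
    have : P.q * ((u.lst.length : ℝ) - 1) ≤ 2 * R := by linarith
    rw [← sub_le_iff_le_add, le_div_iff₀ hq]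
    linarith
  have h5 : (u.lst.length : ℝ) ≤ N := h4.trans hN
  exact_mod_cast h5

theorem isCompact_edge (u : W) (i : Fin 3) :
    IsCompact ((fun t : ℝ => (mk u i t : Sp P)) '' Set.Icc 0 (P.w i)) := by
  apply isCompact_Icc.image
  apply LipschitzWith.continuous (K := 1)
  apply LipschitzWith.of_dist_le_mul
  intro s t
  rw [NNReal.coe_one, one_mul, Real.dist_eq]
  exact dist_mk_mk_le u i s t

theorem mem_edges (x : Sp P) (r : ℝ) (y : Sp P) (hy : dist y x ≤ r) :
    ∃ u ∈ {u : W | len P.w u ≤ x 1 + r + (P.p + P.q)}, ∃ i,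
      y ∈ (fun t : ℝ => (mk u i t : Sp P)) '' Set.Icc 0 (P.w i) := by
  obtain ⟨u, i, t, h0, h1, rfl⟩ := y.exists_mk
  refine ⟨u, ?_, i, t, ⟨h0, h1⟩, rfl⟩
  show len P.w u ≤ _
  rw [← D_one, ← dist_pt_pt (P := P) 1 u, dist_comm]
  have t1 := dist_triangle (pt u : Sp P) (mk u i t) (pt 1)
  have t2 := dist_triangle (mk u i t : Sp P) x (pt 1)
  rw [dist_comm (pt u) (mk u i t), dist_mk_pt u i h0 h1] at t1
  rw [dist_pt x] at t2
  have := P.w_le i
  linarith

instance : ProperSpace (Sp P) where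
  isCompact_closedBall x r := by
    have hK : IsCompact (⋃ u ∈ {u : W | len P.w u ≤ x 1 + r + (P.p + P.q)}, ⋃ i : Fin 3,
        (fun t : ℝ => (mk u i t : Sp P)) '' Set.Icc 0 (P.w i)) := by
      apply (finite_len _).isCompact_biUnion
      intro u _
      exact isCompact_iUnion fun i => isCompact_edge u i
    refine hK.of_isClosed_subset Metric.isClosed_closedBall ?_
    intro y hy
    obtain ⟨u, hu, i, hi⟩ := mem_edges x r y hy
    exact Set.mem_biUnion hu (Set.mem_iUnion.2 ⟨i, hi⟩)

instance : Nonempty (Sp P) := ⟨pt 1⟩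

instance : ProperlyDiscontinuousSMul W (Sp P) where
  finite_disjoint_inter_image := by
    intro K L hK hL
    obtain ⟨R, hR⟩ := hK.isBounded.subset_closedBall (pt 1 : Sp P)
    obtain ⟨R', hR'⟩ := hL.isBounded.subset_closedBall (pt 1 : Sp P)
    refine (finite_len (P := P) (R + R')).subset ?_
    intro g hg
    obtain ⟨y, ⟨x, hx, rfl⟩, hy⟩ := hg
    have h1 := hR hx
    have h2 := hR' hy
    rw [Metric.mem_closedBall] at h1 h2
    show len P.w g ≤ _
    rw [← D_one, ← dist_pt_pt (P := P) 1 g, dist_comm]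
    have e : (pt g : Sp P) = g • pt 1 := by rw [smul_pt, mul_one]
    have t1 := dist_triangle (pt g : Sp P) (g • x) (pt 1)
    rw [e, dist_smul, dist_comm (pt 1) x] at t1
    rw [e]
    simp only at h2
    linarith

theorem cocompact : ∃ K : Set (Sp P), IsCompact K ∧ ∀ x : Sp P, ∃ g : W, g • x ∈ K := by
  refine ⟨⋃ i : Fin 3, (fun t : ℝ => (mk 1 i t : Sp P)) '' Set.Icc 0 (P.w i),
    isCompact_iUnion fun i => isCompact_edge 1 i, fun x => ?_⟩
  obtain ⟨u, i, t, h0, h1, rfl⟩ := x.exists_mk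
  refine ⟨u⁻¹, Set.mem_iUnion.2 ⟨i, t, ⟨h0, h1⟩, ?_⟩⟩
  rw [smul_mk, inv_mul_cancel]

theorem hyperbolic : ∃ δ : ℝ, ∀ x y z w : Sp P,
    min ((dist x w + dist y w - dist x y) / 2) ((dist y w + dist z w - dist y z) / 2) - δ
      ≤ (dist x w + dist z w - dist x z) / 2 := by
  set m := P.p + P.q with hm
  have near : ∀ (x y : Sp P) (a b : W), dist x (pt a) ≤ m → dist y (pt b) ≤ m →
      |dist x y - D P.w a b| ≤ 2 * m := by
    intro x y a b ha hb
    rw [← dist_pt_pt (P := P)]
    have t1 := dist_triangle4 x (pt a) (pt b) y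
    have t2 := dist_triangle4 (pt a) x y (pt b)
    rw [dist_comm (pt b) y] at t1
    rw [dist_comm (pt a) x] at t2
    rw [abs_le]; constructor <;> linarith
  refine ⟨6 * m, fun x y z w => ?_⟩
  obtain ⟨a, ha⟩ := x.exists_pt_near
  obtain ⟨b, hb⟩ := y.exists_pt_near
  obtain ⟨c, hc⟩ := z.exists_pt_near
  obtain ⟨e, he⟩ := w.exists_pt_near
  have h := D_hyp P.w_nonneg a b c e
  have n1 := abs_le.1 (near x y a b ha hb)
  have n2 := abs_le.1 (near y z b c hb hc)
  have n3 := abs_le.1 (near x z a c ha hc)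
  have n4 := abs_le.1 (near x w a e ha he)
  have n5 := abs_le.1 (near y w b e hb he)
  have n6 := abs_le.1 (near z w c e hc he)
  rcases min_le_iff.1 h with h' | h'
  · have := min_le_left ((dist x w + dist y w - dist x y) / 2)
      ((dist y w + dist z w - dist y z) / 2)
    linarith [n1.1, n1.2, n2.1, n2.2, n3.1, n3.2, n4.1, n4.2, n5.1, n5.2, n6.1, n6.2]
  · have := min_le_right ((dist x w + dist y w - dist x y) / 2)
      ((dist y w + dist z w - dist y z) / 2)
    linarith [n1.1, n1.2, n2.1, n2.2, n3.1, n3.2, n4.1, n4.2, n5.1, n5.2, n6.1, n6.2]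

end Sp

end Pool.Agent.Helper350.Tree
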