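import Mathlib
import Pool.Agent.Helper350.Code
import Pool.Agent.Helper350.Real2

set_option autoImplicit false

namespace Pool.Agent.Helper350.Tree

/-- first block of a word -/
def hd : List (Fin 3) → List (Fin 3)
  | [] => []
  | [s] => [s]
  | a :: s :: _ => if a = 0 then [0, s] else [a]

/-- the rest of a word -/
def tl : List (Fin 3) → List (Fin 3)
  | [] => []
  | [_] => []
  | a :: s :: l => if a = 0 then l else s :: l

/-- last letter of the first block -/
def pl (u : List (Fin 3)) : Fin 3 := (hd u).getLastD 1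

theorem hd_tl (u : List (Fin 3)) : hd u ++ tl u = u := by
  rcases u with _ | ⟨a, _ | ⟨s, l⟩⟩
  · rfl
  · rfl
  · rw [hd, tl]
    split_ifs with h
    · rw [h]; rfl
    · rfl

theorem red_tl {u : List (Fin 3)} (h : Red u) : Red (pl u :: tl u) := by
  rcases u with _ | ⟨a, _ | ⟨s, l⟩⟩
  · exact List.isChain_singleton _
  · exact List.isChain_singleton _
  · rw [pl, hd, tl]
    split_ifs with h'
    · exact h.tail
    · exact h

theorem pl_ne {u : List (Fin 3)} (h : Red u) : pl u ≠ 0 ∨ tl u = [] := by
  rcases u with _ | ⟨a, _ | ⟨s, l⟩⟩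
  · right; rfl
  · right; rfl
  · left
    rw [pl, hd]
    split_ifs with h'
    · subst h'
      exact (List.isChain_cons_cons.1 h).1.symm
    · exact h'

theorem hd_facts {u : List (Fin 3)} (h : Red u) :
    cnt (hd u) ≤ 1 ∧ (hd u).length ≤ 2 := by
  rcases u with _ | ⟨a, _ | ⟨s, l⟩⟩
  · simp [hd, cnt]
  · refine ⟨?_, by simp [hd]⟩
    rw [hd]
    exact List.countP_le_length
  · rw [hd]
    split_ifs with h'
    · rw [cnt_cons_zero]
      exact ⟨List.countP_le_length, by simp⟩
    · exact ⟨List.countP_le_length, by simp⟩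

theorem hd_ne_aux {u v : List (Fin 3)} (h : hd u ≠ hd v) (x y : List (Fin 3))
    (hx : tl u = [] → x = [])
    (hy : tl v = [] → y = []) (hu : Red u) (hv : Red v)
    (hx' : hd u = [] ∨ hd u = [0] → x = []) (hy' : hd v = [] ∨ hd v = [0] → y = []) :
    cnt (lcp (hd u ++ x) (hd v ++ y)) = 0 ∧ (lcp (hd u ++ x) (hd v ++ y)).length ≤ 1 := by
  have cls : ∀ u : List (Fin 3), Red u → (hd u = [] ∨ hd u = [0]) ∨
      (∃ s, s ≠ 0 ∧ hd u = [s]) ∨ (∃ s, s ≠ 0 ∧ hd u = [0, s]) := by
    intro u hu
    rcases u with _ | ⟨a, _ | ⟨s, l⟩⟩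
    · left; left; rfl
    · by_cases ha : a = 0
      · left; right; rw [hd, ha]
      · right; left; exact ⟨a, ha, rfl⟩
    · rw [hd]
      split_ifs with h'
      · right; right
        subst h'
        exact ⟨s, (List.isChain_cons_cons.1 hu).1.symm, rfl⟩
      · right; left; exact ⟨a, h', rfl⟩
  rcases cls u hu with hu1 | ⟨s, hs, hu1⟩ | ⟨s, hs, hu1⟩
  · have hxe := hx' hu1
    subst hxe
    rcases hu1 with hu1 | hu1
    · rw [hu1, List.append_nil, lcp_nil_left]; simp [cnt]
    · rw [hu1, List.append_nil]
      cases hd v ++ y with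
      | nil => rw [lcp_nil_right]; simp [cnt]
      | cons b t =>
        by_cases hb : (0 : Fin 3) = b
        · rw [← hb, lcp_cons_same, lcp_nil_left]; simp [cnt]
        · rw [lcp_cons_ne hb]; simp [cnt]
  · rcases cls v hv with hv1 | ⟨t, ht, hv1⟩ | ⟨t, ht, hv1⟩
    · have hye := hy' hv1
      subst hye
      rcases hv1 with hv1 | hv1
      · rw [hv1, List.append_nil, lcp_nil_right]; simp [cnt]
      · rw [hu1, hv1, List.append_nil, List.singleton_append, lcp_cons_ne hs]; simp [cnt]
    · have hst : s ≠ t := by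
        rintro rfl; exact h (by rw [hu1, hv1])
      rw [hu1, hv1, List.singleton_append, List.singleton_append, lcp_cons_ne hst]; simp [cnt]
    · rw [hu1, hv1, List.singleton_append, List.cons_append, lcp_cons_ne hs]; simp [cnt]
  · rcases cls v hv with hv1 | ⟨t, ht, hv1⟩ | ⟨t, ht, hv1⟩
    · have hye := hy' hv1
      subst hye
      rcases hv1 with hv1 | hv1
      · rw [hv1, List.append_nil, lcp_nil_right]; simp [cnt]
      · rw [hu1, hv1, List.append_nil, List.cons_append, lcp_cons_same, lcp_nil_right]
        simp [cnt]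
    · rw [hu1, hv1, List.singleton_append, List.cons_append, lcp_cons_ne (Ne.symm ht)]
      simp [cnt]
    · have hst : s ≠ t := by
        rintro rfl; exact h (by rw [hu1, hv1])
      rw [hu1, hv1]
      show cnt (lcp (0 :: s :: x) (0 :: t :: y)) = 0 ∧
        (lcp (0 :: s :: x) (0 :: t :: y)).length ≤ 1
      rw [lcp_cons_same, lcp_cons_ne hst]
      simp [cnt]

theorem tl_nil_of {u : List (Fin 3)} (h : hd u = [] ∨ hd u = [0]) : tl u = [] := by
  rcases u with _ | ⟨a, _ | ⟨s, l⟩⟩
  · rfl
  · rfl
  · rw [hd] at h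
    split_ifs at h with h'
    · simp at h
    · simp at h
      exact absurd h h'

section main

variable (q : ℕ) (c : List (Fin 3) → List Bool)

/-- the coding map on words -/
def fl (u : List (Fin 3)) : List (Fin 3) := hd u ++ dd (pl u) (G q c (enc (tl u)))

theorem fl_red {u : List (Fin 3)} (h : Red u) : Red (fl q c u) := by
  have h1 := dd_red (G q c (enc (tl u))) (pl u)
  rcases u with _ | ⟨a, _ | ⟨s, l⟩⟩
  · exact h1.tail
  · exact h1
  · rw [fl, pl, hd] at *
    split_ifs at * with h'
    · subst h'
      exact List.isChain_cons_cons.2 ⟨(List.isChain_cons_cons.1 h).1, h1⟩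
    · exact h1

/-- the coding map on the group -/
def fW (u : W) : W := ⟨fl q c u.lst, fl_red q c u.red⟩

variable {q c} {k : ℕ} (hq : 1 ≤ q)
  (h1 : ∀ l, l.length = q → k ≤ (c l).length ∧ (c l).length ≤ k + 1)
  (h2 : ∀ l l', l.length = q → l'.length = q → c l <+: c l' → l = l')
  (h3 : ∀ y : List Bool, k + 1 ≤ y.length → ∃ l : List (Fin 3), l.length = q ∧ c l <+: y)

include hq h1 h2 in
theorem main_est {u v : List (Fin 3)} (hu : Red u) (hv : Red v) :
    (k : ℤ) * (cnt u + cnt v - 2 * cnt (lcp u v)) ≤
        q * ((fl q c u).length + (fl q c v).length - 2 * (lcp (fl q c u) (fl q c v)).length)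
          + 10 * q * (k + 1) ∧
      (q : ℤ) * ((fl q c u).length + (fl q c v).length - 2 * (lcp (fl q c u) (fl q c v)).length)
        ≤ (k + 1) * (cnt u + cnt v - 2 * cnt (lcp u v)) + 10 * q * (k + 1) := by
  have hz : G q c [] = [] := G_short q c (by simp; omega)
  have q1 : (1 : ℤ) ≤ q := by exact_mod_cast hq
  have k0 : (0 : ℤ) ≤ k := by positivity
  have cu : cnt u = cnt (hd u) + (enc (tl u)).length := by
    conv_lhs => rw [← hd_tl u]
    rw [cnt_append, cnt_enc _ _ le_rfl (red_tl hu).tail]
  have cv : cnt v = cnt (hd v) + (enc (tl v)).length := by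
    conv_lhs => rw [← hd_tl v]
    rw [cnt_append, cnt_enc _ _ le_rfl (red_tl hv).tail]
  have lu : (fl q c u).length = (hd u).length + (G q c (enc (tl u))).length := by
    rw [fl, List.length_append, dd_length]
  have lv : (fl q c v).length = (hd v).length + (G q c (enc (tl v))).length := by
    rw [fl, List.length_append, dd_length]
  by_cases h : hd u = hd v
  · have hp : pl u = pl v := by rw [pl, pl, h]
    have e1 : cnt (lcp u v) = cnt (hd u) + (lcp (enc (tl u)) (enc (tl v))).length := by
      conv_lhs => rw [← hd_tl u, ← hd_tl v]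
      rw [← h, lcp_append, cnt_append]
      congr 1
      rcases pl_ne hu with hpu | htu
      · exact cnt_lcp _ _ _ _ le_rfl hpu (red_tl hu) (by rw [hp]; exact red_tl hv)
      · rw [htu, lcp_nil_left]
        show 0 = (lcp [] _).length
        rw [lcp_nil_left]; rfl
    have e2 : (lcp (fl q c u) (fl q c v)).length =
        (hd u).length + (lcp (G q c (enc (tl u))) (G q c (enc (tl v)))).length := by
      rw [fl, fl, ← h, ← hp, lcp_append, List.length_append, dd_lcp]
    obtain ⟨a1, a2⟩ := G_dl hq h1 h2 _ (enc (tl u)) (enc (tl v)) le_rfl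
    rw [cu, cv, e1, e2, lu, lv, ← h]
    unfold dl at a1 a2
    push_cast
    constructor
    · nlinarith
    · nlinarith
  · have tu : hd u = [] ∨ hd u = [0] → tl u = [] := tl_nil_of
    have tv : hd v = [] ∨ hd v = [0] → tl v = [] := tl_nil_of
    have gnil : ∀ w : List (Fin 3), tl w = [] → dd (pl w) (G q c (enc (tl w))) = [] := by
      intro w hw
      rw [hw]
      show dd (pl w) (G q c []) = []
      rw [hz]; rfl
    have e1 := (hd_ne_aux h (tl u) (tl v) id id hu hv tu tv).1
    rw [hd_tl, hd_tl] at e1
    have e2 := (hd_ne_aux h (dd (pl u) (G q c (enc (tl u)))) (dd (pl v) (G q c (enc (tl v))))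
      (gnil u) (gnil v) hu hv (fun h => gnil u (tu h)) (fun h => gnil v (tv h))).2
    change (lcp (fl q c u) (fl q c v)).length ≤ 1 at e2
    obtain ⟨a1, a2⟩ := G_length hq h1 _ (enc (tl u)) le_rfl
    obtain ⟨b1, b2⟩ := G_length hq h1 _ (enc (tl v)) le_rfl
    obtain ⟨c1, c2⟩ := hd_facts hu
    obtain ⟨d1, d2⟩ := hd_facts hv
    rw [cu, cv, e1, lu, lv]
    have e2' : ((lcp (fl q c u) (fl q c v)).length : ℤ) ≤ 1 := by exact_mod_cast e2
    have e0 : (0 : ℤ) ≤ (lcp (fl q c u) (fl q c v)).length := by positivity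
    have c1' : (cnt (hd u) : ℤ) ≤ 1 := by exact_mod_cast c1
    have c2' : ((hd u).length : ℤ) ≤ 2 := by exact_mod_cast c2
    have d1' : (cnt (hd v) : ℤ) ≤ 1 := by exact_mod_cast d1
    have d2' : ((hd v).length : ℤ) ≤ 2 := by exact_mod_cast d2
    have c10 : (0 : ℤ) ≤ cnt (hd u) := by positivity
    have c20 : (0 : ℤ) ≤ (hd u).length := by positivity
    have d10 : (0 : ℤ) ≤ cnt (hd v) := by positivity
    have d20 : (0 : ℤ) ≤ (hd v).length := by positivity
    push_cast
    generalize ((lcp (fl q c u) (fl q c v)).length : ℤ) = X at *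
    generalize ((G q c (enc (tl u))).length : ℤ) = A at *
    generalize ((G q c (enc (tl v))).length : ℤ) = B at *
    generalize ((enc (tl u)).length : ℤ) = e at *
    generalize ((enc (tl v)).length : ℤ) = e' at *
    generalize (cnt (hd u) : ℤ) = m at *
    generalize (cnt (hd v) : ℤ) = n at *
    generalize ((hd u).length : ℤ) = r at *
    generalize ((hd v).length : ℤ) = s at *
    generalize (k : ℤ) = K at *
    generalize (q : ℤ) = Q at *
    have Q0 : 0 ≤ Q := by linarith
    have t1 : K * (m + n) ≤ K * 2 := mul_le_mul_of_nonneg_left (by linarith) k0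
    have t2 : 0 ≤ Q * (r + s) := mul_nonneg Q0 (by linarith)
    have t3 : Q * X ≤ Q * 1 := mul_le_mul_of_nonneg_left e2' Q0
    have t4 : 0 ≤ K * (Q - 1) := mul_nonneg k0 (by linarith)
    have t5 : Q * (r + s) ≤ Q * 4 := mul_le_mul_of_nonneg_left (by linarith) Q0
    have t6 : 0 ≤ Q * X := mul_nonneg Q0 e0
    have t7 : 0 ≤ (K + 1) * (m + n) := mul_nonneg (by linarith) (by linarith)
    have t8 : 0 ≤ K * Q := mul_nonneg k0 Q0
    constructor
    · nlinarith
    · nlinarith

include hq h1 h3 in
theorem main_surj (hk : 1 ≤ k) {z : List (Fin 3)} (hz : Red z) :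
    ∃ u, Red u ∧ ((fl q c u).length : ℤ) + z.length - 2 * (lcp (fl q c u) z).length ≤ k + 1 := by
  have hz0 : G q c [] = [] := G_short q c (by simp; omega)
  rcases pl_ne hz with hp | ht
  · obtain ⟨a, ha⟩ := dd_surj (tl z) (pl z) (red_tl hz)
    obtain ⟨l, hl⟩ := G_surj hq h1 h3 hk _ a le_rfl
    -- word with the same first block
    have hred : Red (hd z ++ dec (pl z) l) := by
      have h4 := dec_red l (pl z) hp
      rcases z with _ | ⟨b, _ | ⟨s, l'⟩⟩
      · exact h4.tail
      · exact h4
      · rw [pl, hd] at *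
        split_ifs at * with h'
        · subst h'
          exact List.isChain_cons_cons.2 ⟨(List.isChain_cons_cons.1 hz).1, h4⟩
        · exact h4
    by_cases hne : hd z = []
    · have hzz : z = [] := by
        rw [← hd_tl z, hne, tl_nil_of (Or.inl hne)]; rfl
      refine ⟨[], Red.nil, ?_⟩
      rw [hzz]
      have : fl q c [] = [] := by
        show [] ++ dd _ (G q c []) = []
        rw [hz0]; rfl
      rw [this, lcp_nil_left]
      simp
      positivity
    · have hhd : hd (hd z ++ dec (pl z) l) = hd z ∧ tl (hd z ++ dec (pl z) l) = dec (pl z) l := by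
        rcases z with _ | ⟨b, _ | ⟨s, l'⟩⟩
        · exact absurd rfl hne
        · have hb : b ≠ 0 := hp
          show hd (b :: dec b l) = [b] ∧ tl (b :: dec b l) = dec b l
          cases hdec : dec b l with
          | nil => exact ⟨rfl, rfl⟩
          | cons x y => rw [hd, tl, if_neg hb, if_neg hb]; exact ⟨rfl, rfl⟩
        · by_cases h' : b = 0
          · subst h'
            have e1 : hd (0 :: s :: l') = [0, s] := by rw [hd, if_pos rfl]
            have e2 : pl (0 :: s :: l') = s := by rw [pl, e1]; rfl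
            rw [e1, e2]
            show hd (0 :: s :: dec s l) = _ ∧ tl (0 :: s :: dec s l) = _
            rw [hd, tl, if_pos rfl, if_pos rfl]
            exact ⟨rfl, rfl⟩
          · have e1 : hd (b :: s :: l') = [b] := by rw [hd, if_neg h']
            have e2 : pl (b :: s :: l') = b := by rw [pl, e1]; rfl
            rw [e1, e2]
            show hd (b :: dec b l) = [b] ∧ tl (b :: dec b l) = dec b l
            cases hdec : dec b l with
            | nil => exact ⟨rfl, rfl⟩
            | cons x y => rw [hd, tl, if_neg h', if_neg h']; exact ⟨rfl, rfl⟩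
      refine ⟨hd z ++ dec (pl z) l, hred, ?_⟩
      have e2' : pl (hd z ++ dec (pl z) l) = pl z := by
        show (hd (hd z ++ dec (pl z) l)).getLastD 1 = _
        rw [hhd.1]; rfl
      have e3 : fl q c (hd z ++ dec (pl z) l) = hd z ++ dd (pl z) (G q c l) := by
        unfold fl
        rw [e2', hhd.1, hhd.2, enc_dec l _ hp]
      have e4 : z = hd z ++ dd (pl z) a := by rw [ha, hd_tl]
      have e5 : ((fl q c (hd z ++ dec (pl z) l)).length : ℤ) + z.length -
          2 * (lcp (fl q c (hd z ++ dec (pl z) l)) z).length = dl (G q c l) a := by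
        rw [e3]
        conv_lhs => rw [e4]
        have hpl : pl (hd z ++ dd (pl z) a) = pl z := by rw [← e4]
        have hhd' : hd (hd z ++ dd (pl z) a) = hd z := by rw [← e4]
        rw [hhd', hpl, lcp_append, List.length_append, List.length_append,
          List.length_append, dd_length, dd_length, dd_lcp]
        unfold dl
        push_cast
        ring
      rw [e5]; exact hl
  · refine ⟨z, hz, ?_⟩
    have e : fl q c z = z := by
      rw [fl, ht]
      show hd z ++ dd (pl z) (G q c []) = z
      rw [hz0]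
      show hd z ++ [] = z
      have := hd_tl z
      rwa [ht] at this
    rw [e, lcp_self]
    have : (0 : ℤ) ≤ k := by positivity
    linarith

end main

/-- quasi-isometries with multiplicative constant arbitrarily close to one -/
theorem claimA (η : ℝ) (hη : 0 < η) : ∃ (f : W → W) (C : ℝ),
    (∀ u v, D w0 u v / (1 + η) - C ≤ D w1 (f u) (f v) ∧
      D w1 (f u) (f v) ≤ (1 + η) * D w0 u v + C) ∧
    ∀ z, ∃ u, D w1 (f u) z ≤ C := by
  have hlog2 : 0 < Real.log 2 := Real.log_pos (by norm_num)
  have hlog3 : 0 < Real.log 3 := Real.log_pos (by norm_num)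
  have hlog23 : Real.log 2 < Real.log 3 := Real.log_lt_log (by norm_num) (by norm_num)
  obtain ⟨m, hm⟩ := exists_nat_gt ((1 + η) * Real.log 2 / (η * Real.log 3))
  rw [div_lt_iff₀ (by positivity)] at hm
  set q := m + 1 with hqdef
  have hq : 1 ≤ q := by omega
  have hqm : (q : ℝ) = m + 1 := by rw [hqdef]; push_cast; ring
  set k := Nat.log 2 (3 ^ q) with hkdef
  have hk1 : 2 ^ k ≤ 3 ^ q := Nat.pow_log_le_self 2 (by positivity)
  have hk2 : 3 ^ q < 2 ^ (k + 1) := Nat.lt_pow_succ_log_self (by norm_num) _
  have hk : 1 ≤ k := by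
    by_contra hcon
    have : k = 0 := by omega
    rw [this] at hk2
    have h3 : 3 ^ 1 ≤ 3 ^ q := Nat.pow_le_pow_right (by norm_num) hq
    norm_num at hk2 h3
    omega
  have r1 : (k : ℝ) * Real.log 2 ≤ q * Real.log 3 := by
    rw [← Real.log_pow, ← Real.log_pow]
    apply Real.log_le_log (by positivity)
    exact_mod_cast hk1
  have r2 : (q : ℝ) * Real.log 3 < (k + 1) * Real.log 2 := by
    have : ((k : ℝ) + 1) = ((k + 1 : ℕ) : ℝ) := by push_cast; ring
    rw [this, ← Real.log_pow, ← Real.log_pow]
    apply Real.log_lt_log (by positivity)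
    exact_mod_cast hk2
  obtain ⟨c, h1, h2, h3⟩ := exists_block_code q k hk1 hk2.le
  have hq0 : (0 : ℝ) < q := by positivity
  set K : ℝ := 10 * q * (k + 1) with hK
  have hK0 : 0 ≤ K := by positivity
  refine ⟨fW q c, K * Real.log 2 + (k + 1) * Real.log 2, fun u v => ?_, fun z => ?_⟩
  · obtain ⟨a1, a2⟩ := main_est hq h1 h2 u.red v.red
    have b1 : (k : ℝ) * (cnt u.lst + cnt v.lst - 2 * cnt (lcp u.lst v.lst)) ≤
        q * ((fl q c u.lst).length + (fl q c v.lst).length -
          2 * (lcp (fl q c u.lst) (fl q c v.lst)).length) + K := by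
      have := (Int.cast_le (R := ℝ)).2 a1
      push_cast at this
      exact this
    have b2 : (q : ℝ) * ((fl q c u.lst).length + (fl q c v.lst).length -
          2 * (lcp (fl q c u.lst) (fl q c v.lst)).length) ≤
        (k + 1) * (cnt u.lst + cnt v.lst - 2 * cnt (lcp u.lst v.lst)) + K := by
      have := (Int.cast_le (R := ℝ)).2 a2
      push_cast at this
      exact this
    have hd0 : 0 ≤ D w0 u v := by
      refine D_nonneg (fun i => ?_) u v
      unfold w0; split_ifs <;> linarith
    rw [D_w0] at hd0 ⊢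
    rw [D_w1]
    show _ ≤ Real.log 2 * ((fl q c u.lst).length + (fl q c v.lst).length -
          2 * (lcp (fl q c u.lst) (fl q c v.lst)).length) ∧
      Real.log 2 * ((fl q c u.lst).length + (fl q c v.lst).length -
          2 * (lcp (fl q c u.lst) (fl q c v.lst)).length) ≤ _
    generalize ((fl q c u.lst).length + (fl q c v.lst).length -
          2 * (lcp (fl q c u.lst) (fl q c v.lst)).length : ℝ) = Y at *
    generalize (cnt u.lst + cnt v.lst - 2 * cnt (lcp u.lst v.lst) : ℝ) = X at *
    have hX : 0 ≤ X := by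
      by_contra hcon
      push Not at hcon
      have := mul_neg_of_pos_of_neg hlog3 hcon
      linarith
    have q1 : (1 : ℝ) ≤ q := by exact_mod_cast hq
    -- ratio bounds
    have s1 : ((k : ℝ) + 1) * Real.log 2 ≤ (1 + η) * (q * Real.log 3) := by
      have : η * Real.log 3 * (m : ℝ) = η * (q * Real.log 3) - η * Real.log 3 := by
        rw [hqm]; ring
      nlinarith
    have s2 : (q : ℝ) * Real.log 3 ≤ (1 + η) * (k * Real.log 2) := by
      have : η * Real.log 3 * (m : ℝ) = η * (q * Real.log 3) - η * Real.log 3 := by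
        rw [hqm]; ring
      nlinarith
    constructor
    · -- lower bound
      have t1 : Real.log 3 * X / (1 + η) ≤ (k * Real.log 2) / q * X := by
        rw [div_le_iff₀ (by linarith)]
        have : Real.log 3 ≤ (1 + η) * (k * Real.log 2) / q := by
          rw [le_div_iff₀ hq0]; linarith
        have := mul_le_mul_of_nonneg_right this hX
        calc Real.log 3 * X ≤ (1 + η) * (k * Real.log 2) / q * X := this
          _ = k * Real.log 2 / q * X * (1 + η) := by ring
      have t2 : (k * Real.log 2) / q * X ≤ Real.log 2 * Y + K * Real.log 2 := by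
        rw [div_mul_eq_mul_div, div_le_iff₀ hq0]
        have := mul_le_mul_of_nonneg_left b1 hlog2.le
        have h5 : K * Real.log 2 ≤ K * Real.log 2 * q := by
          have : 0 ≤ K * Real.log 2 := by positivity
          nlinarith
        nlinarith
      have t3 : 0 ≤ ((k : ℝ) + 1) * Real.log 2 := by positivity
      linarith
    · have t2 : Real.log 2 * Y ≤ ((k + 1) * Real.log 2) / q * X + K * Real.log 2 := by
        rw [div_mul_eq_mul_div, div_add' _ _ _ hq0.ne', le_div_iff₀ hq0]
        have := mul_le_mul_of_nonneg_left b2 hlog2.le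
        have h5 : K * Real.log 2 ≤ K * Real.log 2 * q := by
          have : 0 ≤ K * Real.log 2 := by positivity
          nlinarith
        nlinarith
      have t1 : ((k + 1) * Real.log 2) / q * X ≤ (1 + η) * (Real.log 3 * X) := by
        have : ((k : ℝ) + 1) * Real.log 2 / q ≤ (1 + η) * Real.log 3 := by
          rw [div_le_iff₀ hq0]; linarith
        have := mul_le_mul_of_nonneg_right this hX
        linarith
      have t3 : 0 ≤ ((k : ℝ) + 1) * Real.log 2 := by positivity
      linarith
  · obtain ⟨u, hu, h5⟩ := main_surj hq h1 h3 hk z.red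
    refine ⟨⟨u, hu⟩, ?_⟩
    rw [D_w1]
    show Real.log 2 * ((fl q c u).length + z.lst.length - 2 * (lcp (fl q c u) z.lst).length) ≤ _
    have h6 : ((fl q c u).length : ℝ) + z.lst.length - 2 * (lcp (fl q c u) z.lst).length
        ≤ k + 1 := by
      have := (Int.cast_le (R := ℝ)).2 h5
      push_cast at this
      exact this
    have := mul_le_mul_of_nonneg_left h6 hlog2.le
    have : 0 ≤ K * Real.log 2 := by positivity
    linarith

end Pool.Agent.Helper350.Tree
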