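import Mathlib

set_option autoImplicit false

namespace Pool.Agent.Helper350

universe u v w

/-- A pseudo-distance. -/
class CS (X : Type u) where
  d : X → X → ℝ
  d_self : ∀ x, d x x = 0
  d_comm : ∀ x y, d x y = d y x
  d_tri : ∀ x y z, d x z ≤ d x y + d y z

export CS (d d_self d_comm d_tri)

theorem d_nonneg {X : Type u} [CS X] (x y : X) : 0 ≤ d x y := by
  have h := d_tri x y x
  rw [d_self, d_comm y x] at h
  linarith

instance instProd {X : Type u} {Y : Type v} [CS X] [CS Y] : CS (X × Y) where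
  d p q := d p.1 q.1 + d p.2 q.2
  d_self p := by simp [d_self]
  d_comm p q := by rw [d_comm p.1, d_comm p.2]
  d_tri p q r := by
    have h1 := d_tri p.1 q.1 r.1
    have h2 := d_tri p.2 q.2 r.2
    linarith

/-- A conjugation invariant norm on a group. -/
class BN (G : Type u) [Group G] where
  nm : G → ℝ
  nm_one : nm 1 = 0
  nm_inv : ∀ g, nm g⁻¹ = nm g
  nm_mul : ∀ g h, nm (g * h) ≤ nm g + nm h
  nm_conj : ∀ g h, nm (h * g * h⁻¹) = nm g

export BN (nm nm_one nm_inv nm_mul nm_conj)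

instance instBN {G : Type u} [Group G] [BN G] : CS G where
  d x y := nm (x⁻¹ * y)
  d_self x := by simp [nm_one]
  d_comm x y := by
    rw [← nm_inv]; congr 1; group
  d_tri x y z := by
    have h := nm_mul (x⁻¹ * y) (y⁻¹ * z)
    have e : x⁻¹ * y * (y⁻¹ * z) = x⁻¹ * z := by group
    rwa [e] at h

theorem d_def {G : Type u} [Group G] [BN G] (x y : G) : d x y = nm (x⁻¹ * y) := rfl

theorem nm_nonneg {G : Type u} [Group G] [BN G] (x : G) : 0 ≤ nm x := by
  have h := d_nonneg (1 : G) x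
  rw [d_def] at h
  simpa using h

theorem d_mul {G : Type u} [Group G] [BN G] (x y x' y' : G) :
    d (x * y) (x' * y') ≤ d x x' + d y y' := by
  simp only [d_def]
  have h := nm_mul (y⁻¹ * (x⁻¹ * x') * (y⁻¹)⁻¹) (y⁻¹ * y')
  rw [nm_conj] at h
  have e : y⁻¹ * (x⁻¹ * x') * (y⁻¹)⁻¹ * (y⁻¹ * y') = (x * y)⁻¹ * (x' * y') := by group
  rwa [e] at h

theorem d_mul_left {G : Type u} [Group G] [BN G] (x y y' : G) :
    d (x * y) (x * y') = d y y' := by
  simp only [d_def]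
  congr 1; group

theorem d_mul_right {G : Type u} [Group G] [BN G] (x y y' : G) :
    d (y * x) (y' * x) = d y y' := by
  simp only [d_def]
  rw [← nm_conj (y⁻¹ * y') x⁻¹]
  congr 1; group

theorem d_inv {G : Type u} [Group G] [BN G] (x y : G) : d x⁻¹ y⁻¹ = d x y := by
  rw [d_comm x y]
  simp only [d_def]
  rw [← nm_conj _ y⁻¹]
  congr 1; group

theorem nm_eq {G : Type u} [Group G] [BN G] (x : G) : nm x = d 1 x := by
  simp [d_def]

/-- coarsely Lipschitz map -/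
def CL {X : Type u} {Y : Type v} [CS X] [CS Y] (f : X → Y) : Prop :=
  ∃ K C : ℝ, 0 ≤ K ∧ 0 ≤ C ∧ ∀ x x', d (f x) (f x') ≤ K * d x x' + C

/-- maps at bounded distance -/
def Cl {X : Type u} {Y : Type v} [CS Y] (f g : X → Y) : Prop :=
  ∃ C : ℝ, ∀ x, d (f x) (g x) ≤ C

section lemmas

variable {X : Type u} {Y : Type v} {Z : Type w}

theorem CL.id' [CS X] : CL (fun x : X => x) :=
  ⟨1, 0, by norm_num, le_rfl, fun x x' => by simp⟩

theorem CL.const' [CS X] [CS Y] (y : Y) : CL (fun _ : X => y) :=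
  ⟨0, 0, le_rfl, le_rfl, fun x x' => by simp [d_self]⟩

theorem CL.comp' [CS X] [CS Y] [CS Z] {g : Y → Z} {f : X → Y} (hg : CL g) (hf : CL f) :
    CL (fun x => g (f x)) := by
  obtain ⟨K, C, hK, hC, h⟩ := hg
  obtain ⟨K', C', hK', hC', h'⟩ := hf
  refine ⟨K * K', K * C' + C, by positivity, by positivity, fun x x' => ?_⟩
  have h1 := h (f x) (f x')
  have h2 := h' x x'
  have h3 := mul_le_mul_of_nonneg_left h2 hK
  nlinarith

theorem CL.mul' {G : Type v} [CS X] [Group G] [BN G] {f g : X → G} (hf : CL f) (hg : CL g) :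
    CL (fun x => f x * g x) := by
  obtain ⟨K, C, hK, hC, h⟩ := hg
  obtain ⟨K', C', hK', hC', h'⟩ := hf
  refine ⟨K + K', C + C', by positivity, by positivity, fun x x' => ?_⟩
  have h1 := h x x'
  have h2 := h' x x'
  have h3 := d_mul (f x) (g x) (f x') (g x')
  nlinarith

theorem CL.inv' {G : Type v} [CS X] [Group G] [BN G] {f : X → G} (hf : CL f) :
    CL (fun x => (f x)⁻¹) := by
  obtain ⟨K, C, hK, hC, h⟩ := hf
  refine ⟨K, C, hK, hC, fun x x' => ?_⟩
  rw [d_inv]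
  exact h x x'

theorem CL.prod' [CS X] [CS Y] [CS Z] {f : X → Y} {g : X → Z} (hf : CL f) (hg : CL g) :
    CL (fun x => (f x, g x)) := by
  obtain ⟨K, C, hK, hC, h⟩ := hg
  obtain ⟨K', C', hK', hC', h'⟩ := hf
  refine ⟨K + K', C + C', by positivity, by positivity, fun x x' => ?_⟩
  have h1 := h x x'
  have h2 := h' x x'
  have h3 : d (f x, g x) (f x', g x') = d (f x) (f x') + d (g x) (g x') := rfl
  rw [h3]
  nlinarith

theorem CL.fst' [CS X] [CS Y] : CL (fun p : X × Y => p.1) :=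
  ⟨1, 0, by norm_num, le_rfl, fun p q => by
    have h3 : d p q = d p.1 q.1 + d p.2 q.2 := rfl
    have := d_nonneg p.2 q.2
    rw [h3]; linarith⟩

theorem CL.snd' [CS X] [CS Y] : CL (fun p : X × Y => p.2) :=
  ⟨1, 0, by norm_num, le_rfl, fun p q => by
    have h3 : d p q = d p.1 q.1 + d p.2 q.2 := rfl
    have := d_nonneg p.1 q.1
    rw [h3]; linarith⟩

theorem Cl.refl' [CS Y] (f : X → Y) : Cl f f := ⟨0, fun x => by rw [d_self]⟩

theorem Cl.of_eq [CS Y] {f g : X → Y} (h : ∀ x, f x = g x) : Cl f g :=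
  ⟨0, fun x => by rw [h x, d_self]⟩

theorem Cl.symm' [CS Y] {f g : X → Y} (h : Cl f g) : Cl g f := by
  obtain ⟨C, hC⟩ := h
  exact ⟨C, fun x => by rw [d_comm]; exact hC x⟩

theorem Cl.trans' [CS Y] {f g h : X → Y} (h1 : Cl f g) (h2 : Cl g h) : Cl f h := by
  obtain ⟨C, hC⟩ := h1
  obtain ⟨C', hC'⟩ := h2
  refine ⟨C + C', fun x => ?_⟩
  have := d_tri (f x) (g x) (h x)
  have := hC x
  have := hC' x
  linarith

theorem Cl.mul' {G : Type v} [Group G] [BN G] {f f' g g' : X → G} (h1 : Cl f f')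
    (h2 : Cl g g') : Cl (fun x => f x * g x) (fun x => f' x * g' x) := by
  obtain ⟨C, hC⟩ := h1
  obtain ⟨C', hC'⟩ := h2
  refine ⟨C + C', fun x => ?_⟩
  have := d_mul (f x) (g x) (f' x) (g' x)
  have := hC x
  have := hC' x
  linarith

theorem Cl.inv' {G : Type v} [Group G] [BN G] {f f' : X → G} (h1 : Cl f f') :
    Cl (fun x => (f x)⁻¹) (fun x => (f' x)⁻¹) := by
  obtain ⟨C, hC⟩ := h1
  exact ⟨C, fun x => by rw [d_inv]; exact hC x⟩

theorem Cl.prod' [CS Y] [CS Z] {f f' : X → Y} {g g' : X → Z} (h1 : Cl f f')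
    (h2 : Cl g g') : Cl (fun x => (f x, g x)) (fun x => (f' x, g' x)) := by
  obtain ⟨C, hC⟩ := h1
  obtain ⟨C', hC'⟩ := h2
  refine ⟨C + C', fun x => ?_⟩
  have h3 : d (f x, g x) (f' x, g' x) = d (f x) (f' x) + d (g x) (g' x) := rfl
  have := hC x
  have := hC' x
  linarith

theorem Cl.left [CS Y] [CS Z] {h : Y → Z} (hh : CL h) {f g : X → Y} (h1 : Cl f g) :
    Cl (fun x => h (f x)) (fun x => h (g x)) := by
  obtain ⟨C, hC⟩ := h1
  obtain ⟨K, C', hK, hC', h'⟩ := hh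
  refine ⟨K * C + C', fun x => ?_⟩
  have h1 := h' (f x) (g x)
  have h2 := mul_le_mul_of_nonneg_left (hC x) hK
  linarith

theorem Cl.right [CS Z] {f g : Y → Z} (h1 : Cl f g) (h : X → Y) :
    Cl (fun x => f (h x)) (fun x => g (h x)) := by
  obtain ⟨C, hC⟩ := h1
  exact ⟨C, fun x => hC _⟩

end lemmas

/-- quasi-isometric spaces -/
def QI (X : Type u) (Y : Type v) [CS X] [CS Y] : Prop :=
  ∃ (f : X → Y) (g : Y → X), CL f ∧ CL g ∧ Cl (fun x => g (f x)) (fun x => x) ∧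
    Cl (fun y => f (g y)) (fun y => y)

theorem QI.symm' {X : Type u} {Y : Type v} [CS X] [CS Y] (h : QI X Y) : QI Y X := by
  obtain ⟨f, g, hf, hg, h1, h2⟩ := h
  exact ⟨g, f, hg, hf, h2, h1⟩

theorem QI.trans' {X : Type u} {Y : Type v} {Z : Type w} [CS X] [CS Y] [CS Z]
    (h : QI X Y) (h' : QI Y Z) : QI X Z := by
  obtain ⟨f, g, hf, hg, h1, h2⟩ := h
  obtain ⟨f', g', hf', hg', h1', h2'⟩ := h'
  refine ⟨fun x => f' (f x), fun z => g (g' z), hf'.comp' hf, hg.comp' hg', ?_, ?_⟩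
  · exact (Cl.left hg (h1'.right f)).trans' h1
  · exact (Cl.left hf' (h2.right g')).trans' h2'

theorem QI.prod_right {X : Type u} {Y : Type v} {Z : Type w} [CS X] [CS Y] [CS Z]
    (h : QI X Y) : QI (X × Z) (Y × Z) := by
  obtain ⟨f, g, hf, hg, h1, h2⟩ := h
  refine ⟨fun p => (f p.1, p.2), fun p => (g p.1, p.2), ?_, ?_, ?_, ?_⟩
  · exact (hf.comp' CL.fst').prod' CL.snd'
  · exact (hg.comp' CL.fst').prod' CL.snd'
  · exact (h1.right (fun p : X × Z => p.1)).prod' (Cl.refl' _)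
  · exact (h2.right (fun p : Y × Z => p.1)).prod' (Cl.refl' _)

theorem QI.prod_left {X : Type u} {Y : Type v} {Z : Type w} [CS X] [CS Y] [CS Z]
    (h : QI X Y) : QI (Z × X) (Z × Y) := by
  obtain ⟨f, g, hf, hg, h1, h2⟩ := h
  refine ⟨fun p => (p.1, f p.2), fun p => (p.1, g p.2), ?_, ?_, ?_, ?_⟩
  · exact CL.fst'.prod' (hf.comp' CL.snd')
  · exact CL.fst'.prod' (hg.comp' CL.snd')
  · exact (Cl.refl' _).prod' (h1.right (fun p : Z × X => p.2))
  · exact (Cl.refl' _).prod' (h2.right (fun p : Z × Y => p.2))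

/-- Ulam quasi-homomorphism -/
def QH {G : Type u} {Q : Type v} [Group G] [Group Q] [BN Q] (r : G → Q) : Prop :=
  ∃ D : ℝ, ∀ g h, d (r (g * h)) (r g * r h) ≤ D

theorem QH.mul' {X : Type w} {G : Type u} {Q : Type v} [Group G] [Group Q] [BN Q] {r : G → Q}
    (hr : QH r) (f g : X → G) : Cl (fun x => r (f x * g x)) (fun x => r (f x) * r (g x)) := by
  obtain ⟨D, hD⟩ := hr
  exact ⟨D, fun x => hD _ _⟩

theorem QH.inv' {X : Type w} {G : Type u} {Q : Type v} [Group G] [Group Q] [BN Q] {r : G → Q}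
    (hr : QH r) (f : X → G) : Cl (fun x => r (f x)⁻¹) (fun x => (r (f x))⁻¹) := by
  obtain ⟨D, hD⟩ := hr
  refine ⟨2 * D, fun x => ?_⟩
  have h1 := hD 1 1
  have h2 := hD (f x) (f x)⁻¹
  rw [mul_one] at h1
  rw [mul_inv_cancel] at h2
  have h3 : d (r 1) (r 1 * r 1) = d 1 (r (1 : G)) := by
    have h := d_mul_left (r (1 : G)) 1 (r 1)
    rwa [mul_one] at h
  rw [h3] at h1
  have h4 : d (r (f x)⁻¹) (r (f x))⁻¹ = d (r (f x) * r (f x)⁻¹) 1 := by
    rw [← d_mul_left (r (f x)) (r (f x)⁻¹) (r (f x))⁻¹, mul_inv_cancel]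
  rw [h4, d_comm]
  have h5 := d_tri 1 (r 1) (r (f x) * r (f x)⁻¹)
  linarith

theorem absorb {G : Type u} {Q : Type v} {Z : Type w} [Group G] [BN G] [Group Q] [BN Q] [CS Z]
    (r : G → Q) (s : Q → G) (hr : CL r) (hs : CL s) (hq : QH r)
    (hrs : Cl (fun q => r (s q)) (fun q => q)) (h : QI (Q × Z) Q) : QI (G × Z) G := by
  obtain ⟨P, P', hP, hP', h1, h2⟩ := h
  refine ⟨fun p => s (P (r p.1, p.2)) * (s (r p.1))⁻¹ * p.1,
    fun g => (s (P' (r g)).1 * (s (r g))⁻¹ * g, (P' (r g)).2), ?_, ?_, ?_, ?_⟩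
  · exact ((hs.comp' (hP.comp' ((hr.comp' CL.fst').prod' CL.snd'))).mul'
      (hs.comp' (hr.comp' CL.fst')).inv').mul' CL.fst'
  · exact (((hs.comp' (CL.fst'.comp' (hP'.comp' hr))).mul' (hs.comp' hr).inv').mul'
      CL.id').prod' (CL.snd'.comp' (hP'.comp' hr))
  · -- first: r of the image is close to P (r g, z)
    set T : G × Z → G := fun p => s (P (r p.1, p.2)) * (s (r p.1))⁻¹ * p.1 with hT
    have k1 : Cl (fun p => r (T p)) (fun p => P (r p.1, p.2)) := by
      have a1 : Cl (fun p => r (T p))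
          (fun p => r (s (P (r p.1, p.2)) * (s (r p.1))⁻¹) * r p.1) :=
        hq.mul' (fun p : G × Z => s (P (r p.1, p.2)) * (s (r p.1))⁻¹) (fun p => p.1)
      have a2 : Cl (fun p : G × Z => r (s (P (r p.1, p.2)) * (s (r p.1))⁻¹) * r p.1)
          (fun p => (r (s (P (r p.1, p.2))) * r (s (r p.1))⁻¹) * r p.1) :=
        (hq.mul' (fun p : G × Z => s (P (r p.1, p.2))) (fun p => (s (r p.1))⁻¹)).mul'
          (Cl.refl' _)
      have a3 : Cl (fun p : G × Z => (r (s (P (r p.1, p.2))) * r (s (r p.1))⁻¹) * r p.1)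
          (fun p => (P (r p.1, p.2) * (r p.1)⁻¹) * r p.1) := by
        refine Cl.mul' (Cl.mul' (hrs.right (fun p : G × Z => P (r p.1, p.2))) ?_) (Cl.refl' _)
        exact (hq.inv' (fun p : G × Z => s (r p.1))).trans'
          (hrs.right (fun p : G × Z => r p.1)).inv'
      refine (a1.trans' (a2.trans' a3)).trans' (Cl.of_eq fun p => by group)
    have k2 : Cl (fun p => P' (r (T p))) (fun p => (r p.1, p.2)) :=
      (Cl.left hP' k1).trans' (h1.right (fun p : G × Z => (r p.1, p.2)))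
    have k3 : Cl (fun p => (P' (r (T p))).1) (fun p => r p.1) :=
      Cl.left (CL.fst' (X := Q) (Y := Z)) k2
    have k4 : Cl (fun p => (P' (r (T p))).2) (fun p => p.2) :=
      Cl.left (CL.snd' (X := Q) (Y := Z)) k2
    have k5 : Cl (fun p => s (P' (r (T p))).1 * (s (r (T p)))⁻¹ * T p)
        (fun p => s (r p.1) * (s (P (r p.1, p.2)))⁻¹ * T p) :=
      Cl.mul' (Cl.mul' (Cl.left hs k3) (Cl.left hs k1).inv') (Cl.refl' _)
    have k6 : ∀ p : G × Z, s (r p.1) * (s (P (r p.1, p.2)))⁻¹ * T p = p.1 := by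
      intro p
      simp only [hT]
      group
    exact (k5.trans' (Cl.of_eq k6)).prod' k4
  · set U : G → G := fun g => s (P' (r g)).1 * (s (r g))⁻¹ * g with hU
    have k1 : Cl (fun g => r (U g)) (fun g => (P' (r g)).1) := by
      have a1 : Cl (fun g => r (U g))
          (fun g => r (s (P' (r g)).1 * (s (r g))⁻¹) * r g) :=
        hq.mul' (fun g : G => s (P' (r g)).1 * (s (r g))⁻¹) (fun g => g)
      have a2 : Cl (fun g => r (s (P' (r g)).1 * (s (r g))⁻¹) * r g)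
          (fun g => (r (s (P' (r g)).1) * r (s (r g))⁻¹) * r g) :=
        (hq.mul' (fun g : G => s (P' (r g)).1) (fun g => (s (r g))⁻¹)).mul' (Cl.refl' _)
      have a3 : Cl (fun g => (r (s (P' (r g)).1) * r (s (r g))⁻¹) * r g)
          (fun g => ((P' (r g)).1 * (r g)⁻¹) * r g) := by
        refine Cl.mul' (Cl.mul' (hrs.right (fun g : G => (P' (r g)).1)) ?_) (Cl.refl' _)
        exact (hq.inv' (fun g : G => s (r g))).trans' (hrs.right (fun g : G => r g)).inv'
      refine (a1.trans' (a2.trans' a3)).trans' (Cl.of_eq fun p => by group)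
    have k2 : Cl (fun g => P (r (U g), (P' (r g)).2)) (fun g => r g) := by
      have b1 : Cl (fun g => P (r (U g), (P' (r g)).2)) (fun g => P (P' (r g))) :=
        Cl.left hP (k1.prod' (Cl.refl' (fun g : G => (P' (r g)).2)))
      exact b1.trans' (h2.right r)
    have k3 : Cl (fun g => s (P (r (U g), (P' (r g)).2)) * (s (r (U g)))⁻¹ * U g)
        (fun g => s (r g) * (s (P' (r g)).1)⁻¹ * U g) :=
      Cl.mul' (Cl.mul' (Cl.left hs k2) (Cl.left hs k1).inv') (Cl.refl' _)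
    have k4 : ∀ g : G, s (r g) * (s (P' (r g)).1)⁻¹ * U g = g := by
      intro g
      simp only [hU]
      group
    exact k3.trans' (Cl.of_eq k4)

end Pool.Agent.Helper350
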