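import Mathlib
import Pool.Agent.Helper350.Coarse

set_option autoImplicit false

namespace Pool.Agent.Helper350

universe u v w

variable {α : Type u}

/-- conjugates of the free generators and of their inverses -/
def IsGen (x : FreeGroup α) : Prop :=
  ∃ (i : α) (h : FreeGroup α), x = h * FreeGroup.of i * h⁻¹ ∨ x = h * (FreeGroup.of i)⁻¹ * h⁻¹

/-- the set whose infimum is the length -/
def lenSet (g : FreeGroup α) : Set ℕ :=
  {n : ℕ | ∃ l : List (FreeGroup α), l.length = n ∧ (∀ x ∈ l, IsGen x) ∧ l.prod = g}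

/-- word length with respect to all conjugates -/
noncomputable def len (g : FreeGroup α) : ℕ := sInf (lenSet g)

theorem IsGen.inv' {x : FreeGroup α} (h : IsGen x) : IsGen x⁻¹ := by
  obtain ⟨i, h, rfl | rfl⟩ := h
  · exact ⟨i, h, Or.inr (by group)⟩
  · exact ⟨i, h, Or.inl (by group)⟩

theorem IsGen.conj' {x : FreeGroup α} (h : IsGen x) (k : FreeGroup α) :
    IsGen (k * x * k⁻¹) := by
  obtain ⟨i, h, rfl | rfl⟩ := h
  · exact ⟨i, k * h, Or.inl (by group)⟩
  · exact ⟨i, k * h, Or.inr (by group)⟩

theorem isGen_of (i : α) : IsGen (FreeGroup.of i) := ⟨i, 1, Or.inl (by group)⟩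

theorem lenSet_nonempty (g : FreeGroup α) : (lenSet g).Nonempty := by
  induction g using FreeGroup.induction_on with
  | C1 => exact ⟨0, [], rfl, by simp, rfl⟩
  | of i => exact ⟨1, [FreeGroup.of i], rfl, by simp [isGen_of], by simp⟩
  | inv_of i _ => exact ⟨1, [(FreeGroup.of i)⁻¹], rfl, by
      intro x hx
      rw [List.mem_singleton] at hx
      rw [hx]
      exact (isGen_of i).inv', by simp⟩
  | mul x y hx hy =>
    obtain ⟨n, l, h1, h2, h3⟩ := hx
    obtain ⟨n', l', h1', h2', h3'⟩ := hy
    refine ⟨n + n', l ++ l', by simp [h1, h1'], ?_, by simp [h3, h3']⟩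
    intro x hx
    rcases List.mem_append.1 hx with h | h
    · exact h2 x h
    · exact h2' x h

theorem len_spec (g : FreeGroup α) : ∃ l : List (FreeGroup α), l.length = len g ∧
    (∀ x ∈ l, IsGen x) ∧ l.prod = g := Nat.sInf_mem (lenSet_nonempty g)

theorem len_le {g : FreeGroup α} {l : List (FreeGroup α)} (h : ∀ x ∈ l, IsGen x)
    (hp : l.prod = g) : len g ≤ l.length := Nat.sInf_le ⟨l, rfl, h, hp⟩

theorem len_one : len (1 : FreeGroup α) = 0 := by
  have := len_le (g := (1 : FreeGroup α)) (l := []) (by simp) rfl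
  simpa using this

theorem len_gen {g : FreeGroup α} (h : IsGen g) : len g ≤ 1 := by
  have := len_le (g := g) (l := [g]) (by simpa using h) (by simp)
  simpa using this

theorem len_mul (g h : FreeGroup α) : len (g * h) ≤ len g + len h := by
  obtain ⟨l, h1, h2, h3⟩ := len_spec g
  obtain ⟨l', h1', h2', h3'⟩ := len_spec h
  have := len_le (g := g * h) (l := l ++ l') (by
    intro x hx
    rcases List.mem_append.1 hx with h | h
    · exact h2 x h
    · exact h2' x h) (by simp [h3, h3'])
  simpa [h1, h1'] using this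

theorem len_inv_le (g : FreeGroup α) : len g⁻¹ ≤ len g := by
  obtain ⟨l, h1, h2, h3⟩ := len_spec g
  have := len_le (g := g⁻¹) (l := (l.map (fun x => x⁻¹)).reverse) (by
    intro x hx
    rw [List.mem_reverse, List.mem_map] at hx
    obtain ⟨y, hy, rfl⟩ := hx
    exact (h2 y hy).inv') (by rw [← h3, List.prod_inv_reverse])
  simpa [h1] using this

theorem len_inv (g : FreeGroup α) : len g⁻¹ = len g := by
  apply le_antisymm (len_inv_le g)
  have := len_inv_le g⁻¹
  rwa [inv_inv] at this

theorem len_conj_le (g h : FreeGroup α) : len (h * g * h⁻¹) ≤ len g := by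
  obtain ⟨l, h1, h2, h3⟩ := len_spec g
  have := len_le (g := h * g * h⁻¹) (l := l.map (fun x => h * x * h⁻¹)) (by
    intro x hx
    rw [List.mem_map] at hx
    obtain ⟨y, hy, rfl⟩ := hx
    exact (h2 y hy).conj' h) (by
      rw [← h3]
      clear h1 h2 h3
      induction l with
      | nil => simp
      | cons a l ih => rw [List.map_cons, List.prod_cons, ih, List.prod_cons]; group)
  simpa [h1] using this

theorem len_conj (g h : FreeGroup α) : len (h * g * h⁻¹) = len g := by
  apply le_antisymm (len_conj_le g h)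
  have := len_conj_le (h * g * h⁻¹) h⁻¹
  have e : h⁻¹ * (h * g * h⁻¹) * h⁻¹⁻¹ = g := by group
  rwa [e] at this

noncomputable instance instFree : BN (FreeGroup α) where
  nm g := (len g : ℝ)
  nm_one := by simp [len_one]
  nm_inv g := by rw [len_inv]
  nm_mul g h := by exact_mod_cast len_mul g h
  nm_conj g h := by rw [len_conj]

theorem nm_def (g : FreeGroup α) : nm g = (len g : ℝ) := rfl

theorem nm_of_le (i : α) : nm (FreeGroup.of i) ≤ 1 := by
  rw [nm_def]; exact_mod_cast len_gen (isGen_of i)

theorem nm_gen_le {x : FreeGroup α} (h : IsGen x) : nm x ≤ 1 := by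
  rw [nm_def]; exact_mod_cast len_gen h

/-- a subadditive function bounded by `M` on the generators is bounded by `M * len`. -/
theorem le_of_gen {F : FreeGroup α → ℝ} {M : ℝ} (h1 : F 1 ≤ 0)
    (hm : ∀ g h, F (g * h) ≤ F g + F h)
    (hg : ∀ x, IsGen x → F x ≤ M) (g : FreeGroup α) : F g ≤ M * nm g := by
  obtain ⟨l, e1, e2, e3⟩ := len_spec g
  rw [nm_def, ← e1, ← e3]
  clear e1 e3
  induction l with
  | nil => simpa using h1
  | cons a l ih =>
    rw [List.prod_cons, List.length_cons]
    have h3 := hm a l.prod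
    have h4 := hg a (e2 a (by simp))
    have h5 := ih (fun x hx => e2 x (by simp [hx]))
    push_cast
    linarith

/-- homomorphisms out of a free group, bounded on the basis, are Lipschitz -/
theorem hom_lip {G : Type v} [Group G] [BN G] (F : FreeGroup α →* G) {M : ℝ}
    (hM : ∀ i, nm (F (FreeGroup.of i)) ≤ M) (g : FreeGroup α) : nm (F g) ≤ M * nm g := by
  refine le_of_gen (F := fun g => nm (F g)) (by simp [nm_one]) (fun g h => ?_) ?_ g
  · simp only [map_mul]; exact nm_mul _ _
  · rintro x ⟨i, h, rfl | rfl⟩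
    · simp only [map_mul, map_inv]
      rw [nm_conj]; exact hM i
    · simp only [map_mul, map_inv]
      rw [nm_conj, nm_inv]; exact hM i

theorem hom_CL {G : Type v} [Group G] [BN G] (F : FreeGroup α →* G) {M : ℝ} (h0 : 0 ≤ M)
    (hM : ∀ i, nm (F (FreeGroup.of i)) ≤ M) : CL (fun g => F g) := by
  refine ⟨M, 0, h0, le_rfl, fun x x' => ?_⟩
  simp only [d_def, ← map_inv, ← map_mul]
  have := hom_lip F hM (x⁻¹ * x')
  linarith

/-- quasi-homomorphisms out of a free group, bounded on the basis, are coarsely Lipschitz -/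
theorem QH.CL' {G : Type v} [Group G] [BN G] {r : FreeGroup α → G} (hr : QH r) {M : ℝ}
    (hM : ∀ i, nm (r (FreeGroup.of i)) ≤ M) : CL r := by
  obtain ⟨E, hE⟩ := hr.inv' (fun g : FreeGroup α => g)
  obtain ⟨D, hD⟩ := hr
  have hD0 : 0 ≤ D := (d_nonneg _ _).trans (hD 1 1)
  have hE0 : 0 ≤ E := (d_nonneg _ _).trans (hE 1)
  have nm_close : ∀ x y : G, nm x ≤ nm y + d x y := by
    intro x y
    rw [nm_eq, nm_eq, d_comm x y]
    exact d_tri 1 y x
  have h1 : nm (r 1) ≤ D := by
    have h := hD 1 1
    have h' := d_mul_left (r (1 : FreeGroup α)) 1 (r 1)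
    rw [mul_one] at h h'
    rw [h'] at h
    rw [nm_eq]; exact h
  have hinv : ∀ i, nm (r (FreeGroup.of i)⁻¹) ≤ M + E := by
    intro i
    have h2 := nm_close (r (FreeGroup.of i)⁻¹) (r (FreeGroup.of i))⁻¹
    rw [nm_inv] at h2
    have h3 := hE (FreeGroup.of i)
    have h4 := hM i
    simp only at h3
    linarith
  have hconj : ∀ x h : FreeGroup α, nm (r (h * x * h⁻¹)) ≤ nm (r x) + (2 * D + E) := by
    intro x h
    have h2 := nm_close (r (h * x * h⁻¹)) (r h * r x * (r h)⁻¹)
    rw [nm_conj] at h2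
    have h3 := hD (h * x) h⁻¹
    have h4 := hD h x
    have h5 := d_mul (r (h * x)) (r h⁻¹) (r h * r x) (r h)⁻¹
    have h6 := hE h
    simp only at h6
    have h7 := d_tri (r (h * x * h⁻¹)) (r (h * x) * r h⁻¹) (r h * r x * (r h)⁻¹)
    linarith
  have hgen : ∀ x, IsGen x → nm (r x) ≤ (M + E) + (2 * D + E) := by
    rintro x ⟨i, h, rfl | rfl⟩
    · have h2 := hconj (FreeGroup.of i) h
      have h3 := hM i
      linarith
    · have h2 := hconj (FreeGroup.of i)⁻¹ h
      have h3 := hinv i
      linarith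
  have hstep : ∀ x, IsGen x → ∀ h, d (r h) (r (h * x)) ≤ (M + E) + (2 * D + E) + D := by
    intro x hx h
    have h2 := hD h x
    rw [d_comm] at h2
    have h3 := d_mul_left (r h) 1 (r x)
    rw [mul_one, ← nm_eq] at h3
    have h4 := hgen x hx
    have h5 := d_tri (r h) (r h * r x) (r (h * x))
    linarith
  have key : ∀ (l : List (FreeGroup α)), (∀ x ∈ l, IsGen x) → ∀ h,
      d (r h) (r (h * l.prod)) ≤ ((M + E) + (2 * D + E) + D) * l.length := by
    intro l
    induction l with
    | nil => intro _ h; simp [d_self]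
    | cons a l ih =>
      intro hl h
      have h2 := hstep a (hl a (by simp)) h
      have h3 := ih (fun x hx => hl x (by simp [hx])) (h * a)
      have h4 := d_tri (r h) (r (h * a)) (r (h * a * l.prod))
      rw [List.prod_cons, List.length_cons, ← mul_assoc]
      push_cast
      linarith
  by_cases hne : Nonempty α
  · obtain ⟨i0⟩ := hne
    have hM0 : 0 ≤ M := (nm_nonneg _).trans (hM i0)
    refine ⟨(M + E) + (2 * D + E) + D, 0, by positivity, le_rfl, fun x x' => ?_⟩
    obtain ⟨l, e1, e2, e3⟩ := len_spec (x⁻¹ * x')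
    have h2 := key l e2 x
    rw [e3, e1] at h2
    have e4 : x * (x⁻¹ * x') = x' := by group
    rw [e4] at h2
    rw [d_def x x', nm_def]
    linarith
  · rw [not_nonempty_iff] at hne
    refine ⟨0, 0, le_rfl, le_rfl, fun x x' => ?_⟩
    have e : x = x' := Subsingleton.elim _ _
    rw [e, d_self, d_self]; simp

end Pool.Agent.Helper350
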