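import Mathlib
import Pool.Agent.Helper350.FreeNorm

set_option autoImplicit false

namespace Pool.Agent.Helper350

universe u v w

section cancel

variable {α : Type u} [DecidableEq α]

theorem isReduced_head {α : Type u} {x : α × Bool} {L : List (α × Bool)}
    (h : FreeGroup.IsReduced L)
    (hx : ∀ y ∈ L.head?, x.1 = y.1 → x.2 = y.2) : FreeGroup.IsReduced (x :: L) :=
  List.isChain_cons.2 ⟨hx, h⟩

/-- free cancellation between two reduced words -/
theorem cancel (L1 : List (α × Bool)) : ∀ L2 : List (α × Bool), FreeGroup.IsReduced L1 →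
    FreeGroup.IsReduced L2 → ∃ U C V : List (α × Bool), L1 = U ++ C ∧
      L2 = FreeGroup.invRev C ++ V ∧ FreeGroup.reduce (L1 ++ L2) = U ++ V := by
  induction L1 using List.reverseRecOn with
  | nil =>
    intro L2 _ h2
    exact ⟨[], [], L2, rfl, by simp, by simpa using h2.reduce_eq⟩
  | append_singleton L1 x ih =>
    intro L2 h1 h2
    have h1' : FreeGroup.IsReduced L1 := (List.isChain_append.1 h1).1
    cases L2 with
    | nil => exact ⟨L1 ++ [x], [], [], by simp, by simp, by simpa using h1.reduce_eq⟩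
    | cons y L2 =>
      have h2' : FreeGroup.IsReduced L2 := (List.isChain_cons.1 h2).2
      by_cases hxy : x.1 = y.1 → x.2 = y.2
      · refine ⟨L1 ++ [x], [], y :: L2, by simp, by simp, ?_⟩
        apply FreeGroup.IsReduced.reduce_eq
        refine List.isChain_append.2 ⟨h1, h2, ?_⟩
        intro a ha b hb
        rw [List.getLast?_append] at ha
        simp at ha hb
        subst ha; subst hb
        exact hxy
      · push Not at hxy
        obtain ⟨hxy1, hxy2⟩ := hxy
        obtain ⟨U, C, V, e1, e2, e3⟩ := ih L2 h1' h2'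
        refine ⟨U, C ++ [x], V, by rw [e1, List.append_assoc], ?_, ?_⟩
        · rw [FreeGroup.invRev_append, List.append_assoc, ← e2]
          have : y = (x.1, !x.2) := by
            ext
            · exact hxy1.symm
            · have : y.2 = !x.2 := by
                cases hx : x.2 <;> cases hy : y.2 <;> simp_all
              exact this
          rw [this]
          simp [FreeGroup.invRev]
        · rw [← e3]
          apply FreeGroup.reduce.eq_of_red
          have e5 : y = (x.1, !x.2) := by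
            ext
            · exact hxy1.symm
            · have : y.2 = !x.2 := by
                cases hx : x.2 <;> cases hy : y.2 <;> simp_all
              exact this
          rw [e5, List.append_assoc]
          obtain ⟨x1, x2⟩ := x
          exact Relation.ReflTransGen.single FreeGroup.Red.Step.not

end cancel

/-- sign of a letter -/
def sg (e : Bool) : ℤ := if e then 1 else -1

theorem sg_not (e : Bool) : sg (!e) = - sg e := by cases e <;> simp [sg]

section rolli

variable {H : Type u} [Group H] (φ : ℤ → H)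

/-- scan a word, multiply the values of `φ` on the exponents of the maximal `a`-runs,
with `m` added at the beginning and `n` at the end. -/
def R2 : ℤ → List (Fin 2 × Bool) → ℤ → H
  | m, [], n => φ (m + n)
  | m, (x :: L), n => if x.1 = 0 then R2 (m + sg x.2) L n else φ m * R2 0 L n

theorem R2_nil (m n : ℤ) : R2 φ m [] n = φ (m + n) := rfl

theorem R2_a {m n : ℤ} {x : Fin 2 × Bool} {L : List (Fin 2 × Bool)} (hx : x.1 = 0) :
    R2 φ m (x :: L) n = R2 φ (m + sg x.2) L n := by
  rw [R2, if_pos hx]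

theorem R2_b {m n : ℤ} {x : Fin 2 × Bool} {L : List (Fin 2 × Bool)} (hx : x.1 ≠ 0) :
    R2 φ m (x :: L) n = φ m * R2 φ 0 L n := by
  rw [R2, if_neg hx]

theorem R2_append_a {n : ℤ} {x : Fin 2 × Bool} (L : List (Fin 2 × Bool)) (hx : x.1 = 0) :
    ∀ m, R2 φ m (L ++ [x]) n = R2 φ m L (n + sg x.2) := by
  induction L with
  | nil => intro m; rw [List.nil_append, R2_a φ hx, R2_nil, R2_nil]; congr 1; ring
  | cons y L ih =>
    intro m
    rw [List.cons_append]
    by_cases hy : y.1 = 0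
    · rw [R2_a φ hy, R2_a φ hy, ih]
    · rw [R2_b φ hy, R2_b φ hy, ih]

theorem R2_append_b {n : ℤ} {x : Fin 2 × Bool} (L : List (Fin 2 × Bool)) (hx : x.1 ≠ 0) :
    ∀ m, R2 φ m (L ++ [x]) n = R2 φ m L 0 * φ n := by
  induction L with
  | nil =>
    intro m
    rw [List.nil_append, R2_b φ hx, R2_nil, R2_nil, add_zero, zero_add]
  | cons y L ih =>
    intro m
    rw [List.cons_append]
    by_cases hy : y.1 = 0
    · rw [R2_a φ hy, R2_a φ hy, ih]
    · rw [R2_b φ hy, R2_b φ hy, ih, mul_assoc]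

theorem R2_inv (hφ : ∀ n, φ (-n) = (φ n)⁻¹) (L : List (Fin 2 × Bool)) : ∀ m n,
    R2 φ (-n) (FreeGroup.invRev L) (-m) = (R2 φ m L n)⁻¹ := by
  induction L with
  | nil =>
    intro m n
    rw [FreeGroup.invRev_empty, R2_nil, R2_nil, ← hφ]
    congr 1; ring
  | cons y L ih =>
    intro m n
    have e : FreeGroup.invRev (y :: L) = FreeGroup.invRev L ++ [(y.1, !y.2)] := by
      simp [FreeGroup.invRev]
    rw [e]
    by_cases hy : y.1 = 0
    · rw [R2_a φ hy, R2_append_a φ _ (by exact hy), ← ih]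
      congr 1
      simp only [sg_not]
      ring
    · rw [R2_b φ hy, R2_append_b φ _ (by exact hy), mul_inv_rev, ← ih, hφ, neg_zero]

variable [BN H]

theorem R2_close1 (hb : ∀ n, nm (φ n) ≤ 1) (V : List (Fin 2 × Bool)) : ∀ m m' n,
    d (R2 φ m V n) (R2 φ m' V n) ≤ 2 := by
  have key : ∀ m m', d (φ m) (φ m') ≤ 2 := by
    intro m m'
    have h := d_tri (φ m) 1 (φ m')
    rw [← nm_eq (φ m'), d_comm (φ m) 1, ← nm_eq] at h
    have := hb m
    have := hb m'
    linarith
  induction V with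
  | nil => intro m m' n; exact key _ _
  | cons y L ih =>
    intro m m' n
    by_cases hy : y.1 = 0
    · rw [R2_a φ hy, R2_a φ hy]; exact ih _ _ _
    · rw [R2_b φ hy, R2_b φ hy, d_mul_right]; exact key _ _

theorem R2_close2 (hb : ∀ n, nm (φ n) ≤ 1) (V : List (Fin 2 × Bool)) (n : ℤ)
    (U : List (Fin 2 × Bool)) : ∀ m,
    d (R2 φ m (U ++ V) n) (R2 φ m U 0 * R2 φ 0 V n) ≤ 3 := by
  induction U with
  | nil =>
    intro m
    rw [List.nil_append, R2_nil, add_zero]
    have h1 := R2_close1 φ hb V m 0 n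
    have h2 := d_tri (R2 φ m V n) (R2 φ 0 V n) (φ m * R2 φ 0 V n)
    have h3 := d_mul_right (R2 φ 0 V n) 1 (φ m)
    rw [one_mul, ← nm_eq] at h3
    have := hb m
    linarith
  | cons y L ih =>
    intro m
    rw [List.cons_append]
    by_cases hy : y.1 = 0
    · rw [R2_a φ hy, R2_a φ hy]; exact ih _
    · rw [R2_b φ hy, R2_b φ hy, mul_assoc, d_mul_left]; exact ih _

/-- the Rolli map -/
def rolli (g : FreeGroup (Fin 2)) : H := R2 φ 0 g.toWord 0

theorem rolli_QH (hφ : ∀ n, φ (-n) = (φ n)⁻¹) (hb : ∀ n, nm (φ n) ≤ 1) :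
    QH (rolli φ) := by
  refine ⟨9, fun g h => ?_⟩
  obtain ⟨U, C, V, e1, e2, e3⟩ := cancel g.toWord h.toWord FreeGroup.isReduced_toWord
    FreeGroup.isReduced_toWord
  unfold rolli
  rw [FreeGroup.toWord_mul, e3, e2, e1]
  have h1 := R2_close2 φ hb V 0 U 0
  have h2 := R2_close2 φ hb C 0 U 0
  have h3 := R2_close2 φ hb V 0 (FreeGroup.invRev C) 0
  have h4 := R2_inv φ hφ C 0 0
  rw [neg_zero] at h4
  rw [h4] at h3
  have h5 := d_mul (R2 φ 0 (U ++ C) 0) (R2 φ 0 (FreeGroup.invRev C ++ V) 0)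
    (R2 φ 0 U 0 * R2 φ 0 C 0) ((R2 φ 0 C 0)⁻¹ * R2 φ 0 V 0)
  have h6 : R2 φ 0 U 0 * R2 φ 0 C 0 * ((R2 φ 0 C 0)⁻¹ * R2 φ 0 V 0) =
      R2 φ 0 U 0 * R2 φ 0 V 0 := by group
  rw [h6, d_comm] at h5
  have h7 := d_tri (R2 φ 0 (U ++ V) 0) (R2 φ 0 U 0 * R2 φ 0 V 0)
    (R2 φ 0 (U ++ C) 0 * R2 φ 0 (FreeGroup.invRev C ++ V) 0)
  linarith

end rolli

/-- the run `a^n` -/
def Aw (n : ℤ) : List (Fin 2 × Bool) := List.replicate n.natAbs (0, decide (0 ≤ n))

theorem R2_rep {H : Type u} [Group H] (φ : ℤ → H) (e : Bool) (L : List (Fin 2 × Bool)) (n : ℤ)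
    (k : ℕ) : ∀ m, R2 φ m (List.replicate k (0, e) ++ L) n = R2 φ (m + k * sg e) L n := by
  induction k with
  | zero => intro m; simp
  | succ k ih =>
    intro m
    rw [List.replicate_succ, List.cons_append, R2_a φ rfl, ih]
    congr 1
    push_cast
    ring

theorem R2_Aw {H : Type u} [Group H] (φ : ℤ → H) (L : List (Fin 2 × Bool)) (n k : ℤ) (m : ℤ) :
    R2 φ m (Aw k ++ L) n = R2 φ (m + k) L n := by
  rw [Aw, R2_rep]
  congr 1
  by_cases h : 0 ≤ k
  · simp [h, sg, abs_of_nonneg h]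
  · push Not at h
    have h' : ¬ (0 ≤ k) := by omega
    simp [h', sg, abs_of_neg h]

theorem mk_rep (k : ℕ) (e : Bool) :
    FreeGroup.mk (List.replicate k ((0 : Fin 2), e)) = (FreeGroup.of (0 : Fin 2)) ^ ((k : ℤ) * sg e) := by
  induction k with
  | zero => simp [← FreeGroup.one_eq_mk]
  | succ k ih =>
    have : List.replicate (k + 1) ((0 : Fin 2), e) = [((0 : Fin 2), e)] ++ List.replicate k (0, e) :=
      rfl
    rw [this, ← FreeGroup.mul_mk, ih]
    cases e
    · have h2 : FreeGroup.mk [((0 : Fin 2), false)] = (FreeGroup.of 0)⁻¹ := rfl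
      rw [h2, ← zpow_neg_one, ← zpow_add]
      congr 1
      simp only [sg]
      push_cast
      simp
    · have h2 : FreeGroup.mk [((0 : Fin 2), true)] = (FreeGroup.of 0) := rfl
      rw [h2]
      conv_lhs => rw [← zpow_one (FreeGroup.of (0 : Fin 2)), ← zpow_mul, ← zpow_add]
      congr 1
      simp only [sg]
      push_cast
      simp
      ring

theorem mk_Aw (k : ℤ) : FreeGroup.mk (Aw k) = (FreeGroup.of (0 : Fin 2)) ^ k := by
  rw [Aw, mk_rep]
  congr 1
  by_cases h : 0 ≤ k
  · simp [h, sg, abs_of_nonneg h]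
  · push Not at h
    have h' : ¬ (0 ≤ k) := by omega
    simp [h', sg, abs_of_neg h]

theorem red_rep {α : Type u} (x : α × Bool) (M : List (α × Bool)) (hM : FreeGroup.IsReduced M)
    (hx : ∀ y ∈ M.head?, x.1 = y.1 → x.2 = y.2) (k : ℕ) :
    FreeGroup.IsReduced (List.replicate k x ++ M) := by
  induction k with
  | zero => simpa using hM
  | succ k ih =>
    rw [List.replicate_succ, List.cons_append]
    refine isReduced_head ih ?_
    cases k with
    | zero => simpa using hx
    | succ k =>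
      intro y hy
      rw [List.replicate_succ, List.cons_append, List.head?_cons] at hy
      simp at hy
      subst hy
      intro _; rfl

theorem red_Aw_nil (k : ℤ) : FreeGroup.IsReduced (Aw k) := by
  have := red_rep (α := Fin 2) (0, decide (0 ≤ k)) [] FreeGroup.IsReduced.nil (by simp) k.natAbs
  simpa [Aw] using this

theorem red_Aw (k : ℤ) (M : List (Fin 2 × Bool)) (e : Bool)
    (hM : FreeGroup.IsReduced ((1, e) :: M)) :
    FreeGroup.IsReduced (Aw k ++ (1, e) :: M) := by
  refine red_rep _ _ hM ?_ _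
  intro y hy
  simp at hy
  subst hy
  intro h
  exact absurd h (by simp)

theorem head_Aw {k : ℤ} (hk : k ≠ 0) (M : List (Fin 2 × Bool)) :
    ∀ y ∈ (Aw k ++ M).head?, y.1 = 0 := by
  intro y hy
  obtain ⟨j, hj⟩ : ∃ j, k.natAbs = j + 1 := ⟨k.natAbs - 1, by omega⟩
  rw [Aw, hj, List.replicate_succ, List.cons_append, List.head?_cons] at hy
  simp at hy
  subst hy
  rfl

/-- the reduced word of `a^m * f(g)` -/
def Pw : ℤ → List (ℕ × Bool) → List (Fin 2 × Bool)
  | m, [] => Aw m
  | m, (x :: L) => Aw (m - 2 * sg x.2 * (x.1 + 1)) ++ (1, x.2) ::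
      (Aw (sg x.2 * (4 * (x.1 + 1) + 1)) ++ (1, x.2) :: Pw (-(2 * sg x.2 * (x.1 + 1))) L)

theorem Pw_cons (m : ℤ) (x : ℕ × Bool) (L : List (ℕ × Bool)) :
    Pw m (x :: L) = Aw (m - 2 * sg x.2 * (x.1 + 1)) ++ (1, x.2) ::
      (Aw (sg x.2 * (4 * (x.1 + 1) + 1)) ++ (1, x.2) :: Pw (-(2 * sg x.2 * (x.1 + 1))) L) := rfl

theorem sg_cases (e : Bool) : sg e = 1 ∨ sg e = -1 := by cases e <;> simp [sg]

theorem red_Pw (L : List (ℕ × Bool)) : ∀ m : ℤ, FreeGroup.IsReduced L →
    FreeGroup.IsReduced (Pw m L) ∧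
      ((L = [] → m ≠ 0) → (∀ x ∈ L.head?, m - 2 * sg x.2 * (x.1 + 1) ≠ 0) →
        ∀ y ∈ (Pw m L).head?, y.1 = 0) := by
  induction L with
  | nil =>
    intro m _
    refine ⟨red_Aw_nil m, fun h1 _ => ?_⟩
    have := head_Aw (h1 rfl) []
    simpa [Pw] using this
  | cons x L ih =>
    intro m hL
    have hL' := List.isChain_cons.1 hL
    obtain ⟨i1, i2⟩ := ih (-(2 * sg x.2 * (x.1 + 1))) hL'.2
    have i3 : ∀ y ∈ (Pw (-(2 * sg x.2 * (x.1 + 1))) L).head?, y.1 = 0 := by
      apply i2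
      · intro _
        rcases sg_cases x.2 with h | h <;> rw [h] <;> push_cast <;> omega
      · intro y hy
        have h3 := hL'.1 y hy
        rcases sg_cases x.2 with h | h <;> rcases sg_cases y.2 with h' | h' <;> rw [h, h']
        · omega
        · by_cases hxy : x.1 = y.1
          · have := h3 hxy
            rw [this, h'] at h
            omega
          · push_cast; omega
        · by_cases hxy : x.1 = y.1
          · have := h3 hxy
            rw [this, h'] at h
            omega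
          · push_cast; omega
        · omega
    have hA : FreeGroup.IsReduced ((1, x.2) :: Pw (-(2 * sg x.2 * (x.1 + 1))) L) := by
      refine isReduced_head i1 ?_
      intro y hy h
      have := i3 y hy
      rw [this] at h
      exact absurd h (by simp)
    have hk : sg x.2 * (4 * ((x.1 : ℤ) + 1) + 1) ≠ 0 := by
      rcases sg_cases x.2 with h | h <;> rw [h] <;> omega
    have hB := red_Aw (sg x.2 * (4 * (x.1 + 1) + 1)) _ _ hA
    have hC : FreeGroup.IsReduced ((1, x.2) :: (Aw (sg x.2 * (4 * (x.1 + 1) + 1)) ++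
        (1, x.2) :: Pw (-(2 * sg x.2 * (x.1 + 1))) L)) := by
      refine isReduced_head hB ?_
      intro y hy h
      have := head_Aw hk _ y hy
      rw [this] at h
      exact absurd h (by simp)
    refine ⟨red_Aw _ _ _ hC, fun _ h2 => ?_⟩
    have h4 := h2 x (by simp)
    rw [Pw_cons]
    exact head_Aw h4 _

/-- the words `w_i = a^{-2(i+1)} b a^{4(i+1)+1} b a^{-2(i+1)}` -/
def wd (i : ℕ) : FreeGroup (Fin 2) :=
  (FreeGroup.of 0) ^ (-(2 * ((i : ℤ) + 1))) * FreeGroup.of 1 *
    (FreeGroup.of 0) ^ (4 * ((i : ℤ) + 1) + 1) * FreeGroup.of 1 *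
    (FreeGroup.of 0) ^ (-(2 * ((i : ℤ) + 1)))

/-- the embedding of the free group of infinite rank -/
def ff : FreeGroup ℕ →* FreeGroup (Fin 2) := FreeGroup.lift wd

theorem mk_cons {α : Type u} (x : α × Bool) (L : List (α × Bool)) :
    FreeGroup.mk (x :: L) = (if x.2 then FreeGroup.of x.1 else (FreeGroup.of x.1)⁻¹) *
      FreeGroup.mk L := by
  obtain ⟨x1, x2⟩ := x
  have : (x1, x2) :: L = [(x1, x2)] ++ L := rfl
  rw [this, ← FreeGroup.mul_mk]
  cases x2 <;> rfl

theorem mk_Pw (L : List (ℕ × Bool)) : ∀ m : ℤ,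
    FreeGroup.mk (Pw m L) = (FreeGroup.of (0 : Fin 2)) ^ m * ff (FreeGroup.mk L) := by
  induction L with
  | nil =>
    intro m
    rw [← FreeGroup.one_eq_mk, map_one, mul_one]
    exact mk_Aw m
  | cons x L ih =>
    intro m
    rw [Pw_cons, ← FreeGroup.mul_mk, mk_cons, ← FreeGroup.mul_mk, mk_cons, mk_Aw, mk_Aw, ih,
      mk_cons, map_mul]
    simp only [← mul_assoc]
    congr 1
    obtain ⟨i, e⟩ := x
    cases e
    · simp only [sg, Bool.false_eq_true, if_false, map_inv]
      rw [ff, FreeGroup.lift_apply_of, wd]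
      group
    · simp only [sg, if_true]
      rw [ff, FreeGroup.lift_apply_of, wd]
      group

/-- the values on runs -/
def phi (n : ℤ) : FreeGroup ℕ :=
  if n % 2 = 0 then 1 else if 0 < n then FreeGroup.of (n.natAbs / 4 - 1)
    else (FreeGroup.of (n.natAbs / 4 - 1))⁻¹

theorem phi_neg (n : ℤ) : phi (-n) = (phi n)⁻¹ := by
  unfold phi
  by_cases h : n % 2 = 0
  · rw [if_pos h, if_pos (by omega), inv_one]
  · rw [if_neg h, if_neg (by omega), Int.natAbs_neg]
    by_cases h2 : 0 < n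
    · rw [if_pos h2, if_neg (by omega)]
    · rw [if_neg h2, if_pos (by omega), inv_inv]

theorem phi_nm (n : ℤ) : nm (phi n) ≤ 1 := by
  unfold phi
  split_ifs
  · rw [nm_one]; exact zero_le_one
  · exact nm_of_le _
  · rw [nm_inv]; exact nm_of_le _

theorem phi_even {n : ℤ} (h : n % 2 = 0) : phi n = 1 := if_pos h

theorem R2_Pw (L : List (ℕ × Bool)) : ∀ m : ℤ, m % 2 = 0 →
    R2 phi 0 (Pw m L) 0 = FreeGroup.mk L := by
  induction L with
  | nil =>
    intro m hm
    have := R2_Aw phi [] 0 m 0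
    rw [List.append_nil] at this
    rw [Pw, this, R2_nil, phi_even (by omega), ← FreeGroup.one_eq_mk]
  | cons x L ih =>
    intro m hm
    rw [Pw_cons, R2_Aw, R2_b _ (by simp), R2_Aw, R2_b _ (by simp), zero_add, zero_add]
    obtain ⟨i, e⟩ := x
    rw [mk_cons]
    cases e
    · simp only [sg, Bool.false_eq_true, if_false]
      rw [phi_even (by omega), one_mul, ih _ (by omega)]
      congr 1
      unfold phi
      rw [if_neg (by omega), if_neg (by omega)]
      congr 2
      omega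
    · simp only [sg, if_true]
      rw [phi_even (by omega), one_mul, ih _ (by omega)]
      congr 1
      unfold phi
      rw [if_neg (by omega), if_pos (by omega)]
      congr 1
      omega

theorem rolli_ff (g : FreeGroup ℕ) : rolli phi (ff g) = g := by
  have h1 := mk_Pw g.toWord 0
  rw [FreeGroup.mk_toWord, zpow_zero, one_mul] at h1
  have h2 := (red_Pw g.toWord 0 FreeGroup.isReduced_toWord).1
  unfold rolli
  rw [← h1, FreeGroup.toWord_mk, h2.reduce_eq, R2_Pw _ _ (by norm_num), FreeGroup.mk_toWord]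

theorem ff_CL : CL (fun g => ff g) := by
  refine hom_CL ff (M := 3) (by norm_num) (fun i => ?_)
  rw [ff, FreeGroup.lift_apply_of]
  have e : wd i = ((FreeGroup.of 0) ^ (-(2 * ((i : ℤ) + 1))) * FreeGroup.of 1 *
      ((FreeGroup.of 0) ^ (-(2 * ((i : ℤ) + 1))))⁻¹) * FreeGroup.of 0 *
      (((FreeGroup.of 0) ^ (2 * ((i : ℤ) + 1))) * FreeGroup.of 1 *
      ((FreeGroup.of 0) ^ (2 * ((i : ℤ) + 1)))⁻¹) := by
    unfold wd
    group
  rw [e]
  have h1 := nm_mul (((FreeGroup.of (0 : Fin 2)) ^ (-(2 * ((i : ℤ) + 1))) * FreeGroup.of 1 *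
      ((FreeGroup.of 0) ^ (-(2 * ((i : ℤ) + 1))))⁻¹) * FreeGroup.of 0)
      (((FreeGroup.of 0) ^ (2 * ((i : ℤ) + 1))) * FreeGroup.of 1 *
      ((FreeGroup.of 0) ^ (2 * ((i : ℤ) + 1)))⁻¹)
  have h2 := nm_mul ((FreeGroup.of (0 : Fin 2)) ^ (-(2 * ((i : ℤ) + 1))) * FreeGroup.of 1 *
      ((FreeGroup.of 0) ^ (-(2 * ((i : ℤ) + 1))))⁻¹) (FreeGroup.of 0)
  rw [nm_conj] at h1 h2
  have h3 := nm_of_le (0 : Fin 2)
  have h4 := nm_of_le (1 : Fin 2)
  linarith

theorem rolli_phi_QH : QH (rolli phi) := rolli_QH phi phi_neg phi_nm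

theorem rolli_phi_CL : CL (rolli phi) := by
  refine rolli_phi_QH.CL' (M := 2) (fun i => ?_)
  unfold rolli
  rw [FreeGroup.toWord_of]
  by_cases hi : (i, true).1 = 0
  · rw [R2_a _ hi, R2_nil]
    exact (phi_nm _).trans one_le_two
  · rw [R2_b _ hi, R2_nil]
    refine (nm_mul _ _).trans ?_
    have := phi_nm 0
    have := phi_nm (0 + 0)
    linarith

end Pool.Agent.Helper350
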