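import Mathlib
import Pool.Agent.Helper350.FreeNorm

set_option autoImplicit false

namespace Pool.Agent.Helper350

universe u v w

variable {A : Type u}

/-- retraction onto the `n`-th block -/
def pr (n : ℕ) : FreeGroup (ℕ × A) →* FreeGroup (ℕ × A) :=
  FreeGroup.lift (fun p => if p.1 = n then FreeGroup.of p else 1)

/-- projection to the zeroth block -/
def pz : FreeGroup (ℕ × A) →* FreeGroup A :=
  FreeGroup.lift (fun p => if p.1 = 0 then FreeGroup.of p.2 else 1)

/-- inclusion of the zeroth block -/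
def inz : FreeGroup A →* FreeGroup (ℕ × A) :=
  FreeGroup.lift (fun a => FreeGroup.of (0, a))

/-- shift up -/
def sh : FreeGroup (ℕ × A) →* FreeGroup (ℕ × A) :=
  FreeGroup.lift (fun p => FreeGroup.of (p.1 + 1, p.2))

/-- shift down -/
def sd : FreeGroup (ℕ × A) →* FreeGroup (ℕ × A) :=
  FreeGroup.lift (fun p => if p.1 = 0 then 1 else FreeGroup.of (p.1 - 1, p.2))

/-- ordered product of the first `N` block retractions -/
def PP : ℕ → FreeGroup (ℕ × A) → FreeGroup (ℕ × A)
  | 0, _ => 1
  | (N + 1), g => PP N g * pr N g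

theorem pr_of (n : ℕ) (p : ℕ × A) :
    pr n (FreeGroup.of p) = if p.1 = n then FreeGroup.of p else 1 := by simp [pr]

theorem pz_of (p : ℕ × A) :
    pz (FreeGroup.of p) = if p.1 = 0 then FreeGroup.of p.2 else 1 := by simp [pz]

theorem inz_of (a : A) : inz (FreeGroup.of a) = FreeGroup.of (0, a) := by simp [inz]

theorem sh_of (p : ℕ × A) : sh (FreeGroup.of p) = FreeGroup.of (p.1 + 1, p.2) := by simp [sh]

theorem sd_of (p : ℕ × A) :
    sd (FreeGroup.of p) = if p.1 = 0 then 1 else FreeGroup.of (p.1 - 1, p.2) := by simp [sd]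

theorem bound (g : FreeGroup (ℕ × A)) : ∃ N, ∀ n, N ≤ n → pr n g = 1 := by
  induction g using FreeGroup.induction_on with
  | C1 => exact ⟨0, fun n _ => map_one _⟩
  | of p =>
    refine ⟨p.1 + 1, fun n hn => ?_⟩
    rw [pr_of, if_neg (by omega)]
  | inv_of p _ =>
    refine ⟨p.1 + 1, fun n hn => ?_⟩
    rw [map_inv, pr_of, if_neg (by omega), inv_one]
  | mul x y hx hy =>
    obtain ⟨N, hN⟩ := hx
    obtain ⟨M, hM⟩ := hy
    refine ⟨max N M, fun n hn => ?_⟩
    rw [map_mul, hN n (le_trans (le_max_left _ _) hn), hM n (le_trans (le_max_right _ _) hn),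
      mul_one]

/-- the sorted form of an element -/
noncomputable def rho (g : FreeGroup (ℕ × A)) : FreeGroup (ℕ × A) := PP (bound g).choose g

theorem PP_stable (g : FreeGroup (ℕ × A)) {N : ℕ} (h : ∀ n, N ≤ n → pr n g = 1) (k : ℕ) :
    PP (N + k) g = PP N g := by
  induction k with
  | zero => rfl
  | succ k ih =>
    rw [← Nat.add_assoc]
    show PP (N + k) g * pr (N + k) g = _
    rw [ih, h _ (Nat.le_add_right _ _), mul_one]

theorem rho_eq (g : FreeGroup (ℕ × A)) : ∃ N, ∀ M, N ≤ M → rho g = PP M g := by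
  refine ⟨(bound g).choose, fun M hM => ?_⟩
  obtain ⟨k, rfl⟩ := Nat.exists_eq_add_of_le hM
  exact (PP_stable g (bound g).choose_spec k).symm

theorem hom_ext' {α : Type v} {G : Type w} [Group G] {F F' : FreeGroup α →* G}
    (h : ∀ a, F (FreeGroup.of a) = F' (FreeGroup.of a)) (g : FreeGroup α) : F g = F' g := by
  have : F = F' := FreeGroup.ext_hom _ _ h
  rw [this]

theorem pr_pr_same (n : ℕ) (g : FreeGroup (ℕ × A)) : pr n (pr n g) = pr n g := by
  refine hom_ext' (F := (pr n).comp (pr n)) (F' := pr n) (fun p => ?_) g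
  simp only [MonoidHom.comp_apply, pr_of]
  split_ifs with h
  · rw [pr_of, if_pos h]
  · rw [map_one]

theorem pr_pr_ne {n m : ℕ} (hnm : n ≠ m) (g : FreeGroup (ℕ × A)) : pr n (pr m g) = 1 := by
  refine hom_ext' (F := (pr n).comp (pr m)) (F' := 1) (fun p => ?_) g
  simp only [MonoidHom.comp_apply, pr_of, MonoidHom.one_apply]
  split_ifs with h
  · rw [pr_of, if_neg (by omega)]
  · rw [map_one]

theorem pr_PP (n N : ℕ) (g : FreeGroup (ℕ × A)) :
    pr n (PP N g) = if n < N then pr n g else 1 := by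
  induction N with
  | zero => simp [PP]
  | succ N ih =>
    show pr n (PP N g * pr N g) = _
    rw [map_mul, ih]
    by_cases h : n = N
    · subst h
      rw [if_neg (lt_irrefl _), if_pos (Nat.lt_succ_self _), pr_pr_same, one_mul]
    · rw [pr_pr_ne h, mul_one]
      by_cases h2 : n < N
      · rw [if_pos h2, if_pos (by omega)]
      · rw [if_neg h2, if_neg (by omega)]

theorem pr_rho (n : ℕ) (g : FreeGroup (ℕ × A)) : pr n (rho g) = pr n g := by
  obtain ⟨N, hN⟩ := rho_eq g
  rw [hN (max N (n + 1)) (le_max_left _ _), pr_PP, if_pos]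
  exact lt_of_lt_of_le (Nat.lt_succ_self n) (le_max_right _ _)

theorem PP_congr {g g' : FreeGroup (ℕ × A)} (h : ∀ n, pr n g = pr n g') (N : ℕ) :
    PP N g = PP N g' := by
  induction N with
  | zero => rfl
  | succ N ih => show PP N g * pr N g = PP N g' * pr N g'; rw [ih, h]

theorem rho_congr {g g' : FreeGroup (ℕ × A)} (h : ∀ n, pr n g = pr n g') : rho g = rho g' := by
  obtain ⟨N, hN⟩ := rho_eq g
  obtain ⟨M, hM⟩ := rho_eq g'
  rw [hN (max N M) (le_max_left _ _), hM (max N M) (le_max_right _ _)]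
  exact PP_congr h _

theorem inz_pz (g : FreeGroup (ℕ × A)) : inz (pz g) = pr 0 g := by
  refine hom_ext' (F := inz.comp pz) (F' := pr 0) (fun p => ?_) g
  simp only [MonoidHom.comp_apply, pr_of, pz_of]
  split_ifs with h
  · rw [inz_of, ← h]
  · rw [map_one]

theorem pz_inz (g : FreeGroup A) : pz (inz g) = g := by
  refine hom_ext' (F := pz.comp inz) (F' := MonoidHom.id _) (fun p => ?_) g
  simp [inz_of, pz_of]

theorem pz_pr (g : FreeGroup (ℕ × A)) : pz (pr 0 g) = pz g := by
  rw [← inz_pz, pz_inz]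

theorem pz_sh (g : FreeGroup (ℕ × A)) : pz (sh g) = 1 := by
  refine hom_ext' (F := pz.comp sh) (F' := 1) (fun p => ?_) g
  simp [sh_of, pz_of]

theorem sd_inz (g : FreeGroup A) : sd (inz g) = 1 := by
  refine hom_ext' (F := sd.comp inz) (F' := 1) (fun p => ?_) g
  simp [inz_of, sd_of]

theorem sd_sh (g : FreeGroup (ℕ × A)) : sd (sh g) = g := by
  refine hom_ext' (F := sd.comp sh) (F' := MonoidHom.id _) (fun p => ?_) g
  simp [sh_of, sd_of]

theorem pr_sd (n : ℕ) (g : FreeGroup (ℕ × A)) : pr n (sd g) = sd (pr (n + 1) g) := by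
  refine hom_ext' (F := (pr n).comp sd) (F' := sd.comp (pr (n + 1))) (fun p => ?_) g
  simp only [MonoidHom.comp_apply, pr_of, sd_of]
  by_cases h : p.1 = 0
  · rw [if_pos h, if_neg (by omega), map_one, map_one]
  · rw [if_neg h, pr_of]
    by_cases h2 : p.1 = n + 1
    · rw [if_pos (by simp; omega), if_pos h2, sd_of, if_neg h]
    · rw [if_neg (by simp; omega), if_neg h2, map_one]

theorem sh_pr_sd (n : ℕ) (g : FreeGroup (ℕ × A)) : sh (pr n (sd g)) = pr (n + 1) g := by
  refine hom_ext' (F := sh.comp ((pr n).comp sd)) (F' := pr (n + 1)) (fun p => ?_) g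
  simp only [MonoidHom.comp_apply, pr_of, sd_of]
  by_cases h : p.1 = 0
  · rw [if_pos h, if_neg (by omega), map_one, map_one]
  · rw [if_neg h, pr_of]
    by_cases h2 : p.1 = n + 1
    · rw [if_pos (by simp; omega), if_pos h2, sh_of]
      congr 1
      ext
      · simp; omega
      · rfl
    · rw [if_neg (by simp; omega), if_neg h2, map_one]

theorem PP_succ' (N : ℕ) (g : FreeGroup (ℕ × A)) :
    PP (N + 1) g = inz (pz g) * sh (PP N (sd g)) := by
  induction N with
  | zero => rw [inz_pz]; show PP 0 g * pr 0 g = pr 0 g * sh 1; simp [PP]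
  | succ N ih =>
    show PP (N + 1) g * pr (N + 1) g = _ * sh (PP N (sd g) * pr N (sd g))
    rw [ih, map_mul, sh_pr_sd, mul_assoc]

theorem rho_succ (g : FreeGroup (ℕ × A)) : rho g = inz (pz g) * sh (rho (sd g)) := by
  obtain ⟨N, hN⟩ := rho_eq g
  obtain ⟨M, hM⟩ := rho_eq (sd g)
  rw [hN (max N M + 1) (by omega), hM (max N M) (by omega), PP_succ']

theorem nm_hom_le {α : Type u} {β : Type v} (F : FreeGroup α →* FreeGroup β)
    (h : ∀ a, F (FreeGroup.of a) = 1 ∨ ∃ b, F (FreeGroup.of a) = FreeGroup.of b) :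
    CL (fun g => F g) := by
  refine hom_CL F (M := 1) zero_le_one (fun a => ?_)
  rcases h a with h | ⟨b, h⟩
  · rw [h, nm_one]; exact zero_le_one
  · rw [h]; exact nm_of_le b

theorem sum_pr_le (N : ℕ) (g : FreeGroup (ℕ × A)) :
    ∑ n ∈ Finset.range N, nm (pr n g) ≤ 1 * nm g := by
  refine le_of_gen (F := fun g => ∑ n ∈ Finset.range N, nm (pr n g)) ?_ ?_ ?_ g
  · simp [nm_one]
  · intro g h
    simp only [map_mul]
    rw [← Finset.sum_add_distrib]
    exact Finset.sum_le_sum (fun n _ => nm_mul _ _)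
  · have h1 : ∀ p : ℕ × A, ∑ n ∈ Finset.range N, nm (pr n (FreeGroup.of p)) ≤ 1 := by
      intro p
      have h2 : ∀ n ∈ Finset.range N, nm (pr n (FreeGroup.of p)) ≤
          if p.1 = n then (1 : ℝ) else 0 := by
        intro n _
        rw [pr_of]
        split_ifs with h
        · exact nm_of_le p
        · rw [nm_one]
      refine (Finset.sum_le_sum h2).trans ?_
      rw [Finset.sum_ite_eq]
      split_ifs <;> norm_num
    rintro x ⟨p, h, rfl | rfl⟩
    · simp only [map_mul, map_inv, nm_conj]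
      exact h1 p
    · simp only [map_mul, map_inv, nm_conj, nm_inv]
      exact h1 p

theorem d_PP (N : ℕ) (g g' : FreeGroup (ℕ × A)) :
    d (PP N g) (PP N g') ≤ ∑ n ∈ Finset.range N, nm (pr n (g⁻¹ * g')) := by
  induction N with
  | zero => simp [PP, d_self]
  | succ N ih =>
    rw [Finset.sum_range_succ]
    have h := d_mul (PP N g) (pr N g) (PP N g') (pr N g')
    have h2 : d (pr N g) (pr N g') = nm (pr N (g⁻¹ * g')) := by
      rw [d_def, map_mul, map_inv]
    show d (PP N g * pr N g) (PP N g' * pr N g') ≤ _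
    linarith

theorem rho_CL : CL (fun g : FreeGroup (ℕ × A) => rho g) := by
  refine ⟨1, 0, zero_le_one, le_rfl, fun g g' => ?_⟩
  obtain ⟨N, hN⟩ := rho_eq g
  obtain ⟨M, hM⟩ := rho_eq g'
  simp only
  rw [hN (max N M) (le_max_left _ _), hM (max N M) (le_max_right _ _)]
  have h1 := d_PP (max N M) g g'
  have h2 := sum_pr_le (max N M) (g⁻¹ * g')
  rw [d_def g g']
  linarith

theorem pz_CL : CL (fun g : FreeGroup (ℕ × A) => pz g) := nm_hom_le _ (fun p => by
  rw [pz_of]; split_ifs
  · exact Or.inr ⟨_, rfl⟩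
  · exact Or.inl rfl)

theorem inz_CL : CL (fun g : FreeGroup A => inz g) := nm_hom_le _ (fun p => by
  rw [inz_of]; exact Or.inr ⟨_, rfl⟩)

theorem sh_CL : CL (fun g : FreeGroup (ℕ × A) => sh g) := nm_hom_le _ (fun p => by
  rw [sh_of]; exact Or.inr ⟨_, rfl⟩)

theorem sd_CL : CL (fun g : FreeGroup (ℕ × A) => sd g) := nm_hom_le _ (fun p => by
  rw [sd_of]; split_ifs
  · exact Or.inl rfl
  · exact Or.inr ⟨_, rfl⟩)

/-- the swindle: adding one more block changes nothing -/
theorem swindle : QI (FreeGroup A × FreeGroup (ℕ × A)) (FreeGroup (ℕ × A)) := by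
  refine ⟨fun p => p.2 * (rho p.2)⁻¹ * (inz p.1 * sh (rho p.2)),
    fun g => (pz g, g * (rho g)⁻¹ * rho (sd g)), ?_, ?_, ?_, ?_⟩
  · exact (CL.snd'.mul' (rho_CL.comp' CL.snd').inv').mul'
      ((inz_CL.comp' CL.fst').mul' (sh_CL.comp' (rho_CL.comp' CL.snd')))
  · exact pz_CL.prod' ((CL.id'.mul' rho_CL.inv').mul' (rho_CL.comp' sd_CL))
  · refine Cl.of_eq ?_
    rintro ⟨x, g⟩
    simp only
    set g'' := g * (rho g)⁻¹ * (inz x * sh (rho g)) with hg
    have e1 : pz g'' = x := by
      rw [hg]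
      simp only [map_mul, map_inv, pz_inz, pz_sh, mul_one]
      rw [← pz_pr (rho g), pr_rho, pz_pr, mul_inv_cancel, one_mul]
    have e2 : rho (sd g'') = rho g := by
      apply rho_congr
      intro n
      rw [hg]
      simp only [map_mul, map_inv, sd_inz, sd_sh, map_one, one_mul]
      rw [pr_sd n (rho g), pr_rho, ← pr_sd, pr_rho, mul_inv_cancel, one_mul]
    have e3 : rho g'' = inz x * sh (rho g) := by rw [rho_succ, e1, e2]
    rw [e1, e2, e3, hg]
    congr 1
    group
  · refine Cl.of_eq ?_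
    intro g
    simp only
    have e1 : rho (g * (rho g)⁻¹ * rho (sd g)) = rho (sd g) := by
      apply rho_congr
      intro n
      simp only [map_mul, map_inv, pr_rho, mul_inv_cancel, one_mul]
    rw [e1, ← rho_succ]
    group

theorem map_CL {α : Type u} {β : Type v} (e : α → β) :
    CL (fun g : FreeGroup α => FreeGroup.map e g) :=
  nm_hom_le (FreeGroup.map e) (fun a => Or.inr ⟨e a, by simp⟩)

theorem QI_congr {α : Type u} {β : Type v} (e : α ≃ β) : QI (FreeGroup α) (FreeGroup β) := by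
  refine ⟨fun g => FreeGroup.map e g, fun g => FreeGroup.map e.symm g, map_CL _, map_CL _,
    Cl.of_eq fun g => ?_, Cl.of_eq fun g => ?_⟩
  · refine hom_ext' (F := (FreeGroup.map e.symm).comp (FreeGroup.map e)) (F' := MonoidHom.id _)
      (fun p => ?_) g
    simp
  · refine hom_ext' (F := (FreeGroup.map e).comp (FreeGroup.map e.symm)) (F' := MonoidHom.id _)
      (fun p => ?_) g
    simp

/-- `F_A × F_∞` is quasi-isometric to `F_∞`, for countable nonempty `A` -/
theorem swindle' (A : Type) [Countable A] [Nonempty A] :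
    QI (FreeGroup A × FreeGroup ℕ) (FreeGroup ℕ) := by
  obtain ⟨e⟩ : Nonempty (ℕ ≃ ℕ × A) := nonempty_equiv_of_countable
  exact ((QI_congr e).prod_left.trans' swindle).trans' (QI_congr e).symm'

end Pool.Agent.Helper350
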