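import Mathlib
import Pool.Agent.Helper350.Swindle
import Pool.Agent.Helper350.Rolli

set_option autoImplicit false

namespace Pool.Agent.Helper350

/-- `F_α` is quasi-isometric to `F_∞` for countable nontrivial `α`. -/
theorem QI_infty (α : Type) [Countable α] [Nontrivial α] : QI (FreeGroup α) (FreeGroup ℕ) := by
  classical
  obtain ⟨a, b, hab⟩ := exists_pair_ne α
  let i : FreeGroup (Fin 2) →* FreeGroup α :=
    FreeGroup.lift (fun j => if j = 0 then FreeGroup.of a else FreeGroup.of b)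
  let p : FreeGroup α →* FreeGroup (Fin 2) :=
    FreeGroup.lift (fun x => if x = a then FreeGroup.of 0 else
      if x = b then FreeGroup.of 1 else 1)
  have hpi : ∀ g, p (i g) = g := by
    intro g
    refine hom_ext' (F := p.comp i) (F' := MonoidHom.id _) (fun j => ?_) g
    simp only [MonoidHom.comp_apply, i, p, FreeGroup.lift_apply_of, MonoidHom.id_apply]
    fin_cases j
    · simp
    · simp [hab.symm]
  have hi : CL (fun g => i g) := nm_hom_le _ (fun j => by
    simp only [i, FreeGroup.lift_apply_of]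
    split_ifs
    · exact Or.inr ⟨_, rfl⟩
    · exact Or.inr ⟨_, rfl⟩)
  have hp : CL (fun g => p g) := nm_hom_le _ (fun j => by
    simp only [p, FreeGroup.lift_apply_of]
    split_ifs
    · exact Or.inr ⟨_, rfl⟩
    · exact Or.inr ⟨_, rfl⟩
    · exact Or.inl rfl)
  have hq : QH (fun g => rolli phi (p g)) := by
    obtain ⟨D, hD⟩ := rolli_phi_QH
    refine ⟨D, fun g h => ?_⟩
    simp only [map_mul]
    exact hD _ _
  have h1 : QI (FreeGroup α × FreeGroup ℕ) (FreeGroup α) :=
    absorb (fun g => rolli phi (p g)) (fun g => i (ff g)) (rolli_phi_CL.comp' hp)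
      (hi.comp' ff_CL) hq (Cl.of_eq fun g => by simp only [hpi, rolli_ff]) (swindle' ℕ)
  exact h1.symm'.trans' (swindle' α)

theorem QI_free (α β : Type) [Countable α] [Nontrivial α] [Countable β] [Nontrivial β] :
    QI (FreeGroup α) (FreeGroup β) := (QI_infty α).trans' (QI_infty β).symm'

theorem QI_explicit {α β : Type} (h : QI (FreeGroup α) (FreeGroup β)) :
    ∃ (f : FreeGroup α → FreeGroup β) (K C : ℝ), 0 < K ∧ 0 ≤ C ∧
        (∀ x y : FreeGroup α,
          (len (x⁻¹ * y) : ℝ) / K - C ≤ (len ((f x)⁻¹ * f y) : ℝ) ∧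
          (len ((f x)⁻¹ * f y) : ℝ) ≤ K * (len (x⁻¹ * y) : ℝ) + C) ∧
        ∀ z : FreeGroup β, ∃ x : FreeGroup α, (len ((f x)⁻¹ * z) : ℝ) ≤ C := by
  obtain ⟨f, g, ⟨K, C, hK, hC, h1⟩, ⟨K', C', hK', hC', h2⟩, ⟨D, h3⟩, ⟨D', h4⟩⟩ := h
  have hD : 0 ≤ D := (d_nonneg _ _).trans (h3 1)
  have hD' : 0 ≤ D' := (d_nonneg _ _).trans (h4 1)
  have hM : 1 ≤ K + K' + 1 := by linarith
  refine ⟨f, K + K' + 1, C + C' + 2 * D + D', by positivity, by positivity, ?_, ?_⟩
  · intro x y
    have e1 := h1 x y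
    have e2 := h2 (f x) (f y)
    have e3 := h3 x
    have e4 := h3 y
    rw [d_comm] at e3
    have e5 := d_tri x (g (f x)) y
    have e6 := d_tri (g (f x)) (g (f y)) y
    have n1 := d_nonneg x y
    have n2 := d_nonneg (f x) (f y)
    have e7 : d x y = (len (x⁻¹ * y) : ℝ) := rfl
    have e8 : d (f x) (f y) = (len ((f x)⁻¹ * f y) : ℝ) := rfl
    rw [← e7, ← e8]
    simp only at e2 e3 e4 e5 e6
    constructor
    · rw [sub_le_iff_le_add, div_le_iff₀ (by linarith)]
      have : d x y ≤ K' * d (f x) (f y) + (C' + 2 * D) := by linarith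
      nlinarith
    · nlinarith
  · intro z
    refine ⟨g z, ?_⟩
    have e1 := h4 z
    have e8 : d (f (g z)) z = (len ((f (g z))⁻¹ * z) : ℝ) := rfl
    rw [← e8]
    linarith

end Pool.Agent.Helper350
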