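import Mathlib
import Pool.Agent.Helper350.ClaimA

set_option autoImplicit false

namespace Pool.Agent.Helper350.Tree

/-- parameters of the four-regular tree -/
noncomputable def P0 : Par := ⟨0, Real.log 3, le_rfl, Real.log_pos (by norm_num)⟩

/-- parameters of the three-regular tree -/
noncomputable def P1 : Par :=
  ⟨Real.log 2, Real.log 2, (Real.log_pos (by norm_num)).le, Real.log_pos (by norm_num)⟩

theorem P0_w : P0.w = w0 := rfl
theorem P1_w : P1.w = w1 := rfl

open Sp in
theorem near2 {P : Par} (x y : Sp P) (a b : W) (ha : dist x (pt a) ≤ P.p + P.q)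
    (hb : dist y (pt b) ≤ P.p + P.q) : |dist x y - D P.w a b| ≤ 2 * (P.p + P.q) := by
  rw [← dist_pt_pt (P := P)]
  have t1 := dist_triangle4 x (pt a) (pt b) y
  have t2 := dist_triangle4 (pt a) x y (pt b)
  rw [dist_comm (pt b) y] at t1
  rw [dist_comm (pt a) x] at t2
  rw [abs_le]; constructor <;> linarith

open Sp in
/-- quasi-isometries between the two spaces with multiplicative constant close to one -/
theorem qi_close (η : ℝ) (hη : 0 < η) : ∃ f : Sp P0 → Sp P1, ∃ c : ℝ,
    (∀ x y : Sp P0, dist x y / (1 + η) - c ≤ dist (f x) (f y) ∧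
      dist (f x) (f y) ≤ (1 + η) * dist x y + c) ∧
    ∀ z : Sp P1, ∃ x : Sp P0, dist (f x) z ≤ c := by
  obtain ⟨f, C, h1, h2⟩ := claimA η hη
  choose ν hν using fun x : Sp P0 => x.exists_pt_near
  set m0 := P0.p + P0.q with hm0
  set m1 := P1.p + P1.q with hm1
  have hm0' : 0 ≤ m0 := by have := P0.hp; have := P0.hq; simp only [hm0]; linarith
  have hm1' : 0 ≤ m1 := by have := P1.hp; have := P1.hq; simp only [hm1]; linarith
  have key : ∀ a b, dist (pt (f a) : Sp P1) (pt (f b)) = D w1 (f a) (f b) := by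
    intro a b; rw [dist_pt_pt, P1_w]
  refine ⟨fun x => pt (f (ν x)), C + (1 + η) * (2 * m0) + C + m1, fun x y => ?_, fun z => ?_⟩
  · have n1 := abs_le.1 (near2 x y (ν x) (ν y) (hν x) (hν y))
    rw [P0_w] at n1
    obtain ⟨a1, a2⟩ := h1 (ν x) (ν y)
    have hC : 0 ≤ C := by
      have := (h1 1 1).2
      rw [D_self, D_self] at this
      simpa using this
    rw [key]
    constructor
    · have t1 : dist x y / (1 + η) ≤ D w0 (ν x) (ν y) / (1 + η) + 2 * m0 := by
        rw [div_add' _ _ _ (by linarith : (1 + η) ≠ 0)]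
        apply div_le_div_of_nonneg_right _ (by linarith)
        have : 0 ≤ η * (2 * m0) := by positivity
        linarith [n1.2]
      have : 0 ≤ η * (2 * m0) := by positivity
      linarith
    · have t1 : (1 + η) * D w0 (ν x) (ν y) ≤ (1 + η) * (dist x y + 2 * m0) := by
        apply mul_le_mul_of_nonneg_left _ (by linarith)
        linarith [n1.1]
      linarith
  · obtain ⟨b, hb⟩ := z.exists_pt_near
    obtain ⟨u, hu⟩ := h2 b
    refine ⟨pt u, ?_⟩
    have t1 := dist_triangle4 (pt (f (ν (pt u))) : Sp P1) (pt (f u)) (pt b) z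
    rw [key, dist_comm (pt b) z, dist_pt_pt, P1_w] at t1
    have t2 := (h1 (ν (pt u)) u).2
    have t3 := hν (pt u)
    rw [dist_pt_pt, P0_w, D_comm] at t3
    have t4 : (1 + η) * D w0 (ν (pt u)) u ≤ (1 + η) * m0 :=
      mul_le_mul_of_nonneg_left t3 (by linarith)
    have t5 : 0 ≤ (1 + η) * m0 := by positivity
    simp only
    linarith

open Sp in
/-- no rough isometry between the two spaces, not even a rough isometric embedding -/
theorem no_rough_space (f : Sp P0 → Sp P1) (c : ℝ)
    (h : ∀ x y : Sp P0, dist x y - c ≤ dist (f x) (f y) ∧ dist (f x) (f y) ≤ dist x y + c) :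
    False := by
  choose ν hν using fun x : Sp P1 => x.exists_pt_near
  refine no_rough (fun u => ν (f (pt u))) (c + 2 * (P1.p + P1.q)) (fun u v => ?_)
  have n1 := abs_le.1 (near2 (f (pt u)) (f (pt v)) (ν (f (pt u))) (ν (f (pt v))) (hν _) (hν _))
  have n2 := h (pt u) (pt v)
  rw [dist_pt_pt, P0_w] at n2
  rw [P1_w] at n1
  rw [abs_le]
  constructor <;> linarith [n1.1, n1.2, n2.1, n2.2]

end Pool.Agent.Helper350.Tree
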